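import Pool.Agent.KDD.Basic

/-!
# `K ^ n = D ∪ D⁻¹` (MP_846fd0_al): fragments and atoms

For `k ≥ 1` a set `F ⊆ N` is `k`-admissible if `|F| ≥ k` and `|FK| ≤ |N| - k`.  If `κ` is the
minimum of `|FK| - |F|` over the `k`-admissible sets, a `k`-fragment is a minimiser and a `k`-atom
is a `k`-fragment of least cardinality.
-/

namespace KDD

open Finset Pointwise

variable {G : Type*} [Group G] [Fintype G] [DecidableEq G]

/-- `F ⊆ N`, `|F| ≥ k`, `|FK| + k ≤ |N|`. -/
def Adm (K : Finset G) (N : Subgroup G) (k : ℕ) (F : Finset G) : Prop :=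
  (∀ f ∈ F, f ∈ N) ∧ k ≤ F.card ∧ pc K F + k ≤ (fs N).card

/-- `κ` is a lower bound of `|FK| - |F|` on the `k`-admissible sets. -/
def Low (K : Finset G) (N : Subgroup G) (k κ : ℕ) : Prop :=
  ∀ F, Adm K N k F → F.card + κ ≤ pc K F

/-- `k`-fragment (to be used together with `Low K N k κ`). -/
def Frag (K : Finset G) (N : Subgroup G) (k κ : ℕ) (F : Finset G) : Prop :=
  Adm K N k F ∧ pc K F = F.card + κ

/-- `k`-atom (to be used together with `Low K N k κ`). -/
def Atom (K : Finset G) (N : Subgroup G) (k κ : ℕ) (A : Finset G) : Prop :=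
  Frag K N k κ A ∧ ∀ F, Frag K N k κ F → A.card ≤ F.card

theorem Adm.left {K : Finset G} {N : Subgroup G} {k : ℕ} {F : Finset G} (h : Adm K N k F)
    {g : G} (hg : g ∈ N) : Adm K N k ({g} * F) := by
  obtain ⟨h1, h2, h3⟩ := h
  refine ⟨?_, ?_, ?_⟩
  · intro f hf
    obtain ⟨a, ha, b, hb, rfl⟩ := Finset.mem_mul.1 hf
    rw [Finset.mem_singleton.1 ha]
    exact N.mul_mem hg (h1 b hb)
  · rwa [Finset.card_singleton_mul]
  · rwa [pc_left]

theorem Adm.right {K : Finset G} {N : Subgroup G} (S : Setup K N) {k : ℕ} {F : Finset G}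
    (h : Adm K N k F) {g : G} (hg : g ∈ N) : Adm K N k (F * {g}) := by
  obtain ⟨h1, h2, h3⟩ := h
  refine ⟨?_, ?_, ?_⟩
  · intro f hf
    obtain ⟨a, ha, b, hb, rfl⟩ := Finset.mem_mul.1 hf
    rw [Finset.mem_singleton.1 hb]
    exact N.mul_mem (h1 a ha) hg
  · rwa [Finset.card_mul_singleton]
  · rwa [pc_right S.inv]

theorem Adm.conj {K : Finset G} {N : Subgroup G} (S : Setup K N) {k : ℕ} {F : Finset G}
    (h : Adm K N k F) (g : G) : Adm K N k ({g} * F * {g⁻¹}) := by
  obtain ⟨h1, h2, h3⟩ := h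
  refine ⟨?_, ?_, ?_⟩
  · intro f hf
    obtain ⟨a, ha, b, hb, rfl⟩ := Finset.mem_mul.1 hf
    obtain ⟨c, hc, d, hd, rfl⟩ := Finset.mem_mul.1 ha
    rw [Finset.mem_singleton.1 hb, Finset.mem_singleton.1 hc]
    exact S.normal.conj_mem d (h1 d hd) g
  · rwa [Finset.card_mul_singleton, Finset.card_singleton_mul]
  · rwa [pc_conj S.inv]

theorem Frag.left {K : Finset G} {N : Subgroup G} {k κ : ℕ} {F : Finset G} (h : Frag K N k κ F)
    {g : G} (hg : g ∈ N) : Frag K N k κ ({g} * F) :=
  ⟨h.1.left hg, by rw [pc_left, Finset.card_singleton_mul]; exact h.2⟩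

theorem Frag.right {K : Finset G} {N : Subgroup G} (S : Setup K N) {k κ : ℕ} {F : Finset G}
    (h : Frag K N k κ F) {g : G} (hg : g ∈ N) : Frag K N k κ (F * {g}) :=
  ⟨h.1.right S hg, by rw [pc_right S.inv, Finset.card_mul_singleton]; exact h.2⟩

theorem Frag.conj {K : Finset G} {N : Subgroup G} (S : Setup K N) {k κ : ℕ} {F : Finset G}
    (h : Frag K N k κ F) (g : G) : Frag K N k κ ({g} * F * {g⁻¹}) :=
  ⟨h.1.conj S g, by
    rw [pc_conj S.inv, Finset.card_mul_singleton, Finset.card_singleton_mul]; exact h.2⟩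

theorem Atom.left {K : Finset G} {N : Subgroup G} {k κ : ℕ} {A : Finset G} (h : Atom K N k κ A)
    {g : G} (hg : g ∈ N) : Atom K N k κ ({g} * A) :=
  ⟨h.1.left hg, by rw [Finset.card_singleton_mul]; exact h.2⟩

theorem Atom.right {K : Finset G} {N : Subgroup G} (S : Setup K N) {k κ : ℕ} {A : Finset G}
    (h : Atom K N k κ A) {g : G} (hg : g ∈ N) : Atom K N k κ (A * {g}) :=
  ⟨h.1.right S hg, by rw [Finset.card_mul_singleton]; exact h.2⟩

theorem Atom.conj {K : Finset G} {N : Subgroup G} (S : Setup K N) {k κ : ℕ} {A : Finset G}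
    (h : Atom K N k κ A) (g : G) : Atom K N k κ ({g} * A * {g⁻¹}) :=
  ⟨h.1.conj S g, by rw [Finset.card_mul_singleton, Finset.card_singleton_mul]; exact h.2⟩

/-- Existence of atoms. -/
theorem exists_atom {K : Finset G} {N : Subgroup G} (S : Setup K N) {k : ℕ} (hk : 1 ≤ k)
    (h : ∃ F, Adm K N k F) :
    ∃ κ, Low K N k κ ∧ ∃ A, Atom K N k κ A ∧ (1 : G) ∈ A := by
  classical
  let T : Finset (Finset G) := Finset.univ.filter (fun F => Adm K N k F)
  have hT : T.Nonempty := by
    obtain ⟨F, hF⟩ := h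
    exact ⟨F, by simp [T, hF]⟩
  obtain ⟨F0, hF0, hmin⟩ := Finset.exists_min_image T (fun F => pc K F - F.card) hT
  have hF0' : Adm K N k F0 := by simpa [T] using hF0
  set κ := pc K F0 - F0.card with hκ
  have hlow : Low K N k κ := by
    intro F hF
    have h1 := hmin F (by simp [T, hF])
    have h2 := card_le_pc S.ne F
    omega
  have hfrag : Frag K N k κ F0 := ⟨hF0', by have := card_le_pc S.ne F0; omega⟩
  let T2 : Finset (Finset G) := Finset.univ.filter (fun F => Frag K N k κ F)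
  obtain ⟨A, hA, hAmin⟩ := Finset.exists_min_image T2 (fun F => F.card) ⟨F0, by simp [T2, hfrag]⟩
  have hA' : Frag K N k κ A := by simpa [T2] using hA
  have hatom : Atom K N k κ A := ⟨hA', fun F hF => hAmin F (by simp [T2, hF])⟩
  have hne : A.Nonempty := by
    rw [← Finset.card_pos]
    have := hA'.1.2.1
    omega
  obtain ⟨a, ha⟩ := hne
  refine ⟨κ, hlow, {a⁻¹} * A, hatom.left (N.inv_mem (hA'.1.1 a ha)), ?_⟩
  rw [mem_left]; simpa using ha

/-- The dual of a fragment is a fragment, hence `|FK| + |A| ≤ |N|`. -/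
theorem frag_bound {K : Finset G} {N : Subgroup G} (S : Setup K N) {k κ : ℕ}
    (hlow : Low K N k κ) {A F : Finset G} (hA : Atom K N k κ A) (hF : Frag K N k κ F) :
    pc K F + A.card ≤ (fs N).card := by
  obtain ⟨F', h1, h2, h3⟩ := dual S F hF.1.1
  have hadm : Adm K N k F' := by
    refine ⟨h1, ?_, ?_⟩
    · have := hF.1.2.2; omega
    · have := hF.1.2.1; omega
  have h4 := hlow F' hadm
  have h5 := hF.2
  have h6 : Frag K N k κ F' := ⟨hadm, by omega⟩
  have h7 := hA.2 F' h6
  omega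

/-- An atom which meets a fragment in at least `k` elements is contained in it. -/
theorem atom_subset {K : Finset G} {N : Subgroup G} (S : Setup K N) {k κ : ℕ}
    (hlow : Low K N k κ) {A F : Finset G} (hA : Atom K N k κ A) (hF : Frag K N k κ F)
    (hk : k ≤ (A ∩ F).card) : A ⊆ F := by
  have h1 := pc_submod K A F
  have h2 : Adm K N k (A ∩ F) := by
    refine ⟨fun f hf => hF.1.1 f (Finset.mem_inter.1 hf).2, hk, ?_⟩
    have := pc_mono K (Finset.inter_subset_left : A ∩ F ⊆ A)
    have := hA.1.1.2.2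
    omega
  have h3 := hlow _ h2
  have h4 := frag_bound S hlow hA hF
  have h5 := hA.1.2
  have h6 := hF.2
  have h7 := Finset.card_union_add_card_inter A F
  have h8 : Adm K N k (A ∪ F) := by
    refine ⟨?_, ?_, ?_⟩
    · intro f hf
      rcases Finset.mem_union.1 hf with h | h
      · exact hA.1.1.1 f h
      · exact hF.1.1 f h
    · have := hF.1.2.1; have := hA.1.1.2.1
      have := Finset.card_le_card (Finset.subset_union_left : A ⊆ A ∪ F)
      omega
    · omega
  have h9 := hlow _ h8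
  have h10 : Frag K N k κ (A ∩ F) := ⟨h2, by omega⟩
  have h11 := hA.2 _ h10
  have h12 : A ∩ F = A := Finset.eq_of_subset_of_card_le Finset.inter_subset_left h11
  exact Finset.inter_eq_left.1 h12

/-- Two atoms which share at least `k` elements are equal. -/
theorem atom_eq {K : Finset G} {N : Subgroup G} (S : Setup K N) {k κ : ℕ}
    (hlow : Low K N k κ) {A B : Finset G} (hA : Atom K N k κ A) (hB : Atom K N k κ B)
    (hk : k ≤ (A ∩ B).card) : A = B := by
  apply Finset.Subset.antisymm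
  · exact atom_subset S hlow hA hB.1 hk
  · exact atom_subset S hlow hB hA.1 (by rwa [Finset.inter_comm])

end KDD
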