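import Mathlib

/-!
# `K ^ n = D ∪ D⁻¹` (MP_846fd0_al): the functional `F ↦ |F K| - |F|`

`K` is a nonempty conjugation invariant subset of a finite group which is contained in one coset
of a normal subgroup `N`.  We study the sets `F ⊆ N` through `pc K F = |F K|`.
-/

namespace KDD

open Finset Pointwise

variable {G : Type*} [Group G] [Fintype G] [DecidableEq G]

/-- `K` is invariant under conjugation. -/
def Inv (K : Finset G) : Prop := ∀ g : G, ∀ k ∈ K, g * k * g⁻¹ ∈ K

/-- The elements of a subgroup as a finset. -/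
noncomputable def fs (N : Subgroup G) : Finset G := by
  classical exact Finset.univ.filter (fun g => g ∈ N)

omit [DecidableEq G] in
theorem mem_fs {N : Subgroup G} {g : G} : g ∈ fs N ↔ g ∈ N := by
  simp [fs]

/-- The standing hypotheses: `K` is a nonempty conjugation invariant set contained in one coset
of the normal subgroup `N`. -/
structure Setup (K : Finset G) (N : Subgroup G) : Prop where
  inv : Inv K
  ne : K.Nonempty
  normal : N.Normal
  sub : ∀ k ∈ K, ∀ l ∈ K, k⁻¹ * l ∈ N

/-- `pc K F = |F K|`. -/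
def pc (K F : Finset G) : ℕ := (F * K).card

omit [Fintype G] in
theorem mem_left {A : Finset G} {g y : G} : y ∈ {g} * A ↔ g⁻¹ * y ∈ A := by
  rw [Finset.mem_mul]
  constructor
  · rintro ⟨u, hu, b, hb, rfl⟩
    rw [Finset.mem_singleton.1 hu]; simpa using hb
  · intro h
    exact ⟨g, Finset.mem_singleton_self g, g⁻¹ * y, h, by simp⟩

omit [Fintype G] in
theorem mem_right {A : Finset G} {g y : G} : y ∈ A * {g} ↔ y * g⁻¹ ∈ A := by
  rw [Finset.mem_mul]
  constructor
  · rintro ⟨b, hb, u, hu, rfl⟩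
    rw [Finset.mem_singleton.1 hu]; simpa using hb
  · intro h
    exact ⟨y * g⁻¹, h, g, Finset.mem_singleton_self g, by simp⟩

omit [Fintype G] in
theorem mem_conj {A : Finset G} {g y : G} : y ∈ {g} * A * {g⁻¹} ↔ g⁻¹ * y * g ∈ A := by
  rw [mem_right, mem_left, inv_inv, mul_assoc]

omit [Fintype G] in
theorem mul_comm_inv {K : Finset G} (hK : Inv K) (F : Finset G) : F * K = K * F := by
  ext g
  simp only [Finset.mem_mul]
  constructor
  · rintro ⟨f, hf, k, hk, rfl⟩
    exact ⟨f * k * f⁻¹, hK f k hk, f, hf, by group⟩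
  · rintro ⟨k, hk, f, hf, rfl⟩
    exact ⟨f, hf, f⁻¹ * k * f, by simpa using hK f⁻¹ k hk, by group⟩

omit [Fintype G] in
theorem pc_left (K F : Finset G) (g : G) : pc K ({g} * F) = pc K F := by
  unfold pc
  rw [mul_assoc, Finset.card_singleton_mul]

omit [Fintype G] in
theorem pc_right {K : Finset G} (hK : Inv K) (F : Finset G) (g : G) :
    pc K (F * {g}) = pc K F := by
  unfold pc
  rw [mul_assoc, mul_comm_inv hK {g}, ← mul_assoc, Finset.card_mul_singleton]

omit [Fintype G] in
theorem pc_conj {K : Finset G} (hK : Inv K) (F : Finset G) (g : G) :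
    pc K ({g} * F * {g⁻¹}) = pc K F := by
  rw [pc_right hK, pc_left]

omit [Fintype G] in
theorem pc_mono (K : Finset G) {A B : Finset G} (h : A ⊆ B) : pc K A ≤ pc K B :=
  Finset.card_le_card (Finset.mul_subset_mul_right h)

omit [Fintype G] in
theorem pc_submod (K A B : Finset G) : pc K (A ∪ B) + pc K (A ∩ B) ≤ pc K A + pc K B := by
  unfold pc
  have h1 : (A ∪ B) * K = A * K ∪ B * K := Finset.union_mul
  have h2 : (A ∩ B) * K ⊆ A * K ∩ (B * K) := Finset.inter_mul_subset
  have h3 := Finset.card_union_add_card_inter (A * K) (B * K)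
  have h4 := Finset.card_le_card h2
  rw [h1]; omega

omit [Fintype G] in
theorem card_le_pc {K : Finset G} (hK : K.Nonempty) (F : Finset G) : F.card ≤ pc K F :=
  Finset.card_le_card_mul_right hK

omit [Fintype G] in
theorem pc_le_mul (K F : Finset G) : pc K F ≤ F.card * K.card := Finset.card_mul_le

omit [Fintype G] in
theorem pc_one (K : Finset G) : pc K {1} = K.card := by
  unfold pc; rw [Finset.singleton_one, one_mul]

omit [Fintype G] in
theorem pc_singleton (K : Finset G) (g : G) : pc K {g} = K.card := by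
  unfold pc; rw [Finset.card_singleton_mul]

/-- Duality: `F^∨ = {g⁻¹ x : g ∈ xN \ FK}`. -/
theorem dual {K : Finset G} {N : Subgroup G} (S : Setup K N) (F : Finset G)
    (hF : ∀ f ∈ F, f ∈ N) :
    ∃ F' : Finset G, (∀ f ∈ F', f ∈ N) ∧ F'.card + pc K F = (fs N).card ∧
      pc K F' + F.card ≤ (fs N).card := by
  obtain ⟨x, hx⟩ := S.ne
  have hN := S.normal
  -- the coset `xN = Nx`
  set C : Finset G := {x} * fs N with hC
  have hCcard : C.card = (fs N).card := by rw [hC, Finset.card_singleton_mul]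
  have memC : ∀ g, g ∈ C ↔ x⁻¹ * g ∈ N := by
    intro g
    rw [hC, Finset.mem_mul]
    constructor
    · rintro ⟨a, ha, b, hb, rfl⟩
      rw [Finset.mem_singleton] at ha; subst ha
      simpa [mem_fs] using hb
    · intro h
      exact ⟨x, by simp, x⁻¹ * g, mem_fs.2 h, by group⟩
  have hsub : F * K ⊆ C := by
    intro g hg
    obtain ⟨f, hf, k, hk, rfl⟩ := Finset.mem_mul.1 hg
    rw [memC]
    have h1 : x⁻¹ * f * x ∈ N := by
      have := hN.conj_mem f (hF f hf) x⁻¹
      simpa using this
    have h2 := S.sub x hx k hk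
    have : x⁻¹ * (f * k) = (x⁻¹ * f * x) * (x⁻¹ * k) := by group
    rw [this]; exact N.mul_mem h1 h2
  set R : Finset G := C \ (F * K) with hR
  refine ⟨R⁻¹ * {x}, ?_, ?_, ?_⟩
  · intro f hf
    obtain ⟨a, ha, b, hb, rfl⟩ := Finset.mem_mul.1 hf
    rw [Finset.mem_singleton] at hb
    rw [hb]
    rw [Finset.mem_inv] at ha
    obtain ⟨c, hc, rfl⟩ := ha
    have h1 : x⁻¹ * c ∈ N := (memC c).1 (Finset.mem_sdiff.1 hc).1
    have h2 := N.inv_mem h1
    simpa using h2
  · rw [Finset.card_mul_singleton, Finset.card_inv]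
    have := Finset.card_sdiff_add_card_eq_card hsub
    rw [← hCcard, ← this]
    rfl
  · rw [pc_right S.inv]
    -- R⁻¹ K ∩ ... : (R⁻¹ * K) ⊆ (x⁻¹ ... )
    have h1 : ∀ g ∈ R⁻¹ * K, g ∈ fs N ∧ g⁻¹ ∉ F := by
      intro g hg
      obtain ⟨a, ha, k, hk, rfl⟩ := Finset.mem_mul.1 hg
      rw [Finset.mem_inv] at ha
      obtain ⟨c, hc, rfl⟩ := ha
      obtain ⟨hc1, hc2⟩ := Finset.mem_sdiff.1 hc
      constructor
      · rw [mem_fs]
        have h1 : x⁻¹ * c ∈ N := (memC c).1 hc1
        have h2 := S.sub x hx k hk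
        have : c⁻¹ * k = (x⁻¹ * c)⁻¹ * (x⁻¹ * k) := by group
        rw [this]; exact N.mul_mem (N.inv_mem h1) h2
      · intro h
        apply hc2
        -- c = k * (k⁻¹ c), with k⁻¹ c ∈ F
        rw [mul_comm_inv S.inv]
        refine Finset.mem_mul.2 ⟨k, hk, k⁻¹ * c, ?_, by group⟩
        simpa using h
    have h2 : (R⁻¹ * K).card ≤ (fs N \ F⁻¹).card := by
      apply Finset.card_le_card
      intro g hg
      obtain ⟨h3, h4⟩ := h1 g hg
      rw [Finset.mem_sdiff]
      refine ⟨h3, fun h5 => h4 ?_⟩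
      rw [Finset.mem_inv'] at h5
      exact h5
    have h3 : F⁻¹ ⊆ fs N := by
      intro g hg
      rw [Finset.mem_inv'] at hg
      rw [mem_fs]
      have := hF _ hg
      simpa using N.inv_mem this
    have h4 := Finset.card_sdiff_add_card_eq_card h3
    rw [Finset.card_inv] at h4
    unfold pc
    omega

end KDD
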