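import Pool.Agent.KDD.Elem

/-!
# `K ^ n = D ∪ D⁻¹` (MP_846fd0_al): conjugacy classes, the subgroup `[x, G]`, the stabiliser of `x^G`
-/

namespace KDD

open Finset Pointwise

/-- `[x, G]`: the subgroup generated by all `k⁻¹ l` where `k` and `l` are conjugates of `x`. -/
def bracket {G : Type*} [Group G] (x : G) : Subgroup G :=
  Subgroup.closure {g | ∃ k ∈ conjugatesOf x, ∃ l ∈ conjugatesOf x, g = k⁻¹ * l}

/-- The stabiliser of the conjugacy class of `x` under left multiplication: all `h` with
`h K = K` where `K` is the class of `x`. -/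
def stab {G : Type*} [Group G] (x : G) : Subgroup G := MulAction.stabilizer G (conjugatesOf x)

theorem mem_conj_iff {G : Type*} [Group G] {x y : G} :
    y ∈ conjugatesOf x ↔ ∃ g : G, g * x * g⁻¹ = y := isConj_iff

theorem conj_mem {G : Type*} [Group G] {x y : G} (g : G) (hy : y ∈ conjugatesOf x) :
    g * y * g⁻¹ ∈ conjugatesOf x := by
  rw [mem_conj_iff] at hy ⊢
  obtain ⟨h, rfl⟩ := hy
  exact ⟨g * h, by group⟩

theorem bracket_normal {G : Type*} [Group G] (x : G) : (bracket x).Normal := by
  constructor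
  intro n hn g
  unfold bracket at hn ⊢
  induction hn using Subgroup.closure_induction with
  | mem y hy =>
    apply Subgroup.subset_closure
    obtain ⟨k, hk, l, hl, rfl⟩ := hy
    exact ⟨g * k * g⁻¹, conj_mem g hk, g * l * g⁻¹, conj_mem g hl, by group⟩
  | one =>
    have : g * 1 * g⁻¹ = 1 := by group
    rw [this]; exact Subgroup.one_mem _
  | mul a b _ _ ha hb =>
    have : g * (a * b) * g⁻¹ = (g * a * g⁻¹) * (g * b * g⁻¹) := by group
    rw [this]; exact Subgroup.mul_mem _ ha hb
  | inv a _ ha =>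
    have : g * a⁻¹ * g⁻¹ = (g * a * g⁻¹)⁻¹ := by group
    rw [this]; exact Subgroup.inv_mem _ ha

theorem mem_stab {G : Type*} [Group G] [Finite G] {x h : G} :
    h ∈ stab x ↔ ∀ k ∈ conjugatesOf x, h * k ∈ conjugatesOf x := by
  unfold stab
  rw [MulAction.mem_stabilizer_iff]
  constructor
  · intro h1 k hk
    rw [← h1]
    exact Set.smul_mem_smul_set hk
  · intro h1
    apply Set.eq_of_subset_of_ncard_le
    · rintro y ⟨k, hk, rfl⟩
      exact h1 k hk
    · rw [Set.ncard_smul_set]
    · exact Set.toFinite _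

theorem stab_normal {G : Type*} [Group G] [Finite G] (x : G) : (stab x).Normal := by
  constructor
  intro h hh g
  rw [mem_stab] at hh ⊢
  intro k hk
  have h1 := conj_mem g⁻¹ hk
  have h2 := conj_mem g (hh _ h1)
  have h3 : g * (h * (g⁻¹ * k * g⁻¹⁻¹)) * g⁻¹ = g * h * g⁻¹ * k := by group
  rwa [h3] at h2

theorem self_mem {G : Type*} [Group G] (x : G) : x ∈ conjugatesOf x :=
  mem_conj_iff.2 ⟨1, by group⟩

theorem stab_le {G : Type*} [Group G] [Finite G] (x : G) : stab x ≤ bracket x := by
  intro h hh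
  rw [mem_stab] at hh
  have h1 := hh x (self_mem x)
  have h2 : x⁻¹ * (h * x) ∈ bracket x :=
    Subgroup.subset_closure ⟨x, self_mem x, h * x, h1, rfl⟩
  have h3 := (bracket_normal x).conj_mem _ h2 x
  have h4 : x * (x⁻¹ * (h * x)) * x⁻¹ = h := by group
  rwa [h4] at h3

open Classical in
/-- The class of `x` as a finset. -/
noncomputable def cl {G : Type*} [Group G] [Fintype G] (x : G) : Finset G :=
  Finset.univ.filter (fun g => g ∈ conjugatesOf x)

section

variable {G : Type*} [Group G] [Fintype G] [DecidableEq G]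

omit [DecidableEq G] in
theorem mem_cl {x g : G} : g ∈ cl x ↔ g ∈ conjugatesOf x := by
  simp [cl]

omit [DecidableEq G] in
theorem coe_cl (x : G) : (cl x : Set G) = conjugatesOf x := by
  ext g; rw [Finset.mem_coe, mem_cl]

omit [DecidableEq G] in
theorem inv_cl (x : G) : Inv (cl x) := by
  intro g k hk
  rw [mem_cl] at hk ⊢
  exact conj_mem g hk

omit [DecidableEq G] in
theorem cls_cl (x : G) : Cls (cl x) := by
  intro k hk l hl
  rw [mem_cl, mem_conj_iff] at hk hl
  obtain ⟨g, rfl⟩ := hk
  obtain ⟨h, rfl⟩ := hl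
  exact ⟨h * g⁻¹, by group⟩

omit [DecidableEq G] in
theorem setup_cl (x : G) : Setup (cl x) (bracket x) where
  inv := inv_cl x
  ne := ⟨x, mem_cl.2 (self_mem x)⟩
  normal := bracket_normal x
  sub := by
    intro k hk l hl
    exact Subgroup.subset_closure ⟨k, mem_cl.1 hk, l, mem_cl.1 hl, rfl⟩

theorem pw_cl {x d : G} {n : ℕ} (h : conjugatesOf x ^ n = conjugatesOf d ∪ (conjugatesOf d)⁻¹) :
    cl x ^ n = cl d ∪ (cl d)⁻¹ := by
  apply Finset.coe_injective
  rw [Finset.coe_pow, Finset.coe_union, Finset.coe_inv, coe_cl, coe_cl, h]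

open Classical in
/-- A set which is a union of cosets of the normal subgroup `H`. -/
theorem periodic_card {H : Subgroup G} [H.Normal] {A : Finset G} (hA : ∀ a ∈ A, ∀ h ∈ H, a * h ∈ A) :
    A.card = (A.image (QuotientGroup.mk' H)).card * (fs H).card := by
  apply card_fiber_const
  intro a ha
  have : A.filter (fun b => QuotientGroup.mk' H b = QuotientGroup.mk' H a) = {a} * fs H := by
    ext b
    rw [Finset.mem_filter, mem_left, mem_fs, QuotientGroup.mk'_apply, QuotientGroup.mk'_apply,
      eq_comm, QuotientGroup.eq]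
    constructor
    · exact fun h => h.2
    · intro h
      refine ⟨?_, h⟩
      have := hA a ha _ h
      rwa [mul_inv_cancel_left] at this
  rw [this, Finset.card_singleton_mul]

end

end KDD
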