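import Pool.Agent.KDD.Main

/-!
# `K ^ n = D ∪ D⁻¹` (MP_846fd0_al): `|N| = 2|K| + 1` forces `N` elementary abelian
-/

namespace KDD

open Finset Pointwise

/-- A normal subgroup whose nontrivial elements are pairwise conjugate up to inversion is
elementary abelian. -/
theorem elementary {G : Type*} [Group G] [Finite G] {N : Subgroup G} (hN : N.Normal)
    (hne : ∃ u ∈ N, u ≠ 1)
    (hconj : ∀ u ∈ N, ∀ v ∈ N, u ≠ 1 → v ≠ 1 → ∃ g : G, v = g * u * g⁻¹ ∨ v = g * u⁻¹ * g⁻¹) :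
    ∃ p : ℕ, p.Prime ∧ (∀ u ∈ N, u ^ p = 1) ∧ (∀ u ∈ N, ∀ v ∈ N, u * v = v * u) := by
  obtain ⟨u1, hu1, hu1'⟩ := hne
  have hnt : Nontrivial N := ⟨⟨⟨u1, hu1⟩, 1, fun h => hu1' (congrArg Subtype.val h)⟩⟩
  have hcard : Nat.card N ≠ 1 := by
    have := Finite.one_lt_card (α := N)
    omega
  set p := (Nat.card N).minFac with hp
  have hpp : p.Prime := Nat.minFac_prime hcard
  have : Fact p.Prime := ⟨hpp⟩
  obtain ⟨a, ha⟩ := exists_prime_orderOf_dvd_card' (G := N) p (Nat.minFac_dvd _)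
  have hap : (a : G) ^ p = 1 := by
    have h1 : a ^ p = 1 := by rw [← ha]; exact pow_orderOf_eq_one a
    have h2 := congrArg Subtype.val h1
    simpa using h2
  have ha1 : (a : G) ≠ 1 := by
    intro h
    have h1 : a = 1 := Subtype.ext h
    rw [h1, orderOf_one] at ha
    exact hpp.one_lt.ne ha
  have hpow : ∀ u ∈ N, u ^ p = 1 := by
    intro u hu
    by_cases h : u = 1
    · rw [h, one_pow]
    · obtain ⟨g, hg | hg⟩ := hconj a a.2 u hu ha1 h
      · rw [hg, conj_pow, hap]; group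
      · rw [hg, conj_pow, inv_pow, hap]; group
  refine ⟨p, hpp, hpow, ?_⟩
  have hpg : IsPGroup p N := by
    intro g
    refine ⟨1, ?_⟩
    rw [pow_one]
    apply Subtype.ext
    have := hpow g g.2
    simpa using this
  have hcen : Nontrivial (Subgroup.center N) := hpg.center_nontrivial
  obtain ⟨c, hc⟩ := exists_ne (1 : Subgroup.center N)
  have hcc : ∀ y : N, y * (c : N) = (c : N) * y := fun y => (Subgroup.mem_center_iff.1 c.2) y
  set c' : G := ((c : N) : G) with hc'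
  have hc'N : c' ∈ N := (c : N).2
  have hc'1 : c' ≠ 1 := by
    intro h
    exact hc (Subtype.ext (Subtype.ext h))
  have hcomm : ∀ y ∈ N, y * c' = c' * y := by
    intro y hy
    have := congrArg Subtype.val (hcc ⟨y, hy⟩)
    simpa using this
  intro u hu v hv
  by_cases h : u = 1
  · rw [h, one_mul, mul_one]
  · obtain ⟨g, hg⟩ := hconj c' hc'N u hu hc'1 h
    have h1 : g⁻¹ * v * g ∈ N := by
      have := hN.conj_mem v hv g⁻¹
      simpa using this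
    have h2 := hcomm _ h1
    have h3 : (g⁻¹ * v * g) * c'⁻¹ = c'⁻¹ * (g⁻¹ * v * g) := by
      have : c'⁻¹ * ((g⁻¹ * v * g) * c') * c'⁻¹ = c'⁻¹ * (c' * (g⁻¹ * v * g)) * c'⁻¹ := by
        rw [h2]
      have h4 : c'⁻¹ * ((g⁻¹ * v * g) * c') * c'⁻¹ = c'⁻¹ * (g⁻¹ * v * g) := by group
      have h5 : c'⁻¹ * (c' * (g⁻¹ * v * g)) * c'⁻¹ = (g⁻¹ * v * g) * c'⁻¹ := by group
      rw [h4, h5] at this
      exact this.symm
    rcases hg with hg | hg
    · have h4 : u * v = g * (c' * (g⁻¹ * v * g)) * g⁻¹ := by rw [hg]; group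
      have h5 : v * u = g * ((g⁻¹ * v * g) * c') * g⁻¹ := by rw [hg]; group
      rw [h4, h5, h2]
    · have h4 : u * v = g * (c'⁻¹ * (g⁻¹ * v * g)) * g⁻¹ := by rw [hg]; group
      have h5 : v * u = g * ((g⁻¹ * v * g) * c'⁻¹) * g⁻¹ := by rw [hg]; group
      rw [h4, h5, h3]

variable {G : Type*} [Group G] [Fintype G] [DecidableEq G]

theorem Hyp2.elem {K D : Finset G} {N : Subgroup G} (H : Hyp2 K D N)
    (hcard : (fs N).card = 2 * K.card + 1) :
    ∃ w : G, (∀ g, g * w * g⁻¹ = w) ∧ w⁻¹ = w ∧ w ∉ K * K ∧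
      (∀ u ∈ N, u ≠ 1 → w * u ∈ K * K) ∧
      (∀ u ∈ K * K, w * u ∈ N) ∧
    ∃ p : ℕ, p.Prime ∧ (∀ u ∈ N, u ^ p = 1) ∧ (∀ u ∈ N, ∀ v ∈ N, u * v = v * u) := by
  have S := H.setup
  obtain ⟨x, hx⟩ := S.ne
  set C : Finset G := {x ^ 2} * fs N with hC
  have hCmem : ∀ c, c ∈ C ↔ (x ^ 2)⁻¹ * c ∈ N := by
    intro c; rw [hC, mem_left, mem_fs]
  have hKKC : ∀ u ∈ K * K, u ∈ C := by
    intro u hu
    rw [hCmem]
    apply pow_mem_coset S hx 2
    rw [pow_two]; exact hu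
  have hCcard : C.card = 2 * K.card + 1 := by rw [hC, Finset.card_singleton_mul, hcard]
  have h1 : (C \ (K * K)).card = 1 := by
    have := Finset.card_sdiff_add_card_eq_card (s := K * K) (t := C) hKKC
    rw [H.kk] at this
    omega
  obtain ⟨w, hw⟩ := Finset.card_eq_one.1 h1
  have hwm : w ∈ C \ (K * K) := by rw [hw]; exact Finset.mem_singleton_self w
  obtain ⟨hwC, hwK⟩ := Finset.mem_sdiff.1 hwm
  have huniq : ∀ v ∈ C, v ∉ K * K → v = w := by
    intro v hv hv2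
    have : v ∈ C \ (K * K) := Finset.mem_sdiff.2 ⟨hv, hv2⟩
    rw [hw] at this
    exact Finset.mem_singleton.1 this
  have hx2 : x ^ 2 ∈ K * K := by rw [pow_two]; exact Finset.mul_mem_mul hx hx
  have hKKinv : Inv (K * K) := inv_mul_set S.inv S.inv
  have hCN : ∀ c ∈ C, ∀ u ∈ N, c * u ∈ C := by
    intro c hc u hu
    rw [hCmem] at hc ⊢
    rw [← mul_assoc]; exact N.mul_mem hc hu
  have hCC : ∀ c ∈ C, ∀ c' ∈ C, c⁻¹ * c' ∈ N := by
    intro c hc c' hc'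
    rw [hCmem] at hc hc'
    have : c⁻¹ * c' = ((x ^ 2)⁻¹ * c)⁻¹ * ((x ^ 2)⁻¹ * c') := by group
    rw [this]; exact N.mul_mem (N.inv_mem hc) hc'
  have hCconj : ∀ g : G, ∀ c ∈ C, g * c * g⁻¹ ∈ C := by
    intro g c hc
    have h2 : g * (x ^ 2) * g⁻¹ ∈ C := hKKC _ (hKKinv g _ hx2)
    have h3 : g * ((x ^ 2)⁻¹ * c) * g⁻¹ ∈ N := S.normal.conj_mem _ ((hCmem c).1 hc) g
    have h4 := hCN _ h2 _ h3
    have h5 : g * (x ^ 2) * g⁻¹ * (g * ((x ^ 2)⁻¹ * c) * g⁻¹) = g * c * g⁻¹ := by group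
    rwa [h5] at h4
  have hcentral : ∀ g, g * w * g⁻¹ = w := by
    intro g
    apply huniq _ (hCconj g w hwC)
    intro h
    apply hwK
    have h2 := hKKinv g⁻¹ _ h
    have h3 : g⁻¹ * (g * w * g⁻¹) * g⁻¹⁻¹ = w := by group
    rwa [h3] at h2
  have hCinv : ∀ c ∈ C, c⁻¹ ∈ C := by
    intro c hc
    -- `c⁻¹ = (x²)⁻¹ (x² c⁻¹)`
    have h2 : (x ^ 2)⁻¹ ∈ C := hKKC _ (H.inv_mem hx2)
    have h3 : x ^ 2 ∈ C := hKKC _ hx2
    have h4 : c⁻¹ * (x ^ 2) ∈ N := hCC c hc _ h3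
    have h5 : (x ^ 2) * (c⁻¹ * (x ^ 2)) * (x ^ 2)⁻¹ ∈ N := S.normal.conj_mem _ h4 _
    have h6 := hCN _ h2 _ h5
    have h7 : (x ^ 2)⁻¹ * ((x ^ 2) * (c⁻¹ * (x ^ 2)) * (x ^ 2)⁻¹) = c⁻¹ := by group
    rwa [h7] at h6
  have hwinv : w⁻¹ = w := by
    apply huniq _ (hCinv w hwC)
    intro h
    apply hwK
    have := H.inv_mem h
    rwa [inv_inv] at this
  have hNK : ∀ u ∈ N, u ≠ 1 → w * u ∈ K * K := by
    intro u hu hu1
    by_contra h
    have h2 := huniq _ (hCN w hwC u hu) h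
    apply hu1
    simpa using h2
  have hKN : ∀ u ∈ K * K, w * u ∈ N := by
    intro u hu
    have h2 := hCC w hwC u (hKKC u hu)
    rwa [hwinv] at h2
  refine ⟨w, hcentral, hwinv, hwK, hNK, hKN, ?_⟩
  have hww : w * w = 1 := by
    have : w * w⁻¹ = 1 := mul_inv_cancel w
    rwa [hwinv] at this
  apply elementary S.normal
  · -- `N` is nontrivial
    have h2 : 1 < (fs N).card := by
      have := H.three_le
      omega
    obtain ⟨u, hu, v, hv, huv⟩ := Finset.one_lt_card.1 h2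
    refine ⟨u⁻¹ * v, N.mul_mem (N.inv_mem (mem_fs.1 hu)) (mem_fs.1 hv), ?_⟩
    intro h; exact huv (inv_mul_eq_one.1 h)
  · intro u hu v hv hu1 hv1
    have h2 := hNK u hu hu1
    have h3 := hNK v hv hv1
    have hcw : ∀ g : G, g * w = w * g := by
      intro g
      have h4 : g * w = (g * w * g⁻¹) * g := by group
      rw [h4, hcentral]
    have hA : ∀ g : G, g * (w * u) * g⁻¹ = w * v → v = g * u * g⁻¹ := by
      intro g h
      have h4 : g * (w * u) * g⁻¹ = w * (g * u * g⁻¹) := by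
        calc g * (w * u) * g⁻¹ = (g * w) * u * g⁻¹ := by group
          _ = (w * g) * u * g⁻¹ := by rw [hcw]
          _ = w * (g * u * g⁻¹) := by group
      rw [h4] at h
      exact (mul_left_cancel h).symm
    have hB : ∀ g : G, g * (w * u) * g⁻¹ = (w * v)⁻¹ → v = g * u⁻¹ * g⁻¹ := by
      intro g h
      have h4 : g * (w * u) * g⁻¹ = w * (g * u * g⁻¹) := by
        calc g * (w * u) * g⁻¹ = (g * w) * u * g⁻¹ := by group
          _ = (w * g) * u * g⁻¹ := by rw [hcw]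
          _ = w * (g * u * g⁻¹) := by group
      have h5 : (w * v)⁻¹ = w * v⁻¹ := by
        rw [mul_inv_rev, hwinv, hcw]
      rw [h4, h5] at h
      have h6 := mul_left_cancel h
      rw [← inv_inv v, ← h6]; group
    rw [H.sq, Finset.mem_union, Finset.mem_inv'] at h2 h3
    rcases h2 with h2 | h2 <;> rcases h3 with h3 | h3
    · obtain ⟨g, hg⟩ := H.dcls _ h2 _ h3
      exact ⟨g, Or.inl (hA g hg)⟩
    · obtain ⟨g, hg⟩ := H.dcls _ h2 _ h3
      exact ⟨g, Or.inr (hB g hg)⟩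
    · obtain ⟨g, hg⟩ := H.dcls _ h2 _ h3
      refine ⟨g, Or.inr (hB g ?_)⟩
      have h4 : g * (w * u) * g⁻¹ = (g * (w * u)⁻¹ * g⁻¹)⁻¹ := by group
      rw [h4, hg]
    · obtain ⟨g, hg⟩ := H.dcls _ h2 _ h3
      refine ⟨g, Or.inl (hA g ?_)⟩
      have h4 : g * (w * u) * g⁻¹ = (g * (w * u)⁻¹ * g⁻¹)⁻¹ := by group
      rw [h4, hg, inv_inv]

end KDD
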