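import Pool.Agent.KDD.Quot

/-!
# `K ^ n = D ∪ D⁻¹` (MP_846fd0_al): solvability, the coset case
-/

namespace KDD

open Finset Pointwise

/-- Extensions by commutative quotients. -/
theorem solv {G : Type*} [Group G] {A B : Subgroup G} (hBA : B ≤ A)
    (hc : ∀ u ∈ A, ∀ v ∈ A, u * v * u⁻¹ * v⁻¹ ∈ B) (hB : Group.IsSolvable B) :
    Group.IsSolvable A := by
  have hn : (B.subgroupOf A).Normal := by
    constructor
    intro b hb a
    rw [Subgroup.mem_subgroupOf] at hb ⊢
    have h1 := hc a a.2 b (hBA hb)
    have h2 := B.mul_mem h1 hb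
    have h3 : (a : G) * b * (a : G)⁻¹ * (b : G)⁻¹ * b = ((a * b * a⁻¹ : A) : G) := by
      simp
    rwa [h3] at h2
  rw [Group.isSolvable_iff_subgroup_quotient (B.subgroupOf A)]
  constructor
  · have f : Function.Injective (Subgroup.subgroupOfEquivOfLe hBA).toMonoidHom :=
      (Subgroup.subgroupOfEquivOfLe hBA).injective
    exact Group.isSolvable_of_isSolvable_injective f
  · apply Group.isSolvable_of_comm
    intro a b
    obtain ⟨u, rfl⟩ := QuotientGroup.mk_surjective a
    obtain ⟨v, rfl⟩ := QuotientGroup.mk_surjective b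
    rw [← QuotientGroup.mk_mul, ← QuotientGroup.mk_mul, QuotientGroup.eq]
    rw [Subgroup.mem_subgroupOf]
    have h1 := hc (v : G)⁻¹ (A.inv_mem v.2) (u : G)⁻¹ (A.inv_mem u.2)
    have h2 : (v : G)⁻¹ * (u : G)⁻¹ * ((v : G)⁻¹)⁻¹ * ((u : G)⁻¹)⁻¹ =
        (((u * v)⁻¹ * (v * u) : A) : G) := by
      simp [mul_assoc]
    rwa [h2] at h1

section

variable {G : Type*} [Group G]

theorem bracket_le_closure (x : G) : bracket x ≤ Subgroup.closure (conjugatesOf x) := by
  unfold bracket
  rw [Subgroup.closure_le]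
  rintro g ⟨k, hk, l, hl, rfl⟩
  exact Subgroup.mul_mem _ (Subgroup.inv_mem _ (Subgroup.subset_closure hk))
    (Subgroup.subset_closure hl)

theorem closure_comm (x : G) : ∀ u ∈ Subgroup.closure (conjugatesOf x),
    ∀ v ∈ Subgroup.closure (conjugatesOf x), u * v * u⁻¹ * v⁻¹ ∈ bracket x := by
  have hn := bracket_normal x
  have h1 : Subgroup.closure (conjugatesOf x) ≤
      (Subgroup.zpowers (QuotientGroup.mk' (bracket x) x)).comap (QuotientGroup.mk' (bracket x)) := by
    rw [Subgroup.closure_le]
    intro k hk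
    rw [SetLike.mem_coe, Subgroup.mem_comap]
    have h2 : QuotientGroup.mk' (bracket x) x = QuotientGroup.mk' (bracket x) k := by
      rw [QuotientGroup.mk'_apply, QuotientGroup.mk'_apply, QuotientGroup.eq]
      exact Subgroup.subset_closure ⟨x, self_mem x, k, hk, rfl⟩
    rw [← h2]
    exact Subgroup.mem_zpowers _
  intro u hu v hv
  have hu2 := h1 hu
  have hv2 := h1 hv
  rw [Subgroup.mem_comap, Subgroup.mem_zpowers_iff] at hu2 hv2
  obtain ⟨i, hi⟩ := hu2
  obtain ⟨j, hj⟩ := hv2
  rw [← QuotientGroup.eq_one_iff, ← QuotientGroup.mk'_apply]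
  simp only [map_mul, map_inv]
  rw [← hi, ← hj]
  group

theorem closure_normal (x : G) : (Subgroup.closure (conjugatesOf x)).Normal := by
  constructor
  intro n hn g
  have h1 : g * n * g⁻¹ ∈ Subgroup.closure (conjugatesOf x) := by
    induction hn using Subgroup.closure_induction with
    | mem y hy => exact Subgroup.subset_closure (conj_mem g hy)
    | one =>
      have : g * 1 * g⁻¹ = 1 := by group
      rw [this]; exact Subgroup.one_mem _
    | mul a b _ _ ha hb =>
      have : g * (a * b) * g⁻¹ = (g * a * g⁻¹) * (g * b * g⁻¹) := by group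
      rw [this]; exact Subgroup.mul_mem _ ha hb
    | inv a _ ha =>
      have : g * a⁻¹ * g⁻¹ = (g * a * g⁻¹)⁻¹ := by group
      rw [this]; exact Subgroup.inv_mem _ ha
  exact h1

/-- The coset case: all elements of `x ^ n N` have the same order, a power of two. -/
theorem coset_order [Finite G] {x d : G} {n : ℕ}
    (h : conjugatesOf x ^ n = conjugatesOf d ∪ (conjugatesOf d)⁻¹)
    (hc : conjugatesOf x ^ n = x ^ n • (bracket x : Set G)) :
    (x ^ n) ^ 2 ∈ bracket x ∧ ∃ a : ℕ, (∀ u ∈ bracket x, orderOf (x ^ n * u) = 2 ^ a) ∧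
      (∀ u ∈ bracket x, u * x ^ n = x ^ n * u → u ^ 2 ^ a = 1) ∧
      (a ≤ 1 → ∀ u ∈ bracket x, ∀ v ∈ bracket x, u * v = v * u) := by
  set z := x ^ n with hz
  set N := bracket x with hN
  have hNn : N.Normal := bracket_normal x
  have hmem : ∀ u ∈ N, z * u ∈ conjugatesOf d ∪ (conjugatesOf d)⁻¹ := by
    intro u hu
    rw [← h, hc]
    exact Set.smul_mem_smul_set hu
  have hord : ∀ u ∈ N, orderOf (z * u) = orderOf d := by
    intro u hu
    have hconj : ∀ g y : G, orderOf (g * y * g⁻¹) = orderOf y := by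
      intro g y
      rw [orderOf_eq_orderOf_iff]
      intro m
      rw [conj_pow]
      constructor
      · intro h2
        have : y ^ m = g⁻¹ * (g * y ^ m * g⁻¹) * g := by group
        rw [this, h2]; group
      · intro h2; rw [h2]; group
    rcases hmem u hu with h1 | h1
    · obtain ⟨g, hg⟩ := mem_conj_iff.1 h1
      rw [← hg, hconj]
    · rw [Set.mem_inv] at h1
      obtain ⟨g, hg⟩ := mem_conj_iff.1 h1
      rw [← orderOf_inv, ← hg, hconj]
  have hz1 : orderOf z = orderOf d := by
    have := hord 1 N.one_mem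
    rwa [mul_one] at this
  have hz2 : z ^ 2 ∈ N := by
    have h1 : z ∈ conjugatesOf d ∪ (conjugatesOf d)⁻¹ := by
      have := hmem 1 N.one_mem
      rwa [mul_one] at this
    have h2 : z⁻¹ ∈ conjugatesOf x ^ n := by
      rw [h]
      rcases h1 with h1 | h1
      · right; rw [Set.mem_inv, inv_inv]; exact h1
      · left; exact h1
    rw [hc] at h2
    obtain ⟨u, hu, hu2⟩ := h2
    have h3 : z ^ 2 = u⁻¹ := by
      have h4 : z * u = z⁻¹ := hu2
      have h5 : u = z⁻¹ * (z * u) := by group
      rw [h5, h4]; group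
    rw [h3]; exact N.inv_mem hu
  refine ⟨hz2, ?_⟩
  obtain ⟨a, r, hr, har⟩ := Nat.exists_eq_two_pow_mul_odd (orderOf_pos z).ne'
  have hzr : z ^ r = z * (z ^ 2) ^ ((r - 1) / 2) := by
    obtain ⟨k, rfl⟩ := hr
    have h5 : (z ^ 2) ^ k = z ^ (2 * k) := (pow_mul z 2 k).symm
    have h6 : z * z ^ (2 * k) = z ^ (2 * k + 1) := (pow_succ' z (2 * k)).symm
    rw [show (2 * k + 1 - 1) / 2 = k by omega, h5, h6]
  have hzrN : (z ^ 2) ^ ((r - 1) / 2) ∈ N := N.pow_mem hz2 _
  have ho1 : orderOf (z ^ r) = orderOf z := by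
    rw [hzr, hord _ hzrN, hz1]
  have hr0 : r ≠ 0 := by rintro rfl; exact (Nat.not_odd_zero hr)
  have ho2 : orderOf (z ^ r) = 2 ^ a := by
    rw [orderOf_pow_of_dvd hr0 (by rw [har]; exact Dvd.intro_left _ rfl), har]
    exact Nat.mul_div_cancel _ (Nat.pos_of_ne_zero hr0)
  have hoz : orderOf z = 2 ^ a := by rw [← ho1, ho2]
  have hall : ∀ u ∈ N, orderOf (z * u) = 2 ^ a := by
    intro u hu
    rw [hord u hu, ← hz1, hoz]
  refine ⟨a, hall, ?_, ?_⟩
  · intro u hu hcomm
    have hC : Commute z u := hcomm.symm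
    have h1 : (z * u) ^ 2 ^ a = 1 := by rw [← hall u hu]; exact pow_orderOf_eq_one _
    rw [hC.mul_pow, ← hoz, pow_orderOf_eq_one, one_mul, hoz] at h1
    exact h1
  · intro ha u hu v hv
    have hsq : ∀ u ∈ N, (z * u) * (z * u) = 1 := by
      intro u hu
      have h1 : (z * u) ^ 2 = 1 := by
        rw [← orderOf_dvd_iff_pow_eq_one, hall u hu]
        interval_cases a
        · norm_num
        · norm_num
      rwa [pow_two] at h1
    have hz0 : z * z = 1 := by
      have := hsq 1 N.one_mem
      rwa [mul_one] at this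
    have hinv : ∀ u ∈ N, z * u * z = u⁻¹ := by
      intro u hu
      have h1 := hsq u hu
      have h2 : z * u * z * u = 1 := by rw [← h1]; group
      exact eq_inv_of_mul_eq_one_left h2
    have h1 := hinv (u * v) (N.mul_mem hu hv)
    have h2 : z * (u * v) * z = (z * u * z) * (z * v * z) := by
      have : (z * u * z) * (z * v * z) = z * u * (z * z) * v * z := by group
      rw [this, hz0]; group
    rw [h2, hinv u hu, hinv v hv, mul_inv_rev] at h1
    have h3 : (v * u)⁻¹ = (u * v)⁻¹ := by rw [mul_inv_rev, mul_inv_rev, h1]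
    exact (inv_injective h3).symm

end

section

variable {G : Type*} [Group G] [Fintype G] [DecidableEq G]

theorem card_d_dvd {x d : G} {n : ℕ}
    (h : conjugatesOf x ^ n = conjugatesOf d ∪ (conjugatesOf d)⁻¹) :
    (cl d).card ∣ (cl x).card := by
  have hp := pw_cl h
  have hx : x ∈ cl x := mem_cl.2 (self_mem x)
  have hxn : x ^ n ∈ cl d ∪ (cl d)⁻¹ := by rw [← hp]; exact Finset.pow_mem_pow hx
  have hφ : ∀ g y : G, (fun u : G => u ^ n) (g * y * g⁻¹) = g * (fun u : G => u ^ n) y * g⁻¹ := by
    intro g y; simp only [conj_pow]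
  have h0 : ((cl x).image (fun u : G => u ^ n)).card ∣ (cl x).card := by
    apply card_image_dvd (inv_cl x) (cls_cl x)
    intro g y z hyz
    have h1 := hφ g y
    have h2 := hφ g z
    simp only at h1 h2 hyz
    rw [h1, h2, hyz]
  rcases Finset.mem_union.1 hxn with h1 | h1
  · rwa [image_eq_class (inv_cl x) (cls_cl x) (inv_cl d) (cls_cl d) (fun u : G => u ^ n) hφ hx h1]
      at h0
  · rwa [image_eq_class (inv_cl x) (cls_cl x) (inv_inv_set (inv_cl d)) (cls_inv_set (cls_cl d))
      (fun u : G => u ^ n) hφ hx h1, Finset.card_inv] at h0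

theorem d_inv_or (d : G) : (cl d)⁻¹ = cl d ∨ Disjoint (cl d) (cl d)⁻¹ := by
  by_cases hdis : Disjoint (cl d) (cl d)⁻¹
  · exact Or.inr hdis
  · left
    rw [Finset.not_disjoint_iff] at hdis
    obtain ⟨e, hd1, hd2⟩ := hdis
    apply Finset.Subset.antisymm
    · intro f hf
      obtain ⟨g, rfl⟩ := cls_inv_set (cls_cl d) e hd2 f hf
      exact inv_cl d g e hd1
    · intro f hf
      obtain ⟨g, rfl⟩ := cls_cl d e hd1 f hf
      exact inv_inv_set (inv_cl d) g e hd2

omit [DecidableEq G] in
theorem card_cl (x : G) : (cl x).card = Nat.card (conjugatesOf x) := by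
  rw [← coe_cl, Nat.card_eq_card_toFinset, Finset.toFinset_coe]

omit [DecidableEq G] in
theorem card_fs (N : Subgroup G) : (fs N).card = Nat.card N := by
  classical
  rw [Nat.card_eq_fintype_card, Fintype.card_subtype]
  unfold fs
  rfl

/-- The coset case: sizes. -/
theorem coset_size {x d : G} {n : ℕ}
    (h : conjugatesOf x ^ n = conjugatesOf d ∪ (conjugatesOf d)⁻¹)
    (hge : (fs (bracket x)).card ≤ (cl x ^ n).card) :
    conjugatesOf x ^ n = x ^ n • (bracket x : Set G) ∧
    (conjugatesOf x = x • (bracket x : Set G) ∨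
      ((conjugatesOf d)⁻¹ ≠ conjugatesOf d ∧ (fs (bracket x)).card = 2 * (cl x).card ∧
        (cl d).card = (cl x).card)) := by
  have hx : x ∈ cl x := mem_cl.2 (self_mem x)
  have hsub : cl x ^ n ⊆ {x ^ n} * fs (bracket x) := by
    intro u hu
    rw [mem_left, mem_fs]
    exact pow_mem_coset (setup_cl x) hx n u hu
  have hsub1 : cl x ⊆ {x} * fs (bracket x) := by
    intro u hu
    rw [mem_left, mem_fs]
    exact (setup_cl x).sub x hx u hu
  have heq : cl x ^ n = {x ^ n} * fs (bracket x) := by
    apply Finset.eq_of_subset_of_card_le hsub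
    rw [Finset.card_singleton_mul]; exact hge
  have hcoe : ∀ y : G, (({y} * fs (bracket x) : Finset G) : Set G) = y • (bracket x : Set G) := by
    intro y
    ext u
    rw [Finset.mem_coe, mem_left, mem_fs, Set.mem_smul_set_iff_inv_smul_mem]
    rfl
  constructor
  · rw [← coe_cl, ← Finset.coe_pow, heq, hcoe]
  · have hle1 := Finset.card_le_card hsub1
    rw [Finset.card_singleton_mul] at hle1
    have hfull : (fs (bracket x)).card ≤ (cl x).card →
        conjugatesOf x = x • (bracket x : Set G) := by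
      intro h1
      have : cl x = {x} * fs (bracket x) := by
        apply Finset.eq_of_subset_of_card_le hsub1
        rw [Finset.card_singleton_mul]; exact h1
      rw [← coe_cl, this, hcoe]
    obtain ⟨c, hc⟩ := card_d_dvd h
    have hxpos : 0 < (cl x).card := Finset.card_pos.2 ⟨x, hx⟩
    have hc0 : c ≠ 0 := by rintro rfl; omega
    rw [pw_cl h] at hge
    rcases d_inv_or d with h1 | h1
    · left
      apply hfull
      rw [h1, Finset.union_idempotent] at hge
      refine hge.trans ?_
      rw [hc]; exact Nat.le_mul_of_pos_right _ (Nat.pos_of_ne_zero hc0)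
    · rw [Finset.card_union_of_disjoint h1, Finset.card_inv] at hge
      by_cases hc1 : c = 1
      · right
        rw [hc1, mul_one] at hc
        refine ⟨?_, ?_, hc.symm⟩
        · intro h2
          have h3 : (cl d)⁻¹ = cl d := by
            apply Finset.coe_injective
            rw [Finset.coe_inv, coe_cl, h2]
          rw [h3, disjoint_self, Finset.bot_eq_empty] at h1
          have := Finset.card_pos.2 ⟨d, mem_cl.2 (self_mem d)⟩
          rw [h1, Finset.card_empty] at this
          omega
        · have h2 : (cl x ^ n).card ≤ 2 * (cl x).card := by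
            rw [pw_cl h, Finset.card_union_of_disjoint h1, Finset.card_inv, hc]; omega
          have h3 := Finset.card_le_card hsub
          have h4 : (cl x ^ n).card = (fs (bracket x)).card := by
            rw [heq, Finset.card_singleton_mul]
          have h5 : (cl x ^ n).card = 2 * (cl x).card := by
            rw [pw_cl h, Finset.card_union_of_disjoint h1, Finset.card_inv, hc]; omega
          omega
      · left
        apply hfull
        have h2 : 2 ≤ c := by omega
        have h3 : (cl d).card * 2 ≤ (cl d).card * c := Nat.mul_le_mul_left _ h2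
        omega

end

end KDD
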