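import Pool.Agent.KDD.Red

/-!
# `K ^ n = D ∪ D⁻¹` (MP_846fd0_al): the functions `|gK \ K|` and `|gK ∩ K|`, counting lemmas
-/

namespace KDD

open Finset Pointwise

variable {G : Type*} [Group G] [Fintype G] [DecidableEq G]

/-- `|{y ∈ K : g y ∉ K}| = |gK \ K|`. -/
def ff (K : Finset G) (g : G) : ℕ := (K.filter (fun y => g * y ∉ K)).card

/-- `|{y ∈ K : g y ∈ K}| = |gK ∩ K|`. -/
def rr (K : Finset G) (g : G) : ℕ := (K.filter (fun y => g * y ∈ K)).card

omit [Fintype G] in
theorem rr_add_ff (K : Finset G) (g : G) : rr K g + ff K g = K.card := by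
  unfold rr ff
  exact Finset.card_filter_add_card_filter_not _

omit [Fintype G] in
theorem ff_eq_sdiff (K : Finset G) (g : G) : ff K g = (({g} * K) \ K).card := by
  unfold ff
  have : ({g} * K) \ K = (K.filter (fun y => g * y ∉ K)).image (fun y => g * y) := by
    ext z
    rw [Finset.mem_sdiff, mem_left, Finset.mem_image]
    constructor
    · rintro ⟨h1, h2⟩
      exact ⟨g⁻¹ * z, Finset.mem_filter.2 ⟨h1, by simpa using h2⟩, by simp⟩
    · rintro ⟨y, hy, rfl⟩
      obtain ⟨h1, h2⟩ := Finset.mem_filter.1 hy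
      exact ⟨by simpa using h1, h2⟩
  rw [this, Finset.card_image_of_injective _ (mul_right_injective g)]

omit [Fintype G] in
theorem rr_eq_inter (K : Finset G) (g : G) : rr K g = (({g} * K) ∩ K).card := by
  unfold rr
  have : ({g} * K) ∩ K = (K.filter (fun y => g * y ∈ K)).image (fun y => g * y) := by
    ext z
    rw [Finset.mem_inter, mem_left, Finset.mem_image]
    constructor
    · rintro ⟨h1, h2⟩
      exact ⟨g⁻¹ * z, Finset.mem_filter.2 ⟨h1, by simpa using h2⟩, by simp⟩
    · rintro ⟨y, hy, rfl⟩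
      obtain ⟨h1, h2⟩ := Finset.mem_filter.1 hy
      exact ⟨by simpa using h1, h2⟩
  rw [this, Finset.card_image_of_injective _ (mul_right_injective g)]

omit [Fintype G] in
theorem pair_mul (K : Finset G) (g : G) : ({1, g} : Finset G) * K = K ∪ {g} * K := by
  have : ({1, g} : Finset G) = {1} ∪ {g} := rfl
  rw [this, Finset.union_mul, Finset.singleton_one, one_mul]

omit [Fintype G] in
theorem pc_pair (K : Finset G) (g : G) : pc K {1, g} = K.card + ff K g := by
  unfold pc
  rw [pair_mul, Finset.union_comm, ff_eq_sdiff, add_comm]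
  exact (Finset.card_sdiff_add_card _ _).symm

omit [Fintype G] in
theorem ff_mul (K : Finset G) (g h : G) : ff K (g * h) ≤ ff K g + ff K h := by
  unfold ff
  have h1 : K.filter (fun y => g * h * y ∉ K) ⊆
      K.filter (fun y => h * y ∉ K) ∪
        (K.filter (fun y => g * y ∉ K)).image (fun y => h⁻¹ * y) := by
    intro y hy
    obtain ⟨hy1, hy2⟩ := Finset.mem_filter.1 hy
    rw [Finset.mem_union]
    by_cases h3 : h * y ∈ K
    · right
      exact Finset.mem_image.2 ⟨h * y, Finset.mem_filter.2 ⟨h3, by rwa [← mul_assoc]⟩, by simp⟩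
    · left; exact Finset.mem_filter.2 ⟨hy1, h3⟩
  have h2 := Finset.card_le_card h1
  have h3 := Finset.card_union_le (K.filter (fun y => h * y ∉ K))
    ((K.filter (fun y => g * y ∉ K)).image (fun y => h⁻¹ * y))
  rw [Finset.card_image_of_injective _ (mul_right_injective h⁻¹)] at h3
  omega

omit [Fintype G] in
theorem rr_inv (K : Finset G) (g : G) : rr K g⁻¹ = rr K g := by
  unfold rr
  apply Finset.card_bij' (fun y _ => g⁻¹ * y) (fun y _ => g * y)
  · intro y hy
    obtain ⟨h1, h2⟩ := Finset.mem_filter.1 hy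
    exact Finset.mem_filter.2 ⟨h2, by simpa using h1⟩
  · intro y hy
    obtain ⟨h1, h2⟩ := Finset.mem_filter.1 hy
    exact Finset.mem_filter.2 ⟨h2, by simpa using h1⟩
  · intro y _; simp
  · intro y _; simp

omit [Fintype G] in
theorem ff_inv (K : Finset G) (g : G) : ff K g⁻¹ = ff K g := by
  have h1 := rr_add_ff K g
  have h2 := rr_add_ff K g⁻¹
  rw [rr_inv] at h2; omega

omit [Fintype G] in
theorem rr_conj {K : Finset G} (hK : Inv K) (g h : G) : rr K (h * g * h⁻¹) = rr K g := by
  unfold rr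
  apply Finset.card_bij' (fun y _ => h⁻¹ * y * h) (fun y _ => h * y * h⁻¹)
  · intro y hy
    obtain ⟨h1, h2⟩ := Finset.mem_filter.1 hy
    have h3 := hK h⁻¹ _ h1
    have h4 := hK h⁻¹ _ h2
    rw [inv_inv] at h3 h4
    refine Finset.mem_filter.2 ⟨h3, ?_⟩
    have h5 : g * (h⁻¹ * y * h) = h⁻¹ * (h * g * h⁻¹ * y) * h := by group
    rw [h5]; exact h4
  · intro y hy
    obtain ⟨h1, h2⟩ := Finset.mem_filter.1 hy
    refine Finset.mem_filter.2 ⟨hK h _ h1, ?_⟩
    have h5 : h * g * h⁻¹ * (h * y * h⁻¹) = h * (g * y) * h⁻¹ := by group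
    rw [h5]; exact hK h _ h2
  · intro y _; group
  · intro y _; group

omit [Fintype G] in
theorem ff_conj {K : Finset G} (hK : Inv K) (g h : G) : ff K (h * g * h⁻¹) = ff K g := by
  have h1 := rr_add_ff K g
  have h2 := rr_add_ff K (h * g * h⁻¹)
  rw [rr_conj hK] at h2; omega

omit [Fintype G] in
/-- Double counting. -/
theorem double (M T D : Finset G) :
    ∑ g ∈ M, (D.filter (fun z => g * z ∉ T)).card =
      ∑ z ∈ D, (M.filter (fun g => g * z ∉ T)).card := by
  have := Finset.sum_card_bipartiteAbove_eq_sum_card_bipartiteBelow (s := M) (t := D)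
    (fun g z => g * z ∉ T)
  simpa [Finset.bipartiteAbove, Finset.bipartiteBelow] using this

omit [Fintype G] in
theorem cnt_le {M T D : Finset G} (hM : Inv M) (hT : Inv T) (hc : Cls D) {z z' : G}
    (hz : z ∈ D) (hz' : z' ∈ D) :
    (M.filter (fun g => g * z ∉ T)).card ≤ (M.filter (fun g => g * z' ∉ T)).card := by
  obtain ⟨h, rfl⟩ := hc z hz z' hz'
  apply Finset.card_le_card_of_injOn (fun g => h * g * h⁻¹)
  · intro g hg
    simp only [Finset.coe_filter, Set.mem_ofPred_eq] at hg ⊢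
    refine ⟨hM h g hg.1, fun h1 => hg.2 ?_⟩
    have h2 := hT h⁻¹ _ h1
    have h3 : h⁻¹ * (h * g * h⁻¹ * (h * z * h⁻¹)) * h⁻¹⁻¹ = g * z := by group
    rwa [h3] at h2
  · intro a _ b _ hab
    simpa using hab

omit [Fintype G] in
/-- The number of `g ∈ M` with `g z ∉ T` does not depend on `z` in the class `D`. -/
theorem cnt_const {M T D : Finset G} (hM : Inv M) (hT : Inv T) (hc : Cls D) {z z' : G}
    (hz : z ∈ D) (hz' : z' ∈ D) :
    (M.filter (fun g => g * z ∉ T)).card = (M.filter (fun g => g * z' ∉ T)).card :=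
  le_antisymm (cnt_le hM hT hc hz hz') (cnt_le hM hT hc hz' hz)

omit [Fintype G] in
/-- Each `y ∈ K` has at most `m - 1` elements `g ≠ 1` with `g y ∈ K`. -/
theorem cnt_in_le {K M : Finset G} (h1 : (1 : G) ∉ M) {y : G} (hy : y ∈ K) :
    (M.filter (fun g => g * y ∈ K)).card ≤ K.card - 1 := by
  rw [← Finset.card_erase_of_mem hy]
  apply Finset.card_le_card_of_injOn (fun g => g * y)
  · intro g hg
    simp only [Finset.coe_filter, Set.mem_ofPred_eq] at hg
    rw [Finset.mem_coe, Finset.mem_erase]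
    refine ⟨?_, hg.2⟩
    intro h
    have : g = 1 := by simpa using h
    rw [this] at hg; exact h1 hg.1
  · intro a _ b _ hab
    simpa using hab

omit [Fintype G] in
theorem sum_rr_le {K M : Finset G} (h1 : (1 : G) ∉ M) :
    ∑ g ∈ M, rr K g ≤ K.card * (K.card - 1) := by
  have h2 := Finset.sum_card_bipartiteAbove_eq_sum_card_bipartiteBelow (s := M) (t := K)
    (fun g z => g * z ∈ K)
  have h3 : ∑ g ∈ M, rr K g = ∑ z ∈ K, (M.filter (fun g => g * z ∈ K)).card := by
    simpa [Finset.bipartiteAbove, Finset.bipartiteBelow, rr] using h2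
  rw [h3]
  have h4 : ∑ z ∈ K, (M.filter (fun g => g * z ∈ K)).card ≤ ∑ _z ∈ K, (K.card - 1) :=
    Finset.sum_le_sum (fun z hz => cnt_in_le h1 hz)
  rwa [Finset.sum_const, smul_eq_mul] at h4

/-- The critical situation. -/
structure Crit (K D : Finset G) (N : Subgroup G) : Prop extends Hyp2 K D N where
  low1 : Low K N 1 (K.card - 1)
  five : 5 ≤ K.card
  big : 2 * K.card + 2 ≤ (fs N).card

theorem Crit.admK {K D : Finset G} {N : Subgroup G} (C : Crit K D N) {y : G} (hy : y ∈ K) :
    Adm K N 2 ({y⁻¹} * K) := by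
  refine ⟨?_, ?_, ?_⟩
  · intro f hf
    rw [mem_left, inv_inv] at hf
    have := C.setup.sub y hy _ hf
    simpa using this
  · rw [Finset.card_singleton_mul]; have := C.five; omega
  · rw [pc_left]; unfold pc; rw [C.kk]; exact C.big

/-- Two distinct `2`-atoms meet in at most one element. -/
theorem inter_le_one {K : Finset G} {N : Subgroup G} (S : Setup K N) {κ : ℕ}
    (hlow : Low K N 2 κ) {A B : Finset G} (hA : Atom K N 2 κ A) (hB : Atom K N 2 κ B)
    (hne : A ≠ B) : (A ∩ B).card ≤ 1 := by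
  by_contra h
  exact hne (atom_eq S hlow hA hB (by omega))

theorem eq_of_two {K : Finset G} {N : Subgroup G} (S : Setup K N) {κ : ℕ}
    (hlow : Low K N 2 κ) {A B : Finset G} (hA : Atom K N 2 κ A) (hB : Atom K N 2 κ B)
    {u v : G} (huv : u ≠ v) (h1 : u ∈ A) (h2 : u ∈ B) (h3 : v ∈ A) (h4 : v ∈ B) : A = B := by
  apply atom_eq S hlow hA hB
  have : ({u, v} : Finset G) ⊆ A ∩ B := by
    intro w hw
    rw [Finset.mem_insert, Finset.mem_singleton] at hw
    rcases hw with rfl | rfl
    · exact Finset.mem_inter.2 ⟨h1, h2⟩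
    · exact Finset.mem_inter.2 ⟨h3, h4⟩
  have h5 := Finset.card_le_card this
  rwa [Finset.card_pair huv] at h5

/-- An element of a `2`-atom containing `1` normalises it. -/
theorem atom_comm {K : Finset G} {N : Subgroup G} (S : Setup K N) {κ : ℕ}
    (hlow : Low K N 2 κ) {A : Finset G} (hA : Atom K N 2 κ A) (h1 : (1 : G) ∈ A) {a : G}
    (ha : a ∈ A) : {a} * A = A * {a} := by
  by_cases ha1 : a = 1
  · subst ha1; rw [Finset.singleton_one, one_mul, mul_one]
  have haN : a ∈ N := hA.1.1.1 a ha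
  have hB := hA.left (N.inv_mem haN)
  have hC := hA.right S (N.inv_mem haN)
  have h2 : {a⁻¹} * A = A * {a⁻¹} := by
    apply eq_of_two S hlow hB hC (u := 1) (v := a⁻¹)
    · intro h; apply ha1; rw [← inv_inv a, ← h, inv_one]
    · rw [mem_left]; simpa using ha
    · rw [mem_right]; simpa using ha
    · rw [mem_left]; simpa using h1
    · rw [mem_right]; simpa using h1
  ext z
  rw [mem_left, mem_right]
  have h3 : ∀ w, w ∈ {a⁻¹} * A ↔ w ∈ A * {a⁻¹} := by rw [h2]; simp
  have h4 := h3 (a⁻¹ * z * a⁻¹)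
  rw [mem_left, mem_right] at h4
  simp only [inv_inv] at h4
  have h5 : a * (a⁻¹ * z * a⁻¹) = z * a⁻¹ := by group
  have h6 : a⁻¹ * z * a⁻¹ * a = a⁻¹ * z := by group
  rw [h5, h6] at h4
  exact h4.symm

end KDD
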