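import Pool.Agent.KDD.Small3

/-!
# `K ^ n = D ∪ D⁻¹` (MP_846fd0_al): the case where `K ^ n` is not a coset, trivial stabiliser
-/

namespace KDD

open Finset Pointwise

variable {G : Type*} [Group G] [Fintype G] [DecidableEq G]

/-- If `K ^ n` is not a full coset of `N` and the stabiliser of `K` is trivial then `n = 2` and
`|N| = 2|K| + 1`. -/
theorem main1 {K D : Finset G} {N : Subgroup G} {n : ℕ} (H : HypN K D N n)
    (hlt : (K ^ n).card < (fs N).card) :
    n = 2 ∧ Hyp2 K D N ∧ (fs N).card = 2 * K.card + 1 := by
  rcases red H hlt with ⟨rfl, h2, h3⟩ | ⟨rfl, H2, hlow⟩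
  · exfalso
    have := three_two H h2
    omega
  · refine ⟨rfl, H2, ?_⟩
    rw [pow_two, H2.kk] at hlt
    have h3 := H2.three_le
    have h4 := H2.ne_four
    rcases Nat.lt_or_ge K.card 4 with h | h
    · have h5 : K.card = 3 := by omega
      have h6 := H2.three h5
      omega
    · by_contra hcon
      exact crit_false (N := N) (K := K) (D := D)
        { toHyp2 := H2
          low1 := hlow
          five := by omega
          big := by omega }

end KDD
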