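import Pool.Agent.KDD.Atoms

/-!
# `K ^ n = D ∪ D⁻¹` (MP_846fd0_al): `1`-atoms are normal subgroups; cosets
-/

namespace KDD

open Finset Pointwise

variable {G : Type*} [Group G] [Fintype G] [DecidableEq G]

/-- The `1`-atom containing `1` is a normal subgroup of `G` inside `N`. -/
theorem one_atom {K : Finset G} {N : Subgroup G} (S : Setup K N) (h : ∃ F, Adm K N 1 F) :
    ∃ (L : Subgroup G) (κ : ℕ), L.Normal ∧ L ≤ N ∧ Low K N 1 κ ∧
      pc K (fs L) = (fs L).card + κ ∧ pc K (fs L) < (fs N).card := by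
  obtain ⟨κ, hlow, A, hA, h1⟩ := exists_atom S le_rfl h
  have hAN : ∀ a ∈ A, a ∈ N := hA.1.1.1
  have key : ∀ B, Atom K N 1 κ B → (1 : G) ∈ B → A = B := by
    intro B hB h1B
    refine atom_eq S hlow hA hB ?_
    rw [Nat.one_le_iff_ne_zero, ← Nat.pos_iff_ne_zero, Finset.card_pos]
    exact ⟨1, Finset.mem_inter.2 ⟨h1, h1B⟩⟩
  have hdiv : ∀ a ∈ A, ∀ b ∈ A, a⁻¹ * b ∈ A := by
    intro a ha b hb
    have h3 : (1 : G) ∈ {a⁻¹} * A := by rw [mem_left]; simpa using ha
    have h2 := key _ (hA.left (N.inv_mem (hAN a ha))) h3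
    have h4 : a⁻¹ * b ∈ {a⁻¹} * A := by rw [mem_left]; simpa using hb
    rw [h2]; exact h4
  have hinv : ∀ a ∈ A, a⁻¹ ∈ A := fun a ha => by simpa using hdiv a ha 1 h1
  have hmul : ∀ a ∈ A, ∀ b ∈ A, a * b ∈ A := fun a ha b hb => by
    simpa using hdiv _ (hinv a ha) b hb
  have hconj : ∀ a ∈ A, ∀ g : G, g * a * g⁻¹ ∈ A := by
    intro a ha g
    have h3 : (1 : G) ∈ {g} * A * {g⁻¹} := by rw [mem_conj]; simpa using h1
    have h2 := key _ (hA.conj S g) h3
    have h4 : g * a * g⁻¹ ∈ {g} * A * {g⁻¹} := by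
      rw [mem_conj]
      have : g⁻¹ * (g * a * g⁻¹) * g = a := by group
      rw [this]; exact ha
    rw [h2]; exact h4
  let L : Subgroup G :=
    { carrier := (A : Set G)
      mul_mem' := fun {a b} ha hb => hmul a ha b hb
      one_mem' := h1
      inv_mem' := fun {a} ha => hinv a ha }
  have hfs : fs L = A := by
    ext g; rw [mem_fs]; rfl
  refine ⟨L, κ, ⟨fun a ha g => hconj a ha g⟩, fun a ha => hAN a ha, hlow, ?_, ?_⟩
  · rw [hfs]; exact hA.1.2
  · rw [hfs]; have := hA.1.1.2.2; omega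

omit [Fintype G] in
/-- A map with fibres of constant size. -/
theorem card_fiber_const {α β : Type*} [DecidableEq β] (s : Finset α) (f : α → β) (r : ℕ)
    (h : ∀ a ∈ s, (s.filter (fun b => f b = f a)).card = r) :
    s.card = (s.image f).card * r := by
  rw [Finset.card_eq_sum_card_image f s]
  rw [Finset.sum_const_nat (m := r)]
  intro b hb
  obtain ⟨a, ha, rfl⟩ := Finset.mem_image.1 hb
  exact h a ha

/-- `K` is contained in one conjugacy class. -/
def Cls (K : Finset G) : Prop := ∀ k ∈ K, ∀ l ∈ K, ∃ g : G, g * k * g⁻¹ = l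

omit [Fintype G] [DecidableEq G] in
/-- An equivariant map on a conjugacy class has fibres of constant size. -/
theorem fiber_conj {K : Finset G} (hK : Inv K) (hc : Cls K) {β : Type*} [DecidableEq β]
    (φ : G → β) (hφ : ∀ g y z, φ y = φ z → φ (g * y * g⁻¹) = φ (g * z * g⁻¹))
    {a b : G} (ha : a ∈ K) (hb : b ∈ K) :
    (K.filter (fun y => φ y = φ a)).card ≤ (K.filter (fun y => φ y = φ b)).card := by
  obtain ⟨g, hg⟩ := hc a ha b hb
  apply Finset.card_le_card_of_injOn (fun y => g * y * g⁻¹)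
  · intro y hy
    simp only [Finset.coe_filter, Set.mem_ofPred_eq] at hy ⊢
    refine ⟨hK g y hy.1, ?_⟩
    rw [← hg]
    exact hφ g y a hy.2
  · intro y _ z _ hyz
    simpa using hyz

omit [Fintype G] [DecidableEq G] in
theorem card_image_dvd {K : Finset G} (hK : Inv K) (hc : Cls K) {β : Type*} [DecidableEq β]
    (φ : G → β) (hφ : ∀ g y z, φ y = φ z → φ (g * y * g⁻¹) = φ (g * z * g⁻¹)) :
    (K.image φ).card ∣ K.card := by
  rcases K.eq_empty_or_nonempty with rfl | ⟨a, ha⟩
  · simp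
  · refine ⟨(K.filter (fun y => φ y = φ a)).card, card_fiber_const K φ _ ?_⟩
    intro b hb
    exact le_antisymm (fiber_conj hK hc φ hφ hb ha) (fiber_conj hK hc φ hφ ha hb)

open Classical in
/-- Cosets of a normal subgroup `L` meeting the conjugacy class `K`. -/
theorem cosets {K : Finset G} (hK : Inv K) (hc : Cls K) (L : Subgroup G) [L.Normal] :
    ∃ t r : ℕ, pc K (fs L) = t * (fs L).card ∧ K.card = t * r ∧
      (∀ y ∈ K, (K.filter (fun z => y⁻¹ * z ∈ L)).card = r) ∧
      t = (K.image (QuotientGroup.mk' L)).card := by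
  rcases K.eq_empty_or_nonempty with rfl | ⟨a, ha⟩
  · exact ⟨0, 0, by simp [pc], by simp, by simp, by simp⟩
  set π := QuotientGroup.mk' L with hπ
  have hπeq : ∀ y z : G, π y = π z ↔ y⁻¹ * z ∈ L := by
    intro y z
    rw [hπ, QuotientGroup.mk'_apply, QuotientGroup.mk'_apply]
    exact QuotientGroup.eq
  have hφ : ∀ g y z, π y = π z → π (g * y * g⁻¹) = π (g * z * g⁻¹) := by
    intro g y z h
    simp only [map_mul, h]
  have hfil : ∀ y ∈ K, K.filter (fun z => y⁻¹ * z ∈ L) = K.filter (fun z => π z = π y) := by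
    intro y _
    apply Finset.filter_congr
    intro z _
    rw [← hπeq, eq_comm]
  set r := (K.filter (fun y => π y = π a)).card with hr
  have hr2 : ∀ y ∈ K, (K.filter (fun z => π z = π y)).card = r := fun b hb =>
    le_antisymm (fiber_conj hK hc π hφ hb ha) (fiber_conj hK hc π hφ ha hb)
  refine ⟨(K.image π).card, r, ?_, card_fiber_const K π r hr2, ?_, rfl⟩
  · have himg : (fs L * K).image π = K.image π := by
      ext q
      simp only [Finset.mem_image, Finset.mem_mul]
      constructor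
      · rintro ⟨g, ⟨l, hl, k, hk, rfl⟩, rfl⟩
        refine ⟨k, hk, ?_⟩
        rw [map_mul]
        have : π l = 1 := by
          rw [hπ, QuotientGroup.mk'_apply]; exact (QuotientGroup.eq_one_iff l).2 (mem_fs.1 hl)
        rw [this, one_mul]
      · rintro ⟨k, hk, rfl⟩
        exact ⟨k, ⟨1, mem_fs.2 L.one_mem, k, hk, by simp⟩, rfl⟩
    unfold pc
    rw [card_fiber_const (fs L * K) π (fs L).card, himg]
    intro u hu
    have : (fs L * K).filter (fun b => π b = π u) = {u} * fs L := by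
      ext b
      simp only [Finset.mem_filter, Finset.mem_mul, Finset.mem_singleton]
      constructor
      · rintro ⟨_, h2⟩
        exact ⟨u, rfl, u⁻¹ * b, mem_fs.2 ((hπeq u b).1 h2.symm), by group⟩
      · rintro ⟨_, rfl, l, hl, rfl⟩
        obtain ⟨l', hl', k, hk, hu'⟩ := Finset.mem_mul.1 hu
        have hl2 : l ∈ L := mem_fs.1 hl
        refine ⟨⟨l' * (k * l * k⁻¹), ?_, k, hk, ?_⟩, ?_⟩
        · exact mem_fs.2 (L.mul_mem (mem_fs.1 hl') (Subgroup.Normal.conj_mem ‹_› l hl2 k))
        · rw [← hu']; group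
        · rw [eq_comm, hπeq]; simpa using hl2
    rw [this, Finset.card_singleton_mul]
  · intro y hy
    rw [hfil y hy]; exact hr2 y hy

end KDD
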