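import Pool.Agent.KDD.One

/-!
# `K ^ n = D ∪ D⁻¹` (MP_846fd0_al): cosets of normal subgroups contain at most half of `K`
-/

namespace KDD

open Finset Pointwise

variable {G : Type*} [Group G] [Fintype G] [DecidableEq G]

/-- The hypotheses in the case `n = 2`, `|K²| = 2|K|`, trivial stabiliser. -/
structure Hyp2 (K D : Finset G) (N : Subgroup G) : Prop where
  setup : Setup K N
  gen : ∀ M : Subgroup G, (∀ k ∈ K, ∀ l ∈ K, k⁻¹ * l ∈ M) → N ≤ M
  cls : Cls K
  dinv : Inv D
  dcls : Cls D
  sq : K * K = D ∪ D⁻¹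
  dcard : D.card = K.card
  kk : (K * K).card = 2 * K.card
  stab : ∀ h : G, (∀ k ∈ K, h * k ∈ K) → h = 1

omit [Fintype G] in
theorem inv_inv_set {D : Finset G} (h : Inv D) : Inv D⁻¹ := by
  intro g k hk
  rw [Finset.mem_inv'] at hk ⊢
  have := h g _ hk
  have h2 : (g * k * g⁻¹)⁻¹ = g * k⁻¹ * g⁻¹ := by group
  rw [h2]; exact this

omit [Fintype G] in
theorem cls_inv_set {D : Finset G} (h : Cls D) : Cls D⁻¹ := by
  intro k hk l hl
  rw [Finset.mem_inv'] at hk hl
  obtain ⟨g, hg⟩ := h _ hk _ hl
  refine ⟨g, ?_⟩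
  have h2 : (g * k⁻¹ * g⁻¹)⁻¹ = g * k * g⁻¹ := by group
  rw [← h2, hg, inv_inv]

omit [Fintype G] in
/-- An equivariant image of a class which meets a class is equal to it. -/
theorem image_eq_class {K D : Finset G} (hK : Inv K) (hc : Cls K) (hD : Inv D) (hd : Cls D)
    (φ : G → G) (hφ : ∀ g y, φ (g * y * g⁻¹) = g * φ y * g⁻¹) {x : G} (hx : x ∈ K)
    (hxD : φ x ∈ D) : K.image φ = D := by
  ext d
  rw [Finset.mem_image]
  constructor
  · rintro ⟨k, hk, rfl⟩
    obtain ⟨g, rfl⟩ := hc x hx k hk
    rw [hφ]; exact hD g _ hxD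
  · intro h
    obtain ⟨g, rfl⟩ := hd _ hxD d h
    exact ⟨g * x * g⁻¹, hK g x hx, hφ g x⟩

open Classical in
theorem per {K D : Finset G} {N : Subgroup G} (H : Hyp2 K D N) (L : Subgroup G) [L.Normal]
    (hL : L ≠ ⊥) {t r : ℕ} (ht : t = (K.image (QuotientGroup.mk' L)).card)
    (hr : K.card = t * r) (hr2 : ∀ y ∈ K, (K.filter (fun z => y⁻¹ * z ∈ L)).card = r) :
    2 * r ≤ (fs L).card := by
  by_contra hcon
  push Not at hcon
  set π := QuotientGroup.mk' L with hπ
  have hLn : L.Normal := inferInstance
  have hπeq : ∀ y z : G, π y = π z ↔ y⁻¹ * z ∈ L := by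
    intro y z
    rw [hπ, QuotientGroup.mk'_apply, QuotientGroup.mk'_apply]
    exact QuotientGroup.eq
  -- Step 1: `K * K` is `L`-periodic
  have step1 : ∀ u ∈ K * K, ∀ l ∈ L, u * l ∈ K * K := by
    intro u hu l hl
    obtain ⟨y, hy, z, hz, rfl⟩ := Finset.mem_mul.1 hu
    set A := K.filter (fun w => y⁻¹ * w ∈ L) with hA
    set B := (K.filter (fun w => z⁻¹ * w ∈ L)).image (fun w => y * z * l * w⁻¹) with hB
    have hAsub : A ⊆ {y} * fs L := by
      intro w hw
      rw [mem_left, mem_fs]; exact (Finset.mem_filter.1 hw).2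
    have hBsub : B ⊆ {y} * fs L := by
      intro w hw
      obtain ⟨v, hv, rfl⟩ := Finset.mem_image.1 hw
      have hv2 := (Finset.mem_filter.1 hv).2
      rw [mem_left, mem_fs]
      have h1 : y⁻¹ * (y * z * l * v⁻¹) = z * (l * (z⁻¹ * v)⁻¹) * z⁻¹ := by group
      rw [h1]
      exact hLn.conj_mem _ (L.mul_mem hl (L.inv_mem hv2)) z
    have hBcard : B.card = r := by
      rw [hB, Finset.card_image_of_injective _ (fun a b h => by simpa using h), hr2 z hz]
    have hAcard : A.card = r := hr2 y hy
    have hlt : ({y} * fs L).card < A.card + B.card := by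
      rw [Finset.card_singleton_mul, hAcard, hBcard]; omega
    obtain ⟨w, hw⟩ := Finset.inter_nonempty_of_card_lt_card_add_card hAsub hBsub hlt
    obtain ⟨hw1, hw2⟩ := Finset.mem_inter.1 hw
    obtain ⟨v, hv, hvw⟩ := Finset.mem_image.1 hw2
    refine Finset.mem_mul.2 ⟨w, (Finset.mem_filter.1 hw1).1, v, (Finset.mem_filter.1 hv).1, ?_⟩
    rw [← hvw]; group
  obtain ⟨x, hx⟩ := H.setup.ne
  have hxx : x * x ∈ D ∪ D⁻¹ := by rw [← H.sq]; exact Finset.mul_mem_mul hx hx
  -- Step 2: divisibility
  set Kb := K.image π with hKb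
  have hKbInv : Inv Kb := by
    intro g k hk
    obtain ⟨g', rfl⟩ := QuotientGroup.mk'_surjective L g
    obtain ⟨k', hk', rfl⟩ := Finset.mem_image.1 hk
    exact Finset.mem_image.2 ⟨g' * k' * g'⁻¹, H.setup.inv g' k' hk', by simp [hπ]⟩
  have hKbCls : Cls Kb := by
    intro k hk l hl
    obtain ⟨k', hk', rfl⟩ := Finset.mem_image.1 hk
    obtain ⟨l', hl', rfl⟩ := Finset.mem_image.1 hl
    obtain ⟨g, hg⟩ := H.cls k' hk' l' hl'
    exact ⟨π g, by rw [← hg]; simp [hπ]⟩
  have hdvd0 : (Kb.image (fun u => u * u)).card ∣ Kb.card := by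
    apply card_image_dvd hKbInv hKbCls
    intro g y z hyz
    have h1 : g * y * g⁻¹ * (g * y * g⁻¹) = g * (y * y) * g⁻¹ := by group
    have h2 : g * z * g⁻¹ * (g * z * g⁻¹) = g * (z * z) * g⁻¹ := by group
    rw [h1, h2, hyz]
  have himg : Kb.image (fun u => u * u) = (K.image (fun u => u * u)).image π := by
    rw [hKb, Finset.image_image, Finset.image_image]
    apply Finset.image_congr
    intro u _
    simp [hπ]
  have hsqφ : ∀ g y : G, (fun u : G => u * u) (g * y * g⁻¹) = g * (fun u : G => u * u) y * g⁻¹ := by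
    intro g y; simp only; group
  have hq : (D.image π).card ∣ t := by
    rw [ht]
    have h3 : (Kb.image (fun u => u * u)).card = (D.image π).card := by
      rw [himg]
      rcases Finset.mem_union.1 hxx with h | h
      · rw [image_eq_class H.setup.inv H.cls H.dinv H.dcls (fun u => u * u) hsqφ hx h]
      · rw [image_eq_class H.setup.inv H.cls (inv_inv_set H.dinv) (cls_inv_set H.dcls)
          (fun u => u * u) hsqφ hx h]
        have h4 : (D⁻¹).image π = (D.image π)⁻¹ := by
          ext u
          rw [Finset.mem_inv', Finset.mem_image, Finset.mem_image]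
          constructor
          · rintro ⟨v, hv, rfl⟩
            exact ⟨v⁻¹, Finset.mem_inv'.1 hv, by simp⟩
          · rintro ⟨v, hv, hvu⟩
            exact ⟨v⁻¹, by rw [Finset.mem_inv', inv_inv]; exact hv, by rw [map_inv, hvu, inv_inv]⟩
        rw [h4, Finset.card_inv]
    rw [← h3]; exact hdvd0
  have hKpos : 0 < K.card := Finset.card_pos.2 ⟨x, hx⟩
  have htpos : 0 < t := by
    rcases Nat.eq_zero_or_pos t with h | h
    · rw [hr, h] at hKpos; simp at hKpos
    · exact h
  have hrL : r < (fs L).card := by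
    have h1 : K.filter (fun w => x⁻¹ * w ∈ L) ⊆ {x} * fs L := by
      intro w hw
      rw [mem_left, mem_fs]; exact (Finset.mem_filter.1 hw).2
    have h2 := Finset.card_le_card h1
    rw [Finset.card_singleton_mul, hr2 x hx] at h2
    rcases Nat.lt_or_ge r (fs L).card with h | h
    · exact h
    · exfalso
      apply hL
      rw [Subgroup.eq_bot_iff_forall]
      intro l hl
      apply H.stab
      intro k hk
      have h3 : K.filter (fun w => k⁻¹ * w ∈ L) = {k} * fs L := by
        apply Finset.eq_of_subset_of_card_le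
        · intro w hw
          rw [mem_left, mem_fs]; exact (Finset.mem_filter.1 hw).2
        · rw [Finset.card_singleton_mul, hr2 k hk]; exact h
      have h4 : l * k ∈ {k} * fs L := by
        rw [mem_left, mem_fs]
        have := hLn.conj_mem l hl k⁻¹
        simpa [mul_assoc] using this
      rw [← h3] at h4
      exact (Finset.mem_filter.1 h4).1
  have hDimg_le : (D.image π).card ≤ t := Nat.le_of_dvd htpos hq
  by_cases hcase : ∀ d ∈ D, ∀ l ∈ L, d * l ∈ D
  · have hDcard : D.card = (D.image π).card * (fs L).card := by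
      apply card_fiber_const
      intro d hd
      have : D.filter (fun b => π b = π d) = {d} * fs L := by
        ext b
        rw [Finset.mem_filter, mem_left, mem_fs]
        constructor
        · rintro ⟨_, h⟩; exact (hπeq d b).1 h.symm
        · intro h
          refine ⟨?_, ((hπeq d b).2 h).symm⟩
          have := hcase d hd _ h
          simpa using this
      rw [this, Finset.card_singleton_mul]
    rw [H.dcard, hr] at hDcard
    obtain ⟨c, hc⟩ := hq
    set q := (D.image π).card with hqdef
    -- t = q c, t r = q |L|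
    have hqpos : 0 < q := by
      rcases Nat.eq_zero_or_pos q with h | h
      · rw [h, zero_mul] at hc; omega
      · exact h
    have h5 : c * r = (fs L).card := by
      rw [hc, mul_assoc] at hDcard
      exact Nat.eq_of_mul_eq_mul_left hqpos hDcard
    have h6 : c ≠ 0 := by rintro rfl; rw [zero_mul] at h5; omega
    have h7 : c ≠ 1 := by rintro rfl; rw [one_mul] at h5; omega
    have h8 : 2 ≤ c := by omega
    have h9 : 2 * r ≤ c * r := Nat.mul_le_mul_right r h8
    omega
  · push Not at hcase
    obtain ⟨d, hd, l, hl, hdl⟩ := hcase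
    have h1 : d * l ∈ D ∪ D⁻¹ := by
      rw [← H.sq]
      apply step1 _ _ l hl
      rw [H.sq]; exact Finset.mem_union_left _ hd
    have h2 : d * l ∈ D⁻¹ := (Finset.mem_union.1 h1).resolve_left hdl
    have h3 : (K * K).image π ⊆ D.image π := by
      intro u hu
      obtain ⟨w, hw, rfl⟩ := Finset.mem_image.1 hu
      rw [H.sq] at hw
      rcases Finset.mem_union.1 hw with h | h
      · exact Finset.mem_image_of_mem _ h
      · obtain ⟨g, hg⟩ := cls_inv_set H.dcls _ h2 _ h
        refine Finset.mem_image.2 ⟨g * d * g⁻¹, H.dinv g d hd, ?_⟩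
        rw [hπeq, ← hg]
        have : (g * d * g⁻¹)⁻¹ * (g * (d * l) * g⁻¹) = g * l * g⁻¹ := by group
        rw [this]; exact hLn.conj_mem l hl g
    have h4 : (K * K).card ≤ (fs L).card * ((K * K).image π).card := by
      apply Finset.card_le_mul_card_image
      intro u hu
      obtain ⟨w, hw, rfl⟩ := Finset.mem_image.1 hu
      have h5 : (K * K).filter (fun b => π b = π w) ⊆ {w} * fs L := by
        intro b hb
        rw [mem_left, mem_fs]
        exact (hπeq w b).1 (Finset.mem_filter.1 hb).2.symm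
      have h6 := Finset.card_le_card h5
      rwa [Finset.card_singleton_mul] at h6
    have h5 := Finset.card_le_card h3
    rw [H.kk, hr] at h4
    have h6 : (fs L).card * ((K * K).image π).card ≤ (fs L).card * t :=
      Nat.mul_le_mul_left _ (le_trans h5 hDimg_le)
    have h7 : t * (2 * r) ≤ t * (fs L).card := by
      calc t * (2 * r) = 2 * (t * r) := by ring
        _ ≤ (fs L).card * t := le_trans h4 h6
        _ = t * (fs L).card := by ring
    have h8 := Nat.le_of_mul_le_mul_left h7 htpos
    omega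

end KDD
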