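import Pool.Agent.KDD.Class

/-!
# `K ^ n = D ∪ D⁻¹` (MP_846fd0_al): passing to the quotient by the stabiliser
-/

namespace KDD

open Finset Pointwise
open scoped commutatorElement

variable {G : Type*} [Group G] [Fintype G] [DecidableEq G]

open Classical in
theorem hypN_quot {x d : G} {n : ℕ} (hn : 2 ≤ n)
    (h : conjugatesOf x ^ n = conjugatesOf d ∪ (conjugatesOf d)⁻¹) [hH : (stab x).Normal] :
    HypN ((cl x).image (QuotientGroup.mk' (stab x))) ((cl d).image (QuotientGroup.mk' (stab x)))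
      ((bracket x).map (QuotientGroup.mk' (stab x))) n := by
  set π := QuotientGroup.mk' (stab x) with hπ
  have hsurj : Function.Surjective π := QuotientGroup.mk'_surjective _
  have hinv : ∀ y : G, Inv ((cl y).image π) := by
    intro y g k hk
    obtain ⟨a, ha, rfl⟩ := Finset.mem_image.1 hk
    obtain ⟨b, rfl⟩ := hsurj g
    refine Finset.mem_image.2 ⟨b * a * b⁻¹, inv_cl y b a ha, ?_⟩
    simp only [map_mul, map_inv]
  have hcls : ∀ y : G, Cls ((cl y).image π) := by
    intro y k hk l hl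
    obtain ⟨a, ha, rfl⟩ := Finset.mem_image.1 hk
    obtain ⟨b, hb, rfl⟩ := Finset.mem_image.1 hl
    obtain ⟨g, rfl⟩ := cls_cl y a ha b hb
    exact ⟨π g, by simp only [map_mul, map_inv]⟩
  refine
    { setup :=
        { inv := hinv x
          ne := (setup_cl x).ne.image _
          normal := (bracket_normal x).map π hsurj
          sub := ?_ }
      gen := ?_
      cls := hcls x
      dinv := hinv d
      dcls := hcls d
      two_le := hn
      pw := ?_
      stab := ?_ }
  · intro k hk l hl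
    obtain ⟨a, ha, rfl⟩ := Finset.mem_image.1 hk
    obtain ⟨b, hb, rfl⟩ := Finset.mem_image.1 hl
    exact ⟨a⁻¹ * b, (setup_cl x).sub a ha b hb, by simp only [map_mul, map_inv]⟩
  · intro M hM
    rw [Subgroup.map_le_iff_le_comap]
    unfold bracket
    rw [Subgroup.closure_le]
    rintro g ⟨k, hk, l, hl, rfl⟩
    have := hM (π k) (Finset.mem_image_of_mem _ (mem_cl.2 hk)) (π l)
      (Finset.mem_image_of_mem _ (mem_cl.2 hl))
    rw [SetLike.mem_coe, Subgroup.mem_comap]
    simpa only [map_mul, map_inv] using this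
  · rw [← Finset.image_pow, pw_cl h, Finset.image_union, Finset.image_inv]
  · intro q hq
    obtain ⟨g, rfl⟩ := hsurj q
    have hg : g ∈ stab x := by
      rw [mem_stab]
      intro k hk
      have h1 := hq (π k) (Finset.mem_image_of_mem _ (mem_cl.2 hk))
      rw [← map_mul] at h1
      obtain ⟨k', hk', h2⟩ := Finset.mem_image.1 h1
      rw [hπ, QuotientGroup.mk'_apply, QuotientGroup.mk'_apply, QuotientGroup.eq] at h2
      -- `g k = k' h' = (k' h' k'⁻¹) k'`
      have h3 := hH.conj_mem _ h2 k'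
      rw [mem_stab] at h3
      have h4 := h3 k' (mem_cl.1 hk')
      have h5 : k' * (k'⁻¹ * (g * k)) * k'⁻¹ * k' = g * k := by group
      rwa [h5] at h4
    rw [hπ, QuotientGroup.mk'_apply]
    exact (QuotientGroup.eq_one_iff g).2 hg

omit [DecidableEq G] in
theorem cl_right {x : G} {k h : G} (hk : k ∈ cl x) (hh : h ∈ stab x) : k * h ∈ cl x := by
  have h3 := (stab_normal x).conj_mem _ hh k
  rw [mem_stab] at h3
  have h4 := h3 k (mem_cl.1 hk)
  have h5 : k * h * k⁻¹ * k = k * h := by group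
  rw [h5] at h4
  exact mem_cl.2 h4

theorem pow_right {x : G} {n : ℕ} (hn : n ≠ 0) {k h : G} (hk : k ∈ cl x ^ n) (hh : h ∈ stab x) :
    k * h ∈ cl x ^ n := by
  obtain ⟨m, rfl⟩ := Nat.exists_eq_succ_of_ne_zero hn
  rw [pow_succ] at hk ⊢
  obtain ⟨a, ha, b, hb, rfl⟩ := Finset.mem_mul.1 hk
  rw [mul_assoc]
  exact Finset.mul_mem_mul ha (cl_right hb hh)

/-- The main theorem for classes: if `K ^ n` has fewer than `|N|` elements. -/
theorem main2 {x d : G} {n : ℕ} (hn : 2 ≤ n)
    (h : conjugatesOf x ^ n = conjugatesOf d ∪ (conjugatesOf d)⁻¹)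
    (hlt : (cl x ^ n).card < (fs (bracket x)).card) :
    n = 2 ∧ (cl x ^ 2).card = 2 * (cl x).card ∧
      (fs (bracket x)).card = 2 * (cl x).card + (fs (stab x)).card ∧
      (fs (stab x)).card < (fs (bracket x)).card ∧
      ∃ p : ℕ, p.Prime ∧ (∀ u ∈ bracket x, u ^ p ∈ stab x) ∧
        (∀ u ∈ bracket x, ∀ v ∈ bracket x, ⁅u, v⁆ ∈ stab x) := by
  classical
  have hH := stab_normal x
  have HN := hypN_quot hn h
  set π := QuotientGroup.mk' (stab x) with hπ
  have hcK : (cl x).card = ((cl x).image π).card * (fs (stab x)).card :=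
    periodic_card (fun a ha b hb => cl_right ha hb)
  have hcKn : ∀ m : ℕ, m ≠ 0 → (cl x ^ m).card = (((cl x).image π) ^ m).card * (fs (stab x)).card := by
    intro m hm
    rw [← Finset.image_pow]
    exact periodic_card (fun a ha b hb => pow_right hm ha hb)
  have hcN : (fs (bracket x)).card =
      (fs ((bracket x).map π)).card * (fs (stab x)).card := by
    have h1 : (fs (bracket x)).image π = fs ((bracket x).map π) := by
      ext q
      rw [Finset.mem_image, mem_fs, Subgroup.mem_map]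
      constructor
      · rintro ⟨a, ha, rfl⟩; exact ⟨a, mem_fs.1 ha, rfl⟩
      · rintro ⟨a, ha, rfl⟩; exact ⟨a, mem_fs.2 ha, rfl⟩
    rw [← h1]
    exact periodic_card (fun a ha b hb =>
      mem_fs.2 ((bracket x).mul_mem (mem_fs.1 ha) (stab_le x hb)))
  have hpos : 0 < (fs (stab x)).card := Finset.card_pos.2 ⟨1, mem_fs.2 (stab x).one_mem⟩
  have hlt2 : (((cl x).image π) ^ n).card < (fs ((bracket x).map π)).card := by
    rw [hcKn n (by omega), hcN] at hlt
    exact lt_of_mul_lt_mul_right hlt (Nat.zero_le _)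
  obtain ⟨rfl, H2, hcard⟩ := main1 HN hlt2
  obtain ⟨w, _, _, _, _, _, p, hp, h1, h2⟩ := H2.elem hcard
  have h3 := H2.three_le
  refine ⟨rfl, ?_, ?_, ?_, p, hp, ?_, ?_⟩
  · rw [hcKn 2 (by norm_num), pow_two, H2.kk, hcK]; ring
  · rw [hcN, hcard, hcK]; ring
  · rw [hcN, hcard]
    calc (fs (stab x)).card = 1 * (fs (stab x)).card := by ring
      _ < (2 * ((cl x).image π).card + 1) * (fs (stab x)).card := by
        apply Nat.mul_lt_mul_of_pos_right _ hpos
        omega
  · intro u hu
    have h4 := h1 (π u) ⟨u, hu, rfl⟩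
    rw [← map_pow, hπ, QuotientGroup.mk'_apply] at h4
    exact (QuotientGroup.eq_one_iff _).1 h4
  · intro u hu v hv
    have h4 := h2 (π u) ⟨u, hu, rfl⟩ (π v) ⟨v, hv, rfl⟩
    have h5 : π ⁅u, v⁆ = 1 := by
      rw [map_commutatorElement, commutatorElement_eq_one_iff_mul_comm]
      exact h4
    rw [hπ, QuotientGroup.mk'_apply] at h5
    exact (QuotientGroup.eq_one_iff _).1 h5

end KDD
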