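import Pool.Agent.KDD.Two

/-!
# `K ^ n = D ∪ D⁻¹` (MP_846fd0_al): reduction to `n = 2` or `|K| ≤ 4`
-/

namespace KDD

open Finset Pointwise

variable {G : Type*} [Group G] [Fintype G] [DecidableEq G]

/-- The hypotheses for general `n`, with trivial stabiliser. -/
structure HypN (K D : Finset G) (N : Subgroup G) (n : ℕ) : Prop where
  setup : Setup K N
  gen : ∀ M : Subgroup G, (∀ k ∈ K, ∀ l ∈ K, k⁻¹ * l ∈ M) → N ≤ M
  cls : Cls K
  dinv : Inv D
  dcls : Cls D
  two_le : 2 ≤ n
  pw : K ^ n = D ∪ D⁻¹
  stab : ∀ h : G, (∀ k ∈ K, h * k ∈ K) → h = 1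

theorem pow_mem_coset {K : Finset G} {N : Subgroup G} (S : Setup K N) {x : G} (hx : x ∈ K)
    (j : ℕ) : ∀ u ∈ K ^ j, (x ^ j)⁻¹ * u ∈ N := by
  have hN := S.normal
  induction j with
  | zero =>
    intro u hu
    rw [pow_zero, Finset.mem_one] at hu
    subst hu; simpa using N.one_mem
  | succ j ih =>
    intro u hu
    rw [pow_succ] at hu
    obtain ⟨w, hw, k, hk, rfl⟩ := Finset.mem_mul.1 hu
    have h1 := ih w hw
    have h2 := S.sub x hx k hk
    have h3 : (x ^ (j + 1))⁻¹ * (w * k) = (x⁻¹ * ((x ^ j)⁻¹ * w) * x) * (x⁻¹ * k) := by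
      rw [pow_succ]; group
    rw [h3]
    refine N.mul_mem ?_ h2
    have := hN.conj_mem _ h1 x⁻¹
    simpa using this

theorem growth {K : Finset G} {N : Subgroup G} (S : Setup K N) {κ : ℕ} (hlow : Low K N 1 κ)
    (j : ℕ) (hj : (K ^ (j + 1)).card < (fs N).card) :
    (K ^ j).card + κ ≤ (K ^ (j + 1)).card := by
  obtain ⟨x, hx⟩ := S.ne
  have h1 : pc K ({(x ^ j)⁻¹} * K ^ j) = (K ^ (j + 1)).card := by
    rw [pc_left]; unfold pc; rw [pow_succ]
  have h2 := hlow ({(x ^ j)⁻¹} * K ^ j) ⟨?_, ?_, ?_⟩
  · rw [h1, Finset.card_singleton_mul] at h2; exact h2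
  · intro f hf
    obtain ⟨a, ha, b, hb, rfl⟩ := Finset.mem_mul.1 hf
    rw [Finset.mem_singleton.1 ha]
    exact pow_mem_coset S hx j b hb
  · rw [Finset.card_singleton_mul]
    exact Finset.card_pos.2 (S.ne.pow)
  · rw [h1]; omega

omit [Fintype G] in
theorem card_pow_le {K : Finset G} (hK : K.Nonempty) {i j : ℕ} (h : i ≤ j) :
    (K ^ i).card ≤ (K ^ j).card := by
  obtain ⟨d, rfl⟩ := Nat.exists_eq_add_of_le h
  rw [pow_add]
  exact Finset.card_le_card_mul_right (hK.pow)

theorem growth' {K : Finset G} {N : Subgroup G} (S : Setup K N) {κ : ℕ} (hlow : Low K N 1 κ)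
    (j : ℕ) (hj : (K ^ (j + 1)).card < (fs N).card) :
    K.card + j * κ ≤ (K ^ (j + 1)).card := by
  induction j with
  | zero => simp
  | succ j ih =>
    have h1 : (K ^ (j + 1)).card < (fs N).card :=
      lt_of_le_of_lt (card_pow_le S.ne (by omega)) hj
    have h2 := ih h1
    have h3 := growth S hlow (j + 1) hj
    have h4 : (j + 1) * κ = j * κ + κ := by ring
    omega

open Classical in
theorem red {K D : Finset G} {N : Subgroup G} {n : ℕ} (H : HypN K D N n)
    (hlt : (K ^ n).card < (fs N).card) :
    (n = 3 ∧ K.card = 2 ∧ (K ^ n).card = 4) ∨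
      (n = 2 ∧ Hyp2 K D N ∧ Low K N 1 (K.card - 1)) := by
  obtain ⟨x, hx⟩ := H.setup.ne
  have hn := H.two_le
  have hKpos : 0 < K.card := Finset.card_pos.2 ⟨x, hx⟩
  have hK1 : K.card < (fs N).card := by
    have := card_pow_le H.setup.ne (show 1 ≤ n by omega)
    rw [pow_one] at this; omega
  obtain ⟨L, κ, hLn, hLN, hlow, hLpc, hLlt⟩ := one_atom H.setup
    ⟨{1}, ⟨by simp [N.one_mem], by simp, by rw [pc_one]; omega⟩⟩
  obtain ⟨t, r, ht1, hr1, hr2, ht2⟩ := cosets H.setup.inv H.cls L
  have hLpos : 0 < (fs L).card := Finset.card_pos.2 ⟨1, mem_fs.2 L.one_mem⟩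
  have hrL : r ≤ (fs L).card := by
    have h1 : K.filter (fun w => x⁻¹ * w ∈ L) ⊆ {x} * fs L := by
      intro w hw
      rw [mem_left, mem_fs]; exact (Finset.mem_filter.1 hw).2
    have h2 := Finset.card_le_card h1
    rwa [Finset.card_singleton_mul, hr2 x hx] at h2
  -- if `r = |L|` then `L = 1`
  have hperiod : r = (fs L).card → L = ⊥ := by
    intro hrr
    rw [Subgroup.eq_bot_iff_forall]
    intro l hl
    apply H.stab
    intro k hk
    have h3 : K.filter (fun w => k⁻¹ * w ∈ L) = {k} * fs L := by
      apply Finset.eq_of_subset_of_card_le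
      · intro w hw
        rw [mem_left, mem_fs]; exact (Finset.mem_filter.1 hw).2
      · rw [Finset.card_singleton_mul, hr2 k hk, hrr]
    have h4 : l * k ∈ {k} * fs L := by
      rw [mem_left, mem_fs]
      have := hLn.conj_mem l hl k⁻¹
      simpa [mul_assoc] using this
    rw [← h3] at h4
    exact (Finset.mem_filter.1 h4).1
  -- `t ≥ 2`
  have ht0 : t ≠ 0 := by rintro rfl; rw [zero_mul] at hr1; omega
  have ht1' : t ≠ 1 := by
    rintro rfl
    have h1 : N ≤ L := by
      apply H.gen L
      intro k hk l hl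
      rw [eq_comm, Finset.card_eq_one] at ht2
      obtain ⟨a, ha⟩ := ht2
      have h2 : QuotientGroup.mk' L k = a := by
        have : QuotientGroup.mk' L k ∈ K.image (QuotientGroup.mk' L) :=
          Finset.mem_image_of_mem _ hk
        rw [ha] at this; simpa using this
      have h3 : QuotientGroup.mk' L l = a := by
        have : QuotientGroup.mk' L l ∈ K.image (QuotientGroup.mk' L) :=
          Finset.mem_image_of_mem _ hl
        rw [ha] at this; simpa using this
      have h4 := h2.trans h3.symm
      rw [QuotientGroup.mk'_apply, QuotientGroup.mk'_apply] at h4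
      exact QuotientGroup.eq.1 h4
    have h2 : (fs N).card ≤ (fs L).card :=
      Finset.card_le_card (fun g hg => mem_fs.2 (h1 (mem_fs.1 hg)))
    rw [one_mul] at ht1
    omega
  have ht : 2 ≤ t := by omega
  -- `κ = (t - 1) |L|`
  obtain ⟨s, rfl⟩ : ∃ s, t = s + 1 := ⟨t - 1, by omega⟩
  have hκ : κ = s * (fs L).card := by
    rw [ht1] at hLpc
    have : (s + 1) * (fs L).card = (fs L).card + s * (fs L).card := by ring
    omega
  have hs : 1 ≤ s := by omega
  -- the size of `D`
  have hxn : x ^ n ∈ D ∪ D⁻¹ := by rw [← H.pw]; exact Finset.pow_mem_pow hx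
  have hφ : ∀ g y : G, (fun u : G => u ^ n) (g * y * g⁻¹) = g * (fun u : G => u ^ n) y * g⁻¹ := by
    intro g y; simp only [conj_pow]
  have hDdvd : D.card ∣ K.card := by
    have h0 : (K.image (fun u : G => u ^ n)).card ∣ K.card := by
      apply card_image_dvd H.setup.inv H.cls
      intro g y z hyz
      have h1 := hφ g y
      have h2 := hφ g z
      simp only at h1 h2 hyz
      rw [h1, h2, hyz]
    rcases Finset.mem_union.1 hxn with h | h
    · rwa [image_eq_class H.setup.inv H.cls H.dinv H.dcls (fun u : G => u ^ n) hφ hx h] at h0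
    · rwa [image_eq_class H.setup.inv H.cls (inv_inv_set H.dinv) (cls_inv_set H.dcls)
        (fun u : G => u ^ n) hφ hx h, Finset.card_inv] at h0
  have hDle : D.card ≤ K.card := Nat.le_of_dvd hKpos hDdvd
  have hgr : K.card + (n - 1) * κ ≤ (K ^ n).card := by
    have h1 := growth' H.setup hlow (n - 1) (by rwa [show n - 1 + 1 = n by omega])
    rwa [show n - 1 + 1 = n by omega] at h1
  have hκpos : 1 ≤ κ := by
    rw [hκ]; exact Nat.mul_pos hs hLpos
  have hprod : 1 ≤ (n - 1) * κ := Nat.mul_pos (by omega) hκpos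
  have hKn_le : (K ^ n).card ≤ 2 * D.card := by
    rw [H.pw]
    have := Finset.card_union_le D D⁻¹
    rw [Finset.card_inv] at this; omega
  have hDK : D.card = K.card := by
    rcases Nat.lt_or_ge D.card K.card with h | h
    · exfalso
      obtain ⟨c, hc⟩ := hDdvd
      have h1 : c ≠ 0 := by rintro rfl; omega
      have h2 : c ≠ 1 := by rintro rfl; omega
      have h3 : 2 ≤ c := by omega
      have h4 : D.card * 2 ≤ D.card * c := Nat.mul_le_mul_left _ h3
      omega
    · omega
  have hKn : (K ^ n).card = 2 * K.card := by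
    by_cases hdis : Disjoint D D⁻¹
    · rw [H.pw, Finset.card_union_of_disjoint hdis, Finset.card_inv, hDK]; ring
    · exfalso
      rw [Finset.not_disjoint_iff] at hdis
      obtain ⟨d, hd1, hd2⟩ := hdis
      have h1 : D⁻¹ = D := by
        apply Finset.Subset.antisymm
        · intro e he
          obtain ⟨g, rfl⟩ := cls_inv_set H.dcls d hd2 e he
          exact H.dinv g d hd1
        · intro e he
          obtain ⟨g, rfl⟩ := H.dcls d hd1 e he
          exact inv_inv_set H.dinv g d hd2
      rw [H.pw, h1, Finset.union_idempotent] at hgr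
      omega
  -- main inequality
  have hmain : (n - 1) * κ ≤ K.card := by omega
  have hKle : K.card ≤ (s + 1) * (fs L).card := by
    rw [hr1]; exact Nat.mul_le_mul_left _ hrL
  rcases Nat.lt_or_ge n 4 with hn4 | hn4
  · rcases Nat.lt_or_ge n 3 with hn3 | hn3
    · -- n = 2
      obtain rfl : n = 2 := by omega
      have H2 : Hyp2 K D N :=
        { setup := H.setup
          gen := H.gen
          cls := H.cls
          dinv := H.dinv
          dcls := H.dcls
          sq := by rw [← H.pw, pow_two]
          dcard := hDK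
          kk := by rw [← pow_two]; exact hKn
          stab := H.stab }
      right
      refine ⟨rfl, H2, ?_⟩
      by_cases hL : L = ⊥
      · have hL1 : (fs L).card = 1 := by
          have : fs L = {1} := by
            ext g; rw [mem_fs, hL, Subgroup.mem_bot, Finset.mem_singleton]
          rw [this, Finset.card_singleton]
        have h1 : κ = K.card - 1 := by
          rw [hL1] at ht1 hKle hrL hκ
          rw [hκ]
          have hr3 : r ≠ 0 := by rintro rfl; omega
          have hr4 : r = 1 := by omega
          rw [hr4] at hr1; omega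
        rw [← h1]; exact hlow
      · exfalso
        have h1 := per H2 L hL ht2 hr1 hr2
        have h2 : (2 - 1) * κ ≤ K.card := hmain
        rw [hκ, hr1] at h2
        -- s |L| ≤ (s+1) r, 2 r ≤ |L|
        have h3 : s * (fs L).card ≤ (s + 1) * r := by simpa using h2
        have h4 : s * (2 * r) ≤ s * (fs L).card := Nat.mul_le_mul_left _ h1
        have h5 : s * (2 * r) ≤ (s + 1) * r := le_trans h4 h3
        have hr0 : 0 < r := by
          rcases Nat.eq_zero_or_pos r with h | h
          · rw [h, mul_zero] at hr1; omega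
          · exact h
        have h6 : (s * 2) * r ≤ (s + 1) * r := by
          calc (s * 2) * r = s * (2 * r) := by ring
            _ ≤ _ := h5
        have h7 := Nat.le_of_mul_le_mul_right h6 hr0
        have hs1 : s = 1 := by omega
        subst hs1
        have h8 := two H2 L ht2.symm
        rw [ht1] at hLlt
        omega
    · -- n = 3
      obtain rfl : n = 3 := by omega
      left
      have h2 : (3 - 1) * (s * (fs L).card) ≤ (s + 1) * (fs L).card := by
        rw [← hκ]; exact le_trans hmain hKle
      have h3 : (2 * s) * (fs L).card ≤ (s + 1) * (fs L).card := by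
        calc (2 * s) * (fs L).card = (3 - 1) * (s * (fs L).card) := by norm_num; ring
          _ ≤ _ := h2
      have h4 := Nat.le_of_mul_le_mul_right h3 hLpos
      have hs1 : s = 1 := by omega
      subst hs1
      have h5 : 2 * (fs L).card ≤ 2 * r := by
        have : (3 - 1) * κ ≤ K.card := hmain
        rw [hκ, hr1] at this
        omega
      have hL : L = ⊥ := hperiod (by omega)
      have hL1 : (fs L).card = 1 := by
        have : fs L = {1} := by
          ext g; rw [mem_fs, hL, Subgroup.mem_bot, Finset.mem_singleton]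
        rw [this, Finset.card_singleton]
      have hr1' : r = 1 := by omega
      have hK2 : K.card = 2 := by rw [hr1, hr1']
      exact ⟨rfl, hK2, by rw [hKn, hK2]⟩
  · -- n ≥ 4
    exfalso
    have h2 : 3 * κ ≤ (n - 1) * κ := Nat.mul_le_mul_right _ (by omega)
    have h3 : 3 * (s * (fs L).card) ≤ (s + 1) * (fs L).card := by
      rw [← hκ]; omega
    have h4 : (3 * s) * (fs L).card ≤ (s + 1) * (fs L).card := by
      calc (3 * s) * (fs L).card = 3 * (s * (fs L).card) := by ring
        _ ≤ _ := h3
    have h5 := Nat.le_of_mul_le_mul_right h4 hLpos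
    omega

end KDD
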