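import Pool.Agent.KDD.TwoE

/-!
# `K ^ n = D ∪ D⁻¹` (MP_846fd0_al): classes with at most four elements
-/

namespace KDD

open Finset Pointwise

variable {G : Type*} [Group G] [Fintype G] [DecidableEq G]

/-- The number of representations `w = y z` with `y, z ∈ K`. -/
def RR (K : Finset G) (w : G) : ℕ := (K.filter (fun y => y⁻¹ * w ∈ K)).card

omit [Fintype G] in
theorem RR_conj_le {K : Finset G} (hK : Inv K) (g w : G) : RR K w ≤ RR K (g * w * g⁻¹) := by
  unfold RR
  apply Finset.card_le_card_of_injOn (fun y => g * y * g⁻¹)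
  · intro y hy
    simp only [Finset.coe_filter, Set.mem_ofPred_eq] at hy ⊢
    refine ⟨hK g y hy.1, ?_⟩
    have h1 : (g * y * g⁻¹)⁻¹ * (g * w * g⁻¹) = g * (y⁻¹ * w) * g⁻¹ := by group
    rw [h1]; exact hK g _ hy.2
  · intro y _ z _ hyz
    simpa using hyz

omit [Fintype G] in
theorem RR_cls {K D : Finset G} (hK : Inv K) (hD : Cls D) {d d' : G} (h : d ∈ D) (h' : d' ∈ D) :
    RR K d = RR K d' := by
  apply le_antisymm
  · obtain ⟨g, rfl⟩ := hD d h d' h'
    exact RR_conj_le hK g d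
  · obtain ⟨g, rfl⟩ := hD d' h' d h
    exact RR_conj_le hK g d'

omit [Fintype G] in
theorem sum_RR (K : Finset G) : ∑ w ∈ K * K, RR K w = K.card * K.card := by
  have h2 := Finset.sum_card_bipartiteAbove_eq_sum_card_bipartiteBelow (s := K * K) (t := K)
    (fun w y => y⁻¹ * w ∈ K)
  have h3 : ∑ w ∈ K * K, RR K w = ∑ y ∈ K, ((K * K).filter (fun w => y⁻¹ * w ∈ K)).card := by
    simpa [Finset.bipartiteAbove, Finset.bipartiteBelow, RR] using h2
  rw [h3, Finset.sum_const_nat (m := K.card)]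
  intro y hy
  apply Finset.card_bij' (fun w _ => y⁻¹ * w) (fun z _ => y * z)
  · intro w hw
    exact (Finset.mem_filter.1 hw).2
  · intro z hz
    exact Finset.mem_filter.2 ⟨Finset.mul_mem_mul hy hz, by simpa using hz⟩
  · intro w _; group
  · intro z _; group

section

set_option linter.unusedSectionVars false

variable {K D : Finset G} {N : Subgroup G} (H : Hyp2 K D N)

include H

theorem Hyp2.disj : Disjoint D D⁻¹ := by
  rw [← Finset.card_union_eq_card_add_card, ← H.sq, H.kk, Finset.card_inv, H.dcard]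
  ring

theorem Hyp2.inv_mem {w : G} (hw : w ∈ K * K) : w⁻¹ ∈ K * K := by
  rw [H.sq, Finset.mem_union, Finset.mem_inv'] at hw
  rw [H.sq, Finset.mem_union, Finset.mem_inv', inv_inv]
  exact hw.symm

/-- Elements of `K²` are not conjugate to their inverses. -/
theorem Hyp2.not_conj {w : G} (hw : w ∈ K * K) (g : G) : g * w * g⁻¹ ≠ w⁻¹ := by
  intro h
  have hd := H.disj
  rw [H.sq, Finset.mem_union, Finset.mem_inv'] at hw
  rw [Finset.disjoint_left] at hd
  rcases hw with h1 | h1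
  · have h2 := H.dinv g w h1
    rw [h] at h2
    exact hd h2 (by rw [Finset.mem_inv', inv_inv]; exact h1)
  · have h2 := H.dinv g _ h1
    have h3 : g * w⁻¹ * g⁻¹ = (g * w * g⁻¹)⁻¹ := by group
    rw [h3, h, inv_inv] at h2
    exact hd h2 (by rw [Finset.mem_inv']; exact h1)

theorem Hyp2.sq_mem {x : G} (hx : x ∈ K) : x * x ∈ K * K := Finset.mul_mem_mul hx hx

/-- The squares of the elements of `K` are distinct. -/
theorem Hyp2.sq_inj {y z : G} (hy : y ∈ K) (hz : z ∈ K) (h : y * y = z * z) : y = z := by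
  have hφ : ∀ g y : G, (fun u : G => u * u) (g * y * g⁻¹) = g * (fun u : G => u * u) y * g⁻¹ := by
    intro g y; group
  have hc : (K.image (fun u : G => u * u)).card = K.card := by
    have h1 := H.sq_mem hy
    rw [H.sq, Finset.mem_union] at h1
    rcases h1 with h1 | h1
    · rw [image_eq_class H.setup.inv H.cls H.dinv H.dcls (fun u : G => u * u) hφ hy h1]
      exact H.dcard
    · rw [image_eq_class H.setup.inv H.cls (inv_inv_set H.dinv) (cls_inv_set H.dcls)
        (fun u : G => u * u) hφ hy h1, Finset.card_inv]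
      exact H.dcard
  exact Finset.card_image_iff.1 hc hy hz h

/-- `yz` is a square or an inverse of a square. -/
theorem Hyp2.prod {w : G} (hw : w ∈ K * K) : (∃ u ∈ K, w = u * u) ∨ (∃ u ∈ K, w = (u * u)⁻¹) := by
  have hφ : ∀ g y : G, (fun u : G => u * u) (g * y * g⁻¹) = g * (fun u : G => u * u) y * g⁻¹ := by
    intro g y; group
  obtain ⟨x, hx⟩ := H.setup.ne
  have h1 := H.sq_mem hx
  rw [H.sq, Finset.mem_union] at h1 hw
  rcases h1 with h1 | h1
  · have h2 := image_eq_class H.setup.inv H.cls H.dinv H.dcls (fun u : G => u * u) hφ hx h1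
    rcases hw with h3 | h3
    · left
      rw [← h2] at h3
      obtain ⟨u, hu, hu2⟩ := Finset.mem_image.1 h3
      exact ⟨u, hu, hu2.symm⟩
    · right
      rw [Finset.mem_inv', ← h2] at h3
      obtain ⟨u, hu, hu2⟩ := Finset.mem_image.1 h3
      exact ⟨u, hu, by rw [show u * u = w⁻¹ from hu2, inv_inv]⟩
  · have h2 := image_eq_class H.setup.inv H.cls (inv_inv_set H.dinv) (cls_inv_set H.dcls)
      (fun u : G => u * u) hφ hx h1
    rcases hw with h3 | h3
    · right
      have h4 : w⁻¹ ∈ D⁻¹ := by rw [Finset.mem_inv', inv_inv]; exact h3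
      rw [← h2] at h4
      obtain ⟨u, hu, hu2⟩ := Finset.mem_image.1 h4
      exact ⟨u, hu, by rw [show u * u = w⁻¹ from hu2, inv_inv]⟩
    · left
      rw [← h2] at h3
      obtain ⟨u, hu, hu2⟩ := Finset.mem_image.1 h3
      exact ⟨u, hu, hu2.symm⟩

theorem Hyp2.RR_add {x : G} (hx : x ∈ K) :
    RR K (x * x) + RR K (x * x)⁻¹ = K.card := by
  have h0 := sum_RR K
  have hKpos : 0 < K.card := Finset.card_pos.2 ⟨x, hx⟩
  have h1 := H.sq_mem hx
  rw [H.sq, Finset.mem_union] at h1
  conv_lhs at h0 => rw [H.sq]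
  rw [Finset.sum_union H.disj] at h0
  rcases h1 with h1 | h1
  · have h2 : (x * x)⁻¹ ∈ D⁻¹ := Finset.inv_mem_inv h1
    rw [Finset.sum_congr rfl (fun w hw => RR_cls H.setup.inv H.dcls hw h1),
      Finset.sum_congr rfl (fun w hw => RR_cls H.setup.inv (cls_inv_set H.dcls) hw h2),
      Finset.sum_const, Finset.sum_const, Finset.card_inv, smul_eq_mul, smul_eq_mul, H.dcard,
      ← mul_add] at h0
    exact Nat.eq_of_mul_eq_mul_left hKpos h0
  · have h2 : (x * x)⁻¹ ∈ D := by rw [← Finset.mem_inv']; exact h1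
    rw [Finset.sum_congr rfl (fun w hw => RR_cls H.setup.inv H.dcls hw h2),
      Finset.sum_congr rfl (fun w hw => RR_cls H.setup.inv (cls_inv_set H.dcls) hw h1),
      Finset.sum_const, Finset.sum_const, Finset.card_inv, smul_eq_mul, smul_eq_mul, H.dcard,
      ← mul_add] at h0
    have := Nat.eq_of_mul_eq_mul_left hKpos h0
    omega

theorem Hyp2.sq_ne {x y : G} (hx : x ∈ K) (hy : y ∈ K) : y * y ≠ (x * x)⁻¹ := by
  intro h
  obtain ⟨g, rfl⟩ := H.cls x hx y hy
  apply H.not_conj (H.sq_mem hx) g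
  rw [← h]; group

/-- The partner `π(y) = y⁻¹ w` of a representation of `w`. -/
theorem Hyp2.partner {w y : G} (hy : y ∈ K) (_hyw : y⁻¹ * w ∈ K) :
    (y⁻¹ * w)⁻¹ * w ∈ K := by
  have h1 : (y⁻¹ * w)⁻¹ * w = (y⁻¹ * w)⁻¹ * y * (y⁻¹ * w)⁻¹⁻¹ := by group
  rw [h1]; exact H.setup.inv _ y hy

theorem Hyp2.two_le_RR {x : G} (hx : x ∈ K) : 2 ≤ RR K (x * x)⁻¹ := by
  have h1 := H.inv_mem (H.sq_mem hx)
  obtain ⟨y, hy, z, hz, hyz⟩ := Finset.mem_mul.1 h1
  have hz' : z = y⁻¹ * (x * x)⁻¹ := by rw [← hyz]; group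
  have hne : y ≠ z := by
    rintro rfl
    exact H.sq_ne hx hy hyz
  have h2 : ({y, z} : Finset G) ⊆ K.filter (fun y => y⁻¹ * (x * x)⁻¹ ∈ K) := by
    intro u hu
    rw [Finset.mem_insert, Finset.mem_singleton] at hu
    rw [Finset.mem_filter]
    rcases hu with rfl | rfl
    · exact ⟨hy, by rw [← hz']; exact hz⟩
    · refine ⟨hz, ?_⟩
      have h3 := H.partner hy (w := (x * x)⁻¹) (by rw [← hz']; exact hz)
      rw [← hz'] at h3; exact h3
  have h3 := Finset.card_le_card h2
  rwa [Finset.card_pair hne] at h3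

theorem Hyp2.RR_ne_two {x : G} (hx : x ∈ K) : RR K (x * x) ≠ 2 ∧ 1 ≤ RR K (x * x) := by
  have hxr : x ∈ K.filter (fun y => y⁻¹ * (x * x) ∈ K) :=
    Finset.mem_filter.2 ⟨hx, by simpa using hx⟩
  refine ⟨?_, ?_⟩
  · intro h
    have h1 : 0 < ((K.filter (fun y => y⁻¹ * (x * x) ∈ K)).erase x).card := by
      rw [Finset.card_erase_of_mem hxr]
      unfold RR at h
      rw [h]; norm_num
    obtain ⟨y, hy⟩ := Finset.card_pos.1 h1
    rw [Finset.mem_erase, Finset.mem_filter] at hy
    obtain ⟨hyx, hyK, hyz⟩ := hy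
    set z := y⁻¹ * (x * x) with hz
    have hzy : z ≠ y := by
      intro h2
      apply hyx
      apply H.sq_inj hyK hx
      have : y * z = x * x := by rw [hz]; group
      rw [← this, h2]
    have hzx : z ≠ x := by
      intro h2
      apply hyx
      have h3 : y * z = x * x := by rw [hz]; group
      rw [h2] at h3
      exact mul_right_cancel h3
    have h2 : ({x, y, z} : Finset G) ⊆ K.filter (fun y => y⁻¹ * (x * x) ∈ K) := by
      intro u hu
      simp only [Finset.mem_insert, Finset.mem_singleton] at hu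
      rcases hu with rfl | rfl | rfl
      · exact hxr
      · exact Finset.mem_filter.2 ⟨hyK, hyz⟩
      · exact Finset.mem_filter.2 ⟨hyz, H.partner hyK hyz⟩
    have h3 := Finset.card_le_card h2
    rw [Finset.card_eq_three.2 ⟨x, y, z, Ne.symm hyx, Ne.symm hzx, Ne.symm hzy, rfl⟩] at h3
    unfold RR at h
    omega
  · unfold RR
    exact Finset.card_pos.2 ⟨x, hxr⟩

theorem Hyp2.three_le : 3 ≤ K.card := by
  obtain ⟨x, hx⟩ := H.setup.ne
  have h1 := H.RR_add hx
  have h2 := H.two_le_RR hx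
  have h3 := (H.RR_ne_two hx).2
  omega

/-- If `|K| ≤ 4` then squares have only one representation. -/
theorem Hyp2.RR_one (h4 : K.card ≤ 4) {x : G} (hx : x ∈ K) :
    RR K (x * x) = 1 ∧ RR K (x * x)⁻¹ = K.card - 1 := by
  have h1 := H.RR_add hx
  have h2 := H.two_le_RR hx
  have h3 := H.RR_ne_two hx
  omega

/-- If `|K| ≤ 4` then `y z` is an inverse of a square if `y ≠ z`. -/
theorem Hyp2.prod_ne (h4 : K.card ≤ 4) {y z : G} (hy : y ∈ K) (hz : z ∈ K) (hyz : y ≠ z) :
    ∃ u ∈ K, y * z = (u * u)⁻¹ := by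
  rcases H.prod (Finset.mul_mem_mul hy hz) with ⟨u, hu, h⟩ | h
  · exfalso
    have h1 := (H.RR_one h4 hu).1
    unfold RR at h1
    rw [Finset.card_eq_one] at h1
    obtain ⟨a, ha⟩ := h1
    have h2 : u ∈ K.filter (fun y => y⁻¹ * (u * u) ∈ K) :=
      Finset.mem_filter.2 ⟨hu, by simpa using hu⟩
    have h3 : y ∈ K.filter (fun y => y⁻¹ * (u * u) ∈ K) :=
      Finset.mem_filter.2 ⟨hy, by rw [← h]; simpa using hz⟩
    rw [ha, Finset.mem_singleton] at h2 h3
    rw [← h2] at h3
    rw [h3] at h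
    have h5 := mul_left_cancel h
    exact hyz (h3.trans h5.symm)
  · exact h

/-- `|K| = 4` is impossible. -/
theorem Hyp2.ne_four : K.card ≠ 4 := by
  intro h4
  obtain ⟨u, hu⟩ := H.setup.ne
  set w := (u * u)⁻¹ with hw
  set R := K.filter (fun y => y⁻¹ * w ∈ K) with hR
  have hRcard : R.card = 3 := by
    have := (H.RR_one (by omega) hu).2
    unfold RR at this
    rw [hR, this, h4]
  have hRK : ∀ y ∈ R, y ∈ K := fun y hy => (Finset.mem_filter.1 hy).1
  have hπ : ∀ y ∈ R, y⁻¹ * w ∈ R := by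
    intro y hy
    obtain ⟨h1, h2⟩ := Finset.mem_filter.1 hy
    exact Finset.mem_filter.2 ⟨h2, H.partner h1 h2⟩
  have hπ1 : ∀ y ∈ R, y⁻¹ * w ≠ y := by
    intro y hy h
    apply H.sq_ne hu (hRK y hy)
    rw [← hw]
    have : y * (y⁻¹ * w) = w := by group
    rw [h] at this; exact this
  have hππ : ∀ y : G, (y⁻¹ * w)⁻¹ * w = u * u * y * (u * u)⁻¹ := by
    intro y
    have h0 : (y⁻¹ * w)⁻¹ * w = w⁻¹ * y * w := by group
    rw [h0, hw, inv_inv]
  have hinj : ∀ y z : G, y⁻¹ * w = z⁻¹ * w → y = z := by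
    intro y z h; simpa using h
  have hπ2 : ∀ y ∈ R, (y⁻¹ * w)⁻¹ * w ≠ y := by
    intro y hy h
    have h1 : 0 < ((R.erase y).erase (y⁻¹ * w)).card := by
      rw [Finset.card_erase_of_mem (Finset.mem_erase.2 ⟨hπ1 y hy, hπ y hy⟩),
        Finset.card_erase_of_mem hy]
      omega
    obtain ⟨r, hr⟩ := Finset.card_pos.1 h1
    rw [Finset.mem_erase, Finset.mem_erase] at hr
    obtain ⟨hr1, hr2, hr3⟩ := hr
    -- R = {y, π y, r}
    have h2 : ({y, y⁻¹ * w, r} : Finset G) = R := by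
      apply Finset.eq_of_subset_of_card_le
      · intro v hv
        simp only [Finset.mem_insert, Finset.mem_singleton] at hv
        rcases hv with rfl | rfl | rfl
        · exact hy
        · exact hπ y hy
        · exact hr3
      · rw [hRcard, Finset.card_eq_three.2 ⟨y, y⁻¹ * w, r, Ne.symm (hπ1 y hy), Ne.symm hr2,
          Ne.symm hr1, rfl⟩]
    have h3 := hπ r hr3
    rw [← h2] at h3
    simp only [Finset.mem_insert, Finset.mem_singleton] at h3
    rcases h3 with h3 | h3 | h3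
    · apply hr1
      apply hinj
      rw [h3, h]
    · exact hr2 (hinj _ _ h3)
    · exact hπ1 r hr3 h3
  have huR : u ∉ R := by
    intro h
    apply hπ2 u h
    rw [hππ]; group
  have hReq : R = K.erase u := by
    apply Finset.eq_of_subset_of_card_le
    · intro v hv
      refine Finset.mem_erase.2 ⟨?_, hRK v hv⟩
      rintro rfl; exact huR hv
    · rw [Finset.card_erase_of_mem hu, hRcard, h4]
  obtain ⟨y, hy⟩ : R.Nonempty := by rw [← Finset.card_pos]; omega
  have hyu : y ≠ u := by rintro rfl; exact huR hy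
  have h2 : ({y, y⁻¹ * w, (y⁻¹ * w)⁻¹ * w} : Finset G) = R := by
    apply Finset.eq_of_subset_of_card_le
    · intro v hv
      simp only [Finset.mem_insert, Finset.mem_singleton] at hv
      rcases hv with rfl | rfl | rfl
      · exact hy
      · exact hπ y hy
      · exact hπ _ (hπ y hy)
    · rw [hRcard, Finset.card_eq_three.2 ⟨y, y⁻¹ * w, (y⁻¹ * w)⁻¹ * w, Ne.symm (hπ1 y hy),
        Ne.symm (hπ2 y hy), Ne.symm (hπ1 _ (hπ y hy)), rfl⟩]
  have h3 : u * y * u⁻¹ ∈ R := by
    rw [hReq, Finset.mem_erase]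
    refine ⟨?_, H.setup.inv u y (hRK y hy)⟩
    intro h
    apply hyu
    have : y = u⁻¹ * (u * y * u⁻¹) * u := by group
    rw [this, h]; group
  have hne1 : u * y * u⁻¹ ≠ y := by
    intro h
    apply hπ2 y hy
    rw [hππ]
    have h5 : u * u * y * (u * u)⁻¹ = u * (u * y * u⁻¹) * u⁻¹ := by group
    rw [h5, h, h]
  rw [← h2] at h3
  simp only [Finset.mem_insert, Finset.mem_singleton] at h3
  rcases h3 with h3 | h3 | h3
  · exact hne1 h3
  · -- `(y u)² = 1`
    have h5 : (y * u)⁻¹ = y * u := by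
      apply inv_eq_of_mul_eq_one_left
      have h6 : y * u * (y * u) = y * (u * y * u⁻¹) * (u * u) := by group
      rw [h6, h3, hw]; group
    apply H.not_conj (Finset.mul_mem_mul (hRK y hy) hu) 1
    rw [h5]; group
  · rw [hππ] at h3
    apply hne1
    have h5 : u * u * y * (u * u)⁻¹ = u * (u * y * u⁻¹) * u⁻¹ := by group
    rw [h5] at h3
    have h6 : u⁻¹ * (u * y * u⁻¹) * u = u⁻¹ * (u * (u * y * u⁻¹) * u⁻¹) * u := by
      rw [← h3]
    have h7 : u⁻¹ * (u * y * u⁻¹) * u = y := by group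
    have h8 : u⁻¹ * (u * (u * y * u⁻¹) * u⁻¹) * u = u * y * u⁻¹ := by group
    rw [h7, h8] at h6
    exact h6.symm

end

end KDD
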