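import Pool.Agent.KDD.Small

/-!
# `K ^ n = D ∪ D⁻¹` (MP_846fd0_al): classes with three elements; `n = 3`
-/

namespace KDD

open Finset Pointwise

variable {G : Type*} [Group G] [Fintype G] [DecidableEq G]

omit [DecidableEq G] in
theorem fs_le_of_le {N M : Subgroup G} (h : N ≤ M) : (fs N).card ≤ (fs M).card :=
  Finset.card_le_card (fun g hg => mem_fs.2 (h (mem_fs.1 hg)))

theorem card_le_of_pow {N : Subgroup G} {g : G} {k : ℕ} (hk : 0 < k)
    (h : N ≤ Subgroup.zpowers g) (hg : g ^ k = 1) : (fs N).card ≤ k := by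
  refine (fs_le_of_le h).trans ?_
  rw [fs_card_zpowers]
  exact orderOf_le_of_pow_eq_one hk hg

section

variable {K D : Finset G} {N : Subgroup G} (H : Hyp2 K D N)

include H

/-- If `|K| = 3` then `|N| ≤ 7`. -/
theorem Hyp2.three (h3 : K.card = 3) : (fs N).card ≤ 7 := by
  -- `K` is commutative
  have hcomm : ∀ y ∈ K, ∀ z ∈ K, y * z = z * y := by
    intro y hy z hz
    by_cases hyz : y = z
    · rw [hyz]
    obtain ⟨u, hu, huw⟩ := H.prod_ne (by omega) hy hz hyz
    set w := (u * u)⁻¹ with hw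
    have hR : (K.filter (fun y => y⁻¹ * w ∈ K)).card = 2 := by
      have := (H.RR_one (by omega) hu).2
      unfold RR at this
      rw [this, h3]
    have hz' : z = y⁻¹ * w := by rw [← huw]; group
    have hyR : y ∈ K.filter (fun y => y⁻¹ * w ∈ K) :=
      Finset.mem_filter.2 ⟨hy, by rw [← hz']; exact hz⟩
    have hzR : z ∈ K.filter (fun y => y⁻¹ * w ∈ K) := by
      refine Finset.mem_filter.2 ⟨hz, ?_⟩
      have := H.partner hy (w := w) (by rw [← hz']; exact hz)
      rwa [← hz'] at this
    have htR : z⁻¹ * w ∈ K.filter (fun y => y⁻¹ * w ∈ K) := by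
      obtain ⟨h1, h2⟩ := Finset.mem_filter.1 hzR
      exact Finset.mem_filter.2 ⟨h2, H.partner h1 h2⟩
    have hset : ({y, z} : Finset G) = K.filter (fun y => y⁻¹ * w ∈ K) := by
      apply Finset.eq_of_subset_of_card_le
      · intro v hv
        rw [Finset.mem_insert, Finset.mem_singleton] at hv
        rcases hv with rfl | rfl
        · exact hyR
        · exact hzR
      · rw [hR, Finset.card_pair hyz]
    rw [← hset, Finset.mem_insert, Finset.mem_singleton] at htR
    rcases htR with h | h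
    · rw [huw, ← h]; group
    · exfalso
      apply H.sq_ne hu hz
      rw [← hw]
      have : z * (z⁻¹ * w) = w := by group
      rw [h] at this; exact this
  -- a pair with `z = y⁻³`
  have hpair : ∃ y ∈ K, y⁻¹ ^ 3 ∈ K ∧ y⁻¹ ^ 3 ≠ y := by
    obtain ⟨y, hy, z, hz, hyz⟩ := Finset.one_lt_card.1 (show 1 < K.card by omega)
    obtain ⟨u, hu, huw⟩ := H.prod_ne (by omega) hy hz hyz
    have hcu : u * y = y * u := hcomm u hu y hy
    have hcz : u * z = z * u := hcomm u hu z hz
    have hcyz : y * z = z * y := hcomm y hy z hz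
    by_cases huy : u = y
    · subst huy
      refine ⟨u, hu, ?_⟩
      have h1 : u⁻¹ ^ 3 = z := by
        have h2 : z = u⁻¹ * (u * z) := by group
        rw [h2, huw]
        have : (u * u)⁻¹ = u⁻¹ ^ 2 := by rw [pow_two, mul_inv_rev]
        rw [this, ← pow_succ']
      rw [h1]; exact ⟨hz, Ne.symm hyz⟩
    by_cases huz : u = z
    · subst huz
      refine ⟨u, hu, ?_⟩
      have h1 : u⁻¹ ^ 3 = y := by
        have h2 : y = (y * u) * u⁻¹ := by group
        rw [h2, huw]
        have : (u * u)⁻¹ = u⁻¹ ^ 2 := by rw [pow_two, mul_inv_rev]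
        rw [this, ← pow_succ]
      rw [h1]; exact ⟨hy, hyz⟩
    · exfalso
      -- K = {u, y, z}
      have hKeq : ({u, y, z} : Finset G) = K := by
        apply Finset.eq_of_subset_of_card_le
        · intro v hv
          simp only [Finset.mem_insert, Finset.mem_singleton] at hv
          rcases hv with rfl | rfl | rfl
          · exact hu
          · exact hy
          · exact hz
        · rw [h3, Finset.card_eq_three.2 ⟨u, y, z, huy, huz, hyz, rfl⟩]
      obtain ⟨g, hg⟩ := H.cls u hu y hy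
      have h1 := H.setup.inv g y hy
      have h2 := H.setup.inv g z hz
      have hprod : (g * y * g⁻¹) * (g * z * g⁻¹) = (y * y)⁻¹ := by
        have : (g * y * g⁻¹) * (g * z * g⁻¹) = g * (y * z) * g⁻¹ := by group
        rw [this, huw]
        have h5 : g * (u * u)⁻¹ * g⁻¹ = ((g * u * g⁻¹) * (g * u * g⁻¹))⁻¹ := by group
        rw [h5, hg]
      have hne1 : g * y * g⁻¹ ≠ y := by
        intro h; apply huy
        have : g * y * g⁻¹ = g * u * g⁻¹ := by rw [h, hg]
        simpa using this.symm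
      have hne2 : g * z * g⁻¹ ≠ y := by
        intro h; apply huz
        have : g * z * g⁻¹ = g * u * g⁻¹ := by rw [h, hg]
        simpa using this.symm
      have hne3 : g * y * g⁻¹ ≠ g * z * g⁻¹ := by
        intro h; apply hyz; simpa using h
      have hfin : u * z = (y * y)⁻¹ := by
        rw [← hKeq] at h1 h2
        simp only [Finset.mem_insert, Finset.mem_singleton] at h1 h2
        rcases h1 with h1 | h1 | h1
        · rcases h2 with h2 | h2 | h2
          · exact absurd (h1.trans h2.symm) hne3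
          · exact absurd h2 hne2
          · rw [← hprod, h1, h2]
        · exact absurd h1 hne1
        · rcases h2 with h2 | h2 | h2
          · rw [← hprod, h1, h2, hcz]
          · exact absurd h2 hne2
          · exact absurd (h1.trans h2.symm) hne3
      -- y z u u = 1, u z y y = 1
      apply huy
      have e1 : y * z * (u * u) = 1 := by rw [huw]; group
      have e2 : u * z * (y * y) = 1 := by rw [hfin]; group
      have e3 : y * z * (u * u) = (z * u * y) * u := by
        calc y * z * (u * u) = (y * z) * u * u := by group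
          _ = z * (y * u) * u := by rw [hcyz]; group
          _ = z * (u * y) * u := by rw [hcu]
          _ = (z * u * y) * u := by group
      have e4 : u * z * (y * y) = (z * u * y) * y := by
        rw [hcz]; group
      rw [e3, ← e2, e4] at e1
      exact mul_left_cancel e1
  obtain ⟨a0, ha0, ha0', ha0ne⟩ := hpair
  have hf : ∀ y ∈ K, y⁻¹ ^ 3 ∈ K ∧ y⁻¹ ^ 3 ≠ y := by
    intro y hy
    obtain ⟨g, rfl⟩ := H.cls a0 ha0 y hy
    have h1 : (g * a0 * g⁻¹)⁻¹ ^ 3 = g * a0⁻¹ ^ 3 * g⁻¹ := by
      rw [← conj_pow]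
      congr 1
      group
    rw [h1]
    refine ⟨H.setup.inv g _ ha0', ?_⟩
    intro h
    apply ha0ne
    simpa using h
  have hff : ∀ y ∈ K, (y⁻¹ ^ 3)⁻¹ ^ 3 ≠ y := by
    intro y hy h
    obtain ⟨h1, h2⟩ := hf y hy
    set z := y⁻¹ ^ 3 with hz
    apply h2
    symm
    apply H.sq_inj hy h1
    -- y z = y⁻², z y = z⁻²
    have e1 : y * z = (y * y)⁻¹ := by
      have : (y * y)⁻¹ = y * y⁻¹ ^ 3 := by group
      rw [this, hz]
    have e2 : z * y = (z * z)⁻¹ := by
      have : (z * z)⁻¹ = z * z⁻¹ ^ 3 := by group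
      rw [this, h]
    have e3 := hcomm y hy z h1
    rw [e1, e2] at e3
    exact inv_injective e3
  set b := a0⁻¹ ^ 3 with hb
  set c := b⁻¹ ^ 3 with hc
  have hbK := (hf a0 ha0).1
  have hba := (hf a0 ha0).2
  rw [← hb] at hbK hba
  have hcK := (hf b hbK).1
  have hcb := (hf b hbK).2
  rw [← hc] at hcK hcb
  have hca := hff a0 ha0
  rw [← hb, ← hc] at hca
  have hKeq : ({a0, b, c} : Finset G) = K := by
    apply Finset.eq_of_subset_of_card_le
    · intro v hv
      simp only [Finset.mem_insert, Finset.mem_singleton] at hv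
      rcases hv with rfl | rfl | rfl
      · exact ha0
      · exact hbK
      · exact hcK
    · rw [h3, Finset.card_eq_three.2 ⟨a0, b, c, Ne.symm hba, Ne.symm hca, Ne.symm hcb, rfl⟩]
  have hca0 : c⁻¹ ^ 3 = a0 := by
    have h1 := hf c hcK
    have h2 := hff b hbK
    rw [← hc] at h2
    have h4 := h1.1
    rw [← hKeq] at h4
    simp only [Finset.mem_insert, Finset.mem_singleton] at h4
    rcases h4 with h4 | h4 | h4
    · exact h4
    · exact absurd h4 h2
    · exact absurd h4 h1.2
  have hcz : c = a0 ^ 9 := by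
    rw [hc, hb]; group
  have h28 : a0 ^ 28 = 1 := by
    rw [hcz] at hca0
    have h1 : a0 ^ 28 = a0 * ((a0 ^ 9)⁻¹ ^ 3)⁻¹ := by group
    rw [h1, hca0, mul_inv_cancel]
  apply card_le_of_pow (g := a0 ^ 4) (by norm_num)
  · apply H.gen
    have hall : ∀ k ∈ K, ∃ j : ℤ, k = a0 * (a0 ^ 4) ^ j := by
      intro k hk
      rw [← hKeq] at hk
      simp only [Finset.mem_insert, Finset.mem_singleton] at hk
      rcases hk with h | h | h
      · exact ⟨0, by rw [h]; group⟩
      · refine ⟨-1, ?_⟩
        rw [h, hb]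
        group
      · refine ⟨2, ?_⟩
        rw [h, hcz]; group
    intro k hk l hl
    obtain ⟨i, hi⟩ := hall k hk
    obtain ⟨j, hj⟩ := hall l hl
    rw [Subgroup.mem_zpowers_iff]
    refine ⟨j - i, ?_⟩
    rw [hi, hj]
    group
  · rw [← pow_mul]; exact h28

end

/-- `n = 3` and `|K| = 2`: then `|N| ≤ 4`. -/
theorem three_two {K D : Finset G} {N : Subgroup G} (H : HypN K D N 3)
    (h2 : K.card = 2) : (fs N).card ≤ 4 := by
  obtain ⟨u, v, huv, hK⟩ := Finset.card_eq_two.1 h2
  have hu : u ∈ K := by rw [hK]; simp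
  have hv : v ∈ K := by rw [hK]; simp
  have hKmem : ∀ y ∈ K, y = u ∨ y = v := by
    intro y hy; rw [hK] at hy; simpa using hy
  have hcomm : u * v = v * u := by
    rcases hKmem _ (H.setup.inv u v hv) with h | h
    · exfalso; apply huv
      have : v = u⁻¹ * (u * v * u⁻¹) * u := by group
      rw [this, h]; group
    · have : u * v = u * v * u⁻¹ * u := by group
      rw [this, h]
  obtain ⟨g, hg⟩ := H.cls u hu v hv
  have hg2 : g * v * g⁻¹ = u := by
    rcases hKmem _ (H.setup.inv g v hv) with h | h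
    · exact h
    · exfalso; apply huv
      have : g * v * g⁻¹ = g * u * g⁻¹ := by rw [h, hg]
      simpa using this.symm
  have hNle : N ≤ Subgroup.zpowers (u⁻¹ * v) := by
    apply H.gen
    intro k hk l hl
    rcases hKmem k hk with rfl | rfl <;> rcases hKmem l hl with rfl | rfl
    · rw [inv_mul_cancel]; exact Subgroup.one_mem _
    · exact Subgroup.mem_zpowers _
    · have : k⁻¹ * l = (l⁻¹ * k)⁻¹ := by group
      rw [this]; exact Subgroup.inv_mem _ (Subgroup.mem_zpowers _)
    · rw [inv_mul_cancel]; exact Subgroup.one_mem _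
  have hC : Commute u v := hcomm
  have hφ : ∀ g y : G, (fun u : G => u ^ 3) (g * y * g⁻¹) = g * (fun u : G => u ^ 3) y * g⁻¹ := by
    intro g y; simp only [conj_pow]
  -- all elements of `K ^ 3` are `u ^ 3, v ^ 3` or inverses
  have hmem : u ^ 2 * v ∈ D ∪ D⁻¹ := by
    rw [← H.pw, pow_succ, pow_two, pow_two]
    exact Finset.mul_mem_mul (Finset.mul_mem_mul hu hu) hv
  have hmem3 : u ^ 3 ∈ D ∪ D⁻¹ := by
    rw [← H.pw]; exact Finset.pow_mem_pow hu
  have hcases : u ^ 2 * v = u ^ 3 ∨ u ^ 2 * v = v ^ 3 ∨ u ^ 2 * v = (u ^ 3)⁻¹ ∨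
      u ^ 2 * v = (v ^ 3)⁻¹ := by
    have himg : ∀ w ∈ K.image (fun u : G => u ^ 3), w = u ^ 3 ∨ w = v ^ 3 := by
      intro w hw
      obtain ⟨y, hy, rfl⟩ := Finset.mem_image.1 hw
      rcases hKmem y hy with rfl | rfl
      · exact Or.inl rfl
      · exact Or.inr rfl
    rw [Finset.mem_union] at hmem hmem3
    rcases hmem3 with h3 | h3
    · have h4 := image_eq_class H.setup.inv H.cls H.dinv H.dcls (fun u : G => u ^ 3) hφ hu h3
      rcases hmem with h5 | h5
      · rw [← h4] at h5
        rcases himg _ h5 with h | h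
        · exact Or.inl h
        · exact Or.inr (Or.inl h)
      · rw [Finset.mem_inv', ← h4] at h5
        rcases himg _ h5 with h | h
        · right; right; left; rw [← h, inv_inv]
        · right; right; right; rw [← h, inv_inv]
    · have h4 := image_eq_class H.setup.inv H.cls (inv_inv_set H.dinv) (cls_inv_set H.dcls)
        (fun u : G => u ^ 3) hφ hu h3
      rcases hmem with h5 | h5
      · have h6 : (u ^ 2 * v)⁻¹ ∈ D⁻¹ := Finset.inv_mem_inv h5
        rw [← h4] at h6
        rcases himg _ h6 with h | h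
        · right; right; left; rw [← h, inv_inv]
        · right; right; right; rw [← h, inv_inv]
      · rw [← h4] at h5
        rcases himg _ h5 with h | h
        · exact Or.inl h
        · exact Or.inr (Or.inl h)
  have hsq : u ^ 2 = v ^ 2 → (fs N).card ≤ 4 := by
    intro h
    refine (card_le_of_pow (k := 2) (by norm_num) hNle ?_).trans (by norm_num)
    rw [(hC.inv_left).mul_pow, ← h]; group
  rcases hcases with h | h | h | h
  · exfalso; apply huv
    have h5 : u ^ 2 * v = u ^ 2 * u := by rw [h, pow_succ]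
    exact (mul_left_cancel h5).symm
  · apply hsq
    have h5 : u ^ 2 * v = v ^ 2 * v := by rw [h, pow_succ]
    exact mul_right_cancel h5
  · -- v = u⁻⁵
    have e1 : v = u⁻¹ ^ 5 := by
      have : v = (u ^ 2)⁻¹ * (u ^ 2 * v) := by group
      rw [this, h]; group
    have e2 : u = v⁻¹ ^ 5 := by
      have h5 : g * v * g⁻¹ = (g * u * g⁻¹)⁻¹ ^ 5 := by
        rw [e1]
        have : (g * u * g⁻¹)⁻¹ = g * u⁻¹ * g⁻¹ := by group
        rw [this, conj_pow]
      rwa [hg, hg2] at h5
    have e3 : u ^ 24 = 1 := by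
      have h5 : u = u ^ 25 := by
        rw [e1] at e2
        have : (u⁻¹ ^ 5)⁻¹ ^ 5 = u ^ 25 := by group
        rw [this] at e2; exact e2
      have h6 : u ^ 25 = u * u ^ 24 := by rw [← pow_succ']
      rw [h6] at h5
      have h7 : u * 1 = u * u ^ 24 := by rw [mul_one]; exact h5
      exact (mul_left_cancel h7).symm
    apply card_le_of_pow (by norm_num) hNle
    rw [e1]
    have : (u⁻¹ * u⁻¹ ^ 5) ^ 4 = (u ^ 24)⁻¹ := by group
    rw [this, e3, inv_one]
  · -- u² v = v⁻³
    have e1 : v ^ 4 = (u ^ 2)⁻¹ := by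
      have h5 : v ^ 4 = v * v ^ 3 := by rw [← pow_succ']
      have h6 : v = (u ^ 2)⁻¹ * (u ^ 2 * v) := by group
      rw [h5]
      nth_rewrite 1 [h6]
      rw [h]; group
    have e2 : u ^ 4 = (v ^ 2)⁻¹ := by
      have h5 : (g * v * g⁻¹) ^ 4 = ((g * u * g⁻¹) ^ 2)⁻¹ := by
        rw [conj_pow, conj_pow, e1]; group
      rwa [hg, hg2] at h5
    apply hsq
    have h5 : u ^ 8 = u ^ 2 := by
      have : u ^ 8 = (u ^ 4) ^ 2 := by rw [← pow_mul]
      rw [this, e2]
      have : (v ^ 2)⁻¹ ^ 2 = (v ^ 4)⁻¹ := by group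
      rw [this, e1, inv_inv]
    have h6 : u ^ 6 = 1 := by
      have h7 : u ^ 8 = u ^ 2 * u ^ 6 := by rw [← pow_add]
      rw [h7] at h5
      have h8 : u ^ 2 * u ^ 6 = u ^ 2 * 1 := by rw [mul_one]; exact h5
      exact mul_left_cancel h8
    have h7 : v ^ 2 = (u ^ 4)⁻¹ := by rw [e2, inv_inv]
    rw [h7]
    have h8 : (u ^ 4)⁻¹ = (u ^ 6)⁻¹ * u ^ 2 := by group
    rw [h8, h6, inv_one, one_mul]

end KDD
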