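import Pool.Agent.KDD.Per

/-!
# `K ^ n = D ∪ D⁻¹` (MP_846fd0_al): `K` does not meet exactly two cosets
-/

namespace KDD

open Finset Pointwise

variable {G : Type*} [Group G] [Fintype G] [DecidableEq G]

open Classical in
/-- If `K` meets exactly two cosets of the normal subgroup `L` then `|N| ≤ 2 |L|`. -/
theorem two {K D : Finset G} {N : Subgroup G} (H : Hyp2 K D N) (L : Subgroup G) [L.Normal]
    (ht : (K.image (QuotientGroup.mk' L)).card = 2) : (fs N).card ≤ 2 * (fs L).card := by
  set π := QuotientGroup.mk' L with hπ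
  have hπeq : ∀ y z : G, π y = π z ↔ y⁻¹ * z ∈ L := by
    intro y z
    rw [hπ, QuotientGroup.mk'_apply, QuotientGroup.mk'_apply]
    exact QuotientGroup.eq
  obtain ⟨a, b, hab, hKab⟩ := Finset.card_eq_two.1 ht
  have ha : a ∈ K.image π := by rw [hKab]; simp
  have hb : b ∈ K.image π := by rw [hKab]; simp
  obtain ⟨u, hu, rfl⟩ := Finset.mem_image.1 ha
  obtain ⟨v, hv, rfl⟩ := Finset.mem_image.1 hb
  have hmem : ∀ k ∈ K, π k = π u ∨ π k = π v := by
    intro k hk
    have : π k ∈ K.image π := Finset.mem_image_of_mem _ hk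
    rw [hKab] at this; simpa using this
  -- commutation
  have hcomm : π u * π v = π v * π u := by
    have h1 : π (u * v * u⁻¹) = π u ∨ π (u * v * u⁻¹) = π v := hmem _ (H.setup.inv u v hv)
    simp only [map_mul, map_inv] at h1
    rcases h1 with h | h
    · exfalso; apply hab
      have h2 : π v = (π u)⁻¹ * (π u * π v * (π u)⁻¹) * π u := by group
      rw [h] at h2; rw [h2]; group
    · have h2 : π u * π v = (π u * π v * (π u)⁻¹) * π u := by group
      rw [h2, h]
  -- `uv` is central modulo `L`
  have hcen : ∀ g : G, π g * (π u * π v) * (π g)⁻¹ = π u * π v := by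
    intro g
    have h1 : π (g * u * g⁻¹) = π u ∨ π (g * u * g⁻¹) = π v := hmem _ (H.setup.inv g u hu)
    have h2 : π (g * v * g⁻¹) = π u ∨ π (g * v * g⁻¹) = π v := hmem _ (H.setup.inv g v hv)
    have h3 : π g * (π u * π v) * (π g)⁻¹ = π (g * u * g⁻¹) * π (g * v * g⁻¹) := by
      simp only [map_mul, map_inv]; group
    have h4 : π (g * u * g⁻¹) ≠ π (g * v * g⁻¹) := by
      intro h
      apply hab
      simp only [map_mul, map_inv] at h
      simpa using h
    rw [h3]
    rcases h1 with h1 | h1 <;> rcases h2 with h2 | h2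
    · exact absurd (h1.trans h2.symm) h4
    · rw [h1, h2]
    · rw [h1, h2, hcomm]
    · exact absurd (h1.trans h2.symm) h4
  have huv : u * v ∈ D ∪ D⁻¹ := by rw [← H.sq]; exact Finset.mul_mem_mul hu hv
  -- everything in `K * K` is central modulo `L`
  have hcen2 : ∀ w ∈ K * K, ∀ g : G, π g * π w * (π g)⁻¹ = π w := by
    -- conjugates of uv
    have key : ∀ w, (∃ h : G, h * (u * v) * h⁻¹ = w) → ∀ g : G, π g * π w * (π g)⁻¹ = π w := by
      rintro w ⟨h, rfl⟩ g
      have h1 : π (h * (u * v) * h⁻¹) = π u * π v := by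
        simp only [map_mul, map_inv]; exact hcen h
      rw [h1]; exact hcen g
    have key2 : ∀ w, (∃ h : G, h * (u * v) * h⁻¹ = w⁻¹) →
        ∀ g : G, π g * π w * (π g)⁻¹ = π w := by
      intro w hw g
      have h1 := key w⁻¹ hw g
      rw [map_inv] at h1
      have h2 : π g * π w * (π g)⁻¹ = (π g * (π w)⁻¹ * (π g)⁻¹)⁻¹ := by group
      rw [h2, h1, inv_inv]
    intro w hw
    rw [H.sq] at hw
    rcases Finset.mem_union.1 huv with h | h <;> rcases Finset.mem_union.1 hw with h' | h'
    · exact key w (H.dcls _ h _ h')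
    · exact key2 w (H.dcls _ h _ (Finset.mem_inv'.1 h'))
    · apply key2 w
      apply cls_inv_set H.dcls _ h _
      rw [Finset.mem_inv', inv_inv]; exact h'
    · exact key w (cls_inv_set H.dcls _ h _ h')
  have hsq : π v * π v = π u * π u := by
    obtain ⟨g, hg⟩ := H.cls u hu v hv
    have h1 := hcen2 (u * u) (Finset.mul_mem_mul hu hu) g
    rw [← hg]
    simp only [map_mul, map_inv] at h1 ⊢
    have h2 : π g * π u * (π g)⁻¹ * (π g * π u * (π g)⁻¹) = π g * (π u * π u) * (π g)⁻¹ := by
      group
    rw [h2]; exact h1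
  set c := (π u)⁻¹ * π v with hc
  have hc2 : c * c = 1 := by
    have h1 : π v * (π u)⁻¹ = (π u)⁻¹ * π v := by
      have h2 : π v * (π u)⁻¹ = (π u)⁻¹ * (π u * π v) * (π u)⁻¹ := by group
      rw [h2, hcomm]; group
    calc c * c = (π u)⁻¹ * (π v * (π u)⁻¹) * π v := by rw [hc]; group
      _ = (π u)⁻¹ * ((π u)⁻¹ * π v) * π v := by rw [h1]
      _ = (π u)⁻¹ * (π u)⁻¹ * (π v * π v) := by group
      _ = 1 := by rw [hsq]; group
  have hcinv : c⁻¹ = c := inv_eq_of_mul_eq_one_left hc2
  let M : Subgroup G :=
    { carrier := {g | π g = 1 ∨ π g = c}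
      mul_mem' := by
        rintro x y hx hy
        simp only [Set.mem_ofPred_eq, map_mul] at hx hy ⊢
        rcases hx with hx | hx <;> rcases hy with hy | hy <;> rw [hx, hy]
        · left; simp
        · right; simp
        · right; simp
        · left; exact hc2
      one_mem' := by left; simp
      inv_mem' := by
        rintro x hx
        simp only [Set.mem_ofPred_eq, map_inv] at hx ⊢
        rcases hx with hx | hx <;> rw [hx]
        · left; simp
        · right; exact hcinv }
  have hNM : N ≤ M := by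
    apply H.gen M
    intro k hk l hl
    change π (k⁻¹ * l) = 1 ∨ π (k⁻¹ * l) = c
    rw [map_mul, map_inv]
    rcases hmem k hk with h1 | h1 <;> rcases hmem l hl with h2 | h2 <;> rw [h1, h2]
    · left; group
    · right; rfl
    · right
      rw [← hcinv, hc]; group
    · left; group
  have h1 : (fs M).card ≤ (fs L).card * ((fs M).image π).card := by
    apply Finset.card_le_mul_card_image
    intro w hw
    obtain ⟨w', hw', rfl⟩ := Finset.mem_image.1 hw
    have h5 : (fs M).filter (fun b => π b = π w') ⊆ {w'} * fs L := by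
      intro b hb
      rw [mem_left, mem_fs]
      exact (hπeq w' b).1 (Finset.mem_filter.1 hb).2.symm
    have h6 := Finset.card_le_card h5
    rwa [Finset.card_singleton_mul] at h6
  have h2 : ((fs M).image π).card ≤ 2 := by
    have h3 : (fs M).image π ⊆ {1, c} := by
      intro w hw
      obtain ⟨w', hw', rfl⟩ := Finset.mem_image.1 hw
      have : π w' = 1 ∨ π w' = c := mem_fs.1 hw'
      simpa using this
    exact le_trans (Finset.card_le_card h3) Finset.card_le_two
  have h3 : (fs N).card ≤ (fs M).card := by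
    apply Finset.card_le_card
    intro g hg
    exact mem_fs.2 (hNM (mem_fs.1 hg))
  calc (fs N).card ≤ (fs M).card := h3
    _ ≤ (fs L).card * ((fs M).image π).card := h1
    _ ≤ (fs L).card * 2 := Nat.mul_le_mul_left _ h2
    _ = 2 * (fs L).card := by ring

end KDD
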