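import Pool.Agent.KDD.Fun

/-!
# `K ^ n = D ∪ D⁻¹` (MP_846fd0_al): the case `κ₂ = |K| - 1`
-/

namespace KDD

open Finset Pointwise

variable {G : Type*} [Group G] [Fintype G] [DecidableEq G]

/-- A `2`-atom `{1, a}` with `κ₂ = |K| - 1` is impossible. -/
theorem pairA {K D : Finset G} {N : Subgroup G} (C : Crit K D N) {a : G} (haN : a ∈ N)
    (ha1 : a ≠ 1) (hff : ff K a = 1) : False := by
  classical
  have S := C.setup
  have h5 := C.five
  set M := (fs N).filter (fun g => g ≠ 1 ∧ ff K g = 1) with hM
  have haM : a ∈ M := Finset.mem_filter.2 ⟨mem_fs.2 haN, ha1, hff⟩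
  have h1M : (1 : G) ∉ M := by
    intro h; exact (Finset.mem_filter.1 h).2.1 rfl
  have hMinv : Inv M := by
    intro g k hk
    obtain ⟨h1, h2, h3⟩ := Finset.mem_filter.1 hk
    refine Finset.mem_filter.2 ⟨mem_fs.2 (S.normal.conj_mem k (mem_fs.1 h1) g), ?_, ?_⟩
    · intro h; apply h2; simpa using h
    · rw [ff_conj S.inv]; exact h3
  have hsum : ∑ g ∈ M, ff K g = M.card := by
    rw [Finset.card_eq_sum_ones]
    exact Finset.sum_congr rfl (fun g hg => (Finset.mem_filter.1 hg).2.2)
  have hdouble : ∑ g ∈ M, ff K g = ∑ z ∈ K, (M.filter (fun g => g * z ∉ K)).card :=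
    double M K K
  obtain ⟨x, hx⟩ := S.ne
  have hconst : ∑ z ∈ K, (M.filter (fun g => g * z ∉ K)).card =
      K.card * (M.filter (fun g => g * x ∉ K)).card := by
    rw [Finset.sum_congr rfl (fun z hz => cnt_const hMinv S.inv C.cls hz hx), Finset.sum_const,
      smul_eq_mul]
  have htpos : 0 < (M.filter (fun g => g * x ∉ K)).card := by
    rcases Nat.eq_zero_or_pos (M.filter (fun g => g * x ∉ K)).card with h | h
    · exfalso
      rw [hdouble, hconst, h, mul_zero] at hsum
      have := Finset.card_pos.2 ⟨a, haM⟩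
      omega
    · exact h
  have hMge : K.card ≤ M.card := by
    rw [← hsum, hdouble, hconst]
    exact Nat.le_mul_of_pos_right _ htpos
  have hrr : ∑ g ∈ M, rr K g = M.card * (K.card - 1) := by
    rw [Finset.sum_const_nat (m := K.card - 1)]
    intro g hg
    have h1 := rr_add_ff K g
    rw [(Finset.mem_filter.1 hg).2.2] at h1
    omega
  have hMle : M.card ≤ K.card := by
    have h1 := sum_rr_le (K := K) h1M
    rw [hrr] at h1
    exact Nat.le_of_mul_le_mul_right h1 (by omega)
  have hMeq : M.card = K.card := le_antisymm hMle hMge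
  -- every pair of distinct elements of K has quotient in M
  have hcnt : ∀ y ∈ K, (M.filter (fun g => g * y ∈ K)).card = K.card - 1 := by
    intro y hy
    have h1 : (M.filter (fun g => g * y ∉ K)).card = 1 := by
      rw [cnt_const hMinv S.inv C.cls hy hx]
      have h2 : K.card * (M.filter (fun g => g * x ∉ K)).card = K.card * 1 := by
        rw [← hconst, ← hdouble, hsum, hMeq, mul_one]
      exact Nat.eq_of_mul_eq_mul_left (by omega) h2
    have h2 := Finset.card_filter_add_card_filter_not (s := M) (fun g => g * y ∈ K)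
    omega
  have hquot : K * K⁻¹ ⊆ insert 1 M := by
    intro w hw
    obtain ⟨z, hz, y', hy', rfl⟩ := Finset.mem_mul.1 hw
    rw [Finset.mem_inv'] at hy'
    set y := y'⁻¹ with hy
    have hyy : y' = y⁻¹ := by rw [hy, inv_inv]
    rw [hyy]
    by_cases hzy : z = y
    · rw [hzy, mul_inv_cancel]; exact Finset.mem_insert_self _ _
    · apply Finset.mem_insert_of_mem
      -- {g y : g ∈ M, g y ∈ K} = K \ {y}
      have h1 : (M.filter (fun g => g * y ∈ K)).image (fun g => g * y) = K.erase y := by
        apply Finset.eq_of_subset_of_card_le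
        · intro u hu
          obtain ⟨g, hg, rfl⟩ := Finset.mem_image.1 hu
          obtain ⟨hg1, hg2⟩ := Finset.mem_filter.1 hg
          refine Finset.mem_erase.2 ⟨?_, hg2⟩
          intro h
          have : g = 1 := by simpa using h
          rw [this] at hg1; exact h1M hg1
        · rw [Finset.card_image_of_injective _ (mul_left_injective y),
            hcnt y hy', Finset.card_erase_of_mem hy']
      have h2 : z ∈ K.erase y := Finset.mem_erase.2 ⟨hzy, hz⟩
      rw [← h1] at h2
      obtain ⟨g, hg, hgz⟩ := Finset.mem_image.1 h2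
      have : g = z * y⁻¹ := by rw [← hgz]; group
      rw [← this]; exact (Finset.mem_filter.1 hg).1
  have hcard : (K⁻¹ * K).card ≤ K.card + 1 := by
    rw [mul_comm_inv S.inv]
    have h1 := Finset.card_le_card hquot
    rw [Finset.card_insert_of_notMem h1M, hMeq] at h1
    exact h1
  have hpc : pc K (K⁻¹ * {x}) = (K⁻¹ * K).card := by
    rw [pc_right S.inv]; rfl
  have hlow := C.low1 (K⁻¹ * {x}) ⟨?_, ?_, ?_⟩
  · rw [hpc, Finset.card_mul_singleton, Finset.card_inv] at hlow
    omega
  · intro f hf
    rw [mem_right, Finset.mem_inv'] at hf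
    have h1 := S.sub _ hf x hx
    simpa using h1
  · rw [Finset.card_mul_singleton, Finset.card_inv]; omega
  · rw [hpc]; have := C.big; omega

/-- In a `2`-atom containing `1` with `κ₂ = |K| - 1` which is not a subgroup. -/
theorem nonsubgroupA {K D : Finset G} {N : Subgroup G} (C : Crit K D N)
    (hlow : Low K N 2 (K.card - 1)) {A : Finset G} (hA : Atom K N 2 (K.card - 1) A)
    (h1A : (1 : G) ∈ A) (hs : 3 ≤ A.card) {b0 : G} (hb0 : b0 ∈ A) (hb0A : {b0} * A ≠ A) :
    False := by
  classical
  have S := C.setup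
  have h5 := C.five
  have hAN : ∀ a ∈ A, a ∈ N := hA.1.1.1
  -- all translates are different from `A`
  have hall : ∀ c ∈ A, c ≠ 1 → {c} * A ≠ A := by
    intro c hc hc1 hcA
    apply hb0A
    rw [atom_comm S hlow hA h1A hb0]
    symm
    apply eq_of_two S hlow hA (hA.right S (hAN b0 hb0)) (u := b0) (v := c * b0)
    · intro h; apply hc1; simpa using h
    · exact hb0
    · rw [mem_right]; simpa using h1A
    · rw [← hcA, mem_left]; simpa using hb0
    · rw [mem_right]; simpa using hc
  have hb01 : b0 ≠ 1 := by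
    rintro rfl
    apply hb0A
    rw [Finset.singleton_one, one_mul]
  -- choose `b ≠ c` in `A \ {1}`
  obtain ⟨b, hb, hb1⟩ : ∃ b ∈ A, b ≠ 1 := ⟨b0, hb0, hb01⟩
  obtain ⟨c, hc, hc1, hcb⟩ : ∃ c ∈ A, c ≠ 1 ∧ c ≠ b := by
    have h1 : 0 < ((A.erase 1).erase b).card := by
      rw [Finset.card_erase_of_mem (Finset.mem_erase.2 ⟨hb1, hb⟩), Finset.card_erase_of_mem h1A]
      omega
    obtain ⟨c, hc⟩ := Finset.card_pos.1 h1
    rw [Finset.mem_erase, Finset.mem_erase] at hc
    exact ⟨c, hc.2.2, hc.2.1, hc.1⟩
  have hbA := hA.left (hAN b hb)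
  have hcA := hA.left (hAN c hc)
  have hinter : (A ∩ ({b} * A)).card = 1 := by
    apply le_antisymm (inter_le_one S hlow hA hbA (Ne.symm (hall b hb hb1)))
    rw [Nat.one_le_iff_ne_zero, ← Nat.pos_iff_ne_zero, Finset.card_pos]
    exact ⟨b, Finset.mem_inter.2 ⟨hb, by rw [mem_left]; simpa using h1A⟩⟩
  have hpcA := hA.1.2
  have hbound := frag_bound S hlow hA hA.1
  have hpcinter : pc K (A ∩ ({b} * A)) = K.card := by
    obtain ⟨u, hu⟩ := Finset.card_eq_one.1 hinter
    rw [hu, pc_singleton]
  have hsub := pc_submod K A ({b} * A)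
  have hUcard := Finset.card_union_add_card_inter A ({b} * A)
  rw [hinter, Finset.card_singleton_mul] at hUcard
  rw [hpcinter, pc_left] at hsub
  -- size condition
  have hsize : 2 * A.card + K.card ≤ (fs N).card := by
    by_contra hcon
    -- injectivity of quotients
    have h1 : (A.offDiag.image (fun p => p.1 * p.2⁻¹)).card = A.offDiag.card := by
      apply Finset.card_image_of_injOn
      rintro ⟨u, v⟩ huv ⟨u', v'⟩ huv' h
      simp only [Finset.mem_coe, Finset.mem_offDiag] at huv huv'
      simp only at h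
      set g := u * v⁻¹ with hg
      have hgN : g ∈ N := N.mul_mem (hAN u huv.1) (N.inv_mem (hAN v huv.2.1))
      have hu : u = g * v := by rw [hg]; group
      have hu' : u' = g * v' := by rw [h]; group
      have hg1 : g ≠ 1 := by
        intro h'; rw [h', one_mul] at hu; exact huv.2.2 hu
      by_cases hvv : v = v'
      · rw [Prod.mk.injEq]; exact ⟨by rw [hu, hu', hvv], hvv⟩
      · exfalso
        have h2 : {g} * A = A := by
          apply eq_of_two S hlow (hA.left hgN) hA (u := u) (v := u')
          · intro h'; apply hvv; rw [hu, hu'] at h'; simpa using h'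
          · rw [mem_left, hu]; simpa using huv.2.1
          · exact huv.1
          · rw [mem_left, hu']; simpa using huv'.2.1
          · exact huv'.1
        have h3 : g ∈ A := by
          rw [← h2, mem_left]; simpa using h1A
        exact hall g h3 hg1 h2
    have h2 : insert 1 (A.offDiag.image (fun p => p.1 * p.2⁻¹)) ⊆ fs N := by
      intro w hw
      rw [mem_fs]
      rcases Finset.mem_insert.1 hw with rfl | hw
      · exact N.one_mem
      · obtain ⟨⟨u, v⟩, huv, rfl⟩ := Finset.mem_image.1 hw
        rw [Finset.mem_offDiag] at huv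
        exact N.mul_mem (hAN u huv.1) (N.inv_mem (hAN v huv.2.1))
    have h3 : (1 : G) ∉ A.offDiag.image (fun p => p.1 * p.2⁻¹) := by
      intro h
      obtain ⟨⟨u, v⟩, huv, h⟩ := Finset.mem_image.1 h
      rw [Finset.mem_offDiag] at huv
      apply huv.2.2
      simpa using mul_inv_eq_one.1 h
    have h4 := Finset.card_le_card h2
    rw [Finset.card_insert_of_notMem h3, h1, Finset.offDiag_card] at h4
    have hbig := C.big
    -- s (s - 1) + 1 ≤ |N| ≤ 2 s + m - 1, 2 m + 2 ≤ |N|
    set s := A.card with hs'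
    set m := K.card with hm'
    have h6 : m ≤ 2 * s - 3 := by omega
    have h7 : s * s - s + 1 ≤ 2 * s + m - 1 := by omega
    have h8 : 4 ≤ s := by omega
    have h9 : 4 * s ≤ s * s := Nat.mul_le_mul_right _ h8
    rcases Nat.lt_or_ge s 5 with h10 | h10
    · have : s = 4 := by omega
      rw [this] at h7 h6
      omega
    · have h11 : 5 * s ≤ s * s := Nat.mul_le_mul_right _ h10
      omega
  have hadmU : Adm K N 2 (A ∪ ({b} * A)) := by
    refine ⟨?_, ?_, ?_⟩
    · intro f hf
      rcases Finset.mem_union.1 hf with h | h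
      · exact hAN f h
      · exact hbA.1.1.1 f h
    · omega
    · omega
  have hfragU : Frag K N 2 (K.card - 1) (A ∪ ({b} * A)) := by
    refine ⟨hadmU, ?_⟩
    have h1 := hlow _ hadmU
    omega
  -- `cA` meets the fragment in `c` and `c b`
  have hcsub : {c} * A ⊆ A ∪ ({b} * A) := by
    apply atom_subset S hlow hcA hfragU
    have h1 : ({c, c * b} : Finset G) ⊆ ({c} * A) ∩ (A ∪ ({b} * A)) := by
      intro w hw
      rw [Finset.mem_insert, Finset.mem_singleton] at hw
      rw [Finset.mem_inter, Finset.mem_union]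
      rcases hw with rfl | rfl
      · exact ⟨by rw [mem_left]; simpa using h1A, Or.inl hc⟩
      · refine ⟨by rw [mem_left]; simpa using hb, Or.inr ?_⟩
        rw [atom_comm S hlow hA h1A hb, mem_right]; simpa using hc
    have h2 := Finset.card_le_card h1
    rwa [Finset.card_pair] at h2
    intro h; apply hb1
    have : c * b = c * 1 := by rw [mul_one]; exact h.symm
    exact mul_left_cancel this
  have hc2 : (({c} * A) ∩ A).card ≤ 1 := inter_le_one S hlow hcA hA (hall c hc hc1)
  have hc3 : (({c} * A) ∩ ({b} * A)).card ≤ 1 := by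
    apply inter_le_one S hlow hcA hbA
    intro h
    apply hall b hb hb1
    symm
    apply eq_of_two S hlow hA hbA hcb hc _ hb _
    · rw [← h, mem_left]; simpa using h1A
    · rw [mem_left]; simpa using h1A
  have hc4 : (({c} * A)).card ≤ (({c} * A) ∩ A).card + (({c} * A) ∩ ({b} * A)).card := by
    have h1 : {c} * A = (({c} * A) ∩ A) ∪ (({c} * A) ∩ ({b} * A)) := by
      rw [← Finset.inter_union_distrib_left]
      exact (Finset.inter_eq_left.2 hcsub).symm
    calc (({c} * A)).card = ((({c} * A) ∩ A) ∪ (({c} * A) ∩ ({b} * A))).card := by rw [← h1]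
      _ ≤ _ := Finset.card_union_le _ _
  rw [Finset.card_singleton_mul] at hc4
  omega

end KDD
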