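import Pool.Agent.KDD.TwoS

/-!
# `K ^ n = D ∪ D⁻¹` (MP_846fd0_al): end of the case `κ₂ = |K| - 1`; `κ₂ = |K|`, atoms of size `≥ 3`
-/

namespace KDD

open Finset Pointwise

variable {G : Type*} [Group G] [Fintype G] [DecidableEq G]

theorem Crit.fragK {K D : Finset G} {N : Subgroup G} (C : Crit K D N) {y : G} (hy : y ∈ K) :
    Frag K N 2 K.card ({y⁻¹} * K) := by
  refine ⟨C.admK hy, ?_⟩
  rw [pc_left, Finset.card_singleton_mul]
  unfold pc
  rw [C.kk]; ring

/-- `κ₂ = |K| - 1` is impossible. -/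
theorem caseA {K D : Finset G} {N : Subgroup G} (C : Crit K D N)
    (hlow : Low K N 2 (K.card - 1)) {A : Finset G} (hA : Atom K N 2 (K.card - 1) A)
    (h1A : (1 : G) ∈ A) : False := by
  have h5 := C.five
  have hAN : ∀ a ∈ A, a ∈ N := hA.1.1.1
  have h2A : 2 ≤ A.card := hA.1.1.2.1
  rcases Nat.lt_or_ge A.card 3 with h | h
  · have hc : A.card = 2 := by omega
    obtain ⟨a, ha, ha1⟩ : ∃ a ∈ A, a ≠ 1 := by
      have : 0 < (A.erase 1).card := by rw [Finset.card_erase_of_mem h1A]; omega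
      obtain ⟨a, ha⟩ := Finset.card_pos.1 this
      exact ⟨a, (Finset.mem_erase.1 ha).2, (Finset.mem_erase.1 ha).1⟩
    have hAeq : A = {1, a} := by
      symm
      apply Finset.eq_of_subset_of_card_le
      · intro w hw
        rw [Finset.mem_insert, Finset.mem_singleton] at hw
        rcases hw with rfl | rfl
        · exact h1A
        · exact ha
      · rw [Finset.card_pair (Ne.symm ha1), hc]
    have h3 := hA.1.2
    rw [hAeq, pc_pair, Finset.card_pair (Ne.symm ha1)] at h3
    exact pairA C (hAN a ha) ha1 (by omega)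
  · by_cases hb : ∃ b ∈ A, {b} * A ≠ A
    · obtain ⟨b, hb, hbA⟩ := hb
      exact nonsubgroupA C hlow hA h1A h hb hbA
    · push Not at hb
      let L : Subgroup G :=
        { carrier := (A : Set G)
          mul_mem' := by
            intro a b ha' hb'
            have h2 : a * b ∈ {a} * A := by rw [mem_left]; simpa using hb'
            rw [hb a ha'] at h2; exact h2
          one_mem' := h1A
          inv_mem' := by
            intro a ha'
            have h2 : (1 : G) ∈ {a} * A := by rw [hb a ha']; exact h1A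
            rw [mem_left, mul_one] at h2; exact h2 }
      have hfs : fs L = A := by ext g; rw [mem_fs]; rfl
      rw [← hfs] at hA h
      exact subgroupA C hlow hA h

/-- If `y` and `y a` are in `K` with `a ≠ 1` in the atom, then `y A ⊆ K`. -/
theorem esc {K D : Finset G} {N : Subgroup G} (C : Crit K D N)
    (hlow : Low K N 2 K.card) {A : Finset G} (hA : Atom K N 2 K.card A)
    (h1A : (1 : G) ∈ A) {y a : G} (hy : y ∈ K) (ha : a ∈ A) (ha1 : a ≠ 1) (hya : y * a ∈ K) :
    ∀ c ∈ A, y * c ∈ K := by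
  have h1 : A ⊆ {y⁻¹} * K := by
    apply atom_subset C.setup hlow hA (C.fragK hy)
    have h2 : ({1, a} : Finset G) ⊆ A ∩ ({y⁻¹} * K) := by
      intro w hw
      rw [Finset.mem_insert, Finset.mem_singleton] at hw
      rw [Finset.mem_inter, mem_left, inv_inv]
      rcases hw with rfl | rfl
      · exact ⟨h1A, by rwa [mul_one]⟩
      · exact ⟨ha, hya⟩
    have h3 := Finset.card_le_card h2
    rwa [Finset.card_pair (Ne.symm ha1)] at h3
  intro c hc
  have h2 := h1 hc
  rwa [mem_left, inv_inv] at h2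

omit [Fintype G] in
/-- `|{y ∈ K : y a ∉ K}| = |{y ∈ K : a y ∉ K}|`. -/
theorem card_right {K : Finset G} (hK : Inv K) (a : G) :
    (K.filter (fun y => y * a ∉ K)).card = ff K a := by
  unfold ff
  apply Finset.card_bij' (fun y _ => a⁻¹ * y * a) (fun y _ => a * y * a⁻¹)
  · intro y hy
    obtain ⟨h1, h2⟩ := Finset.mem_filter.1 hy
    have h3 := hK a⁻¹ y h1
    rw [inv_inv] at h3
    refine Finset.mem_filter.2 ⟨h3, ?_⟩
    have h4 : a * (a⁻¹ * y * a) = y * a := by group
    rw [h4]; exact h2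
  · intro y hy
    obtain ⟨h1, h2⟩ := Finset.mem_filter.1 hy
    refine Finset.mem_filter.2 ⟨hK a y h1, ?_⟩
    have h4 : a * y * a⁻¹ * a = a * y := by group
    rw [h4]; exact h2
  · intro y _; group
  · intro y _; group

/-- For a nontrivial `g`, `|gK \ K| ≥ 2` if `κ₂ = |K|`. -/
theorem two_le_ff {K D : Finset G} {N : Subgroup G} (C : Crit K D N)
    (hlow : Low K N 2 K.card) {g : G} (hg : g ∈ N) (hg1 : g ≠ 1) : 2 ≤ ff K g := by
  by_contra h
  have h5 := C.five
  have hbig := C.big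
  have h1 := hlow {1, g} ⟨?_, ?_, ?_⟩
  · rw [pc_pair, Finset.card_pair (Ne.symm hg1)] at h1; omega
  · intro f hf
    rw [Finset.mem_insert, Finset.mem_singleton] at hf
    rcases hf with rfl | rfl
    · exact N.one_mem
    · exact hg
  · rw [Finset.card_pair (Ne.symm hg1)]
  · rw [pc_pair]; omega

/-- The set `W = K A \ K` has `|A|` elements. -/
theorem card_W {K D : Finset G} {N : Subgroup G} (C : Crit K D N)
    {A : Finset G} (hA : Atom K N 2 K.card A) (h1A : (1 : G) ∈ A) :
    ((K * A) \ K).card = A.card := by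
  have h1 := hA.1.2
  unfold pc at h1
  rw [mul_comm_inv C.setup.inv] at h1
  have h2 : K ⊆ K * A := by
    intro y hy
    exact Finset.mem_mul.2 ⟨y, hy, 1, h1A, mul_one y⟩
  have h3 := Finset.card_sdiff_add_card_eq_card h2
  omega

/-- An atom has at most three elements if `κ₂ = |K|`. -/
theorem card_le_three {K D : Finset G} {N : Subgroup G} (C : Crit K D N)
    (hlow : Low K N 2 K.card) {A : Finset G} (hA : Atom K N 2 K.card A)
    (h1A : (1 : G) ∈ A) : A.card ≤ 3 := by
  classical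
  have S := C.setup
  have hAN : ∀ a ∈ A, a ∈ N := hA.1.1.1
  have h2A : 2 ≤ A.card := hA.1.1.2.1
  obtain ⟨a, ha, ha1⟩ : ∃ a ∈ A, a ≠ 1 := by
    have : 0 < (A.erase 1).card := by rw [Finset.card_erase_of_mem h1A]; omega
    obtain ⟨a, ha⟩ := Finset.card_pos.1 this
    exact ⟨a, (Finset.mem_erase.1 ha).2, (Finset.mem_erase.1 ha).1⟩
  have h1 := two_le_ff C hlow (hAN a ha) ha1
  rw [← card_right S.inv] at h1
  obtain ⟨y, hy, z, hz, hyz⟩ := Finset.one_lt_card.1 (show 1 < _ from h1)
  obtain ⟨hyK, hya⟩ := Finset.mem_filter.1 hy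
  obtain ⟨hzK, hza⟩ := Finset.mem_filter.1 hz
  have hsub : ∀ y ∈ K, y * a ∉ K → {y} * (A.erase 1) ⊆ (K * A) \ K := by
    intro y hyK hya w hw
    rw [mem_left, Finset.mem_erase] at hw
    rw [Finset.mem_sdiff]
    refine ⟨Finset.mem_mul.2 ⟨y, hyK, y⁻¹ * w, hw.2, by group⟩, ?_⟩
    intro hwK
    apply hya
    apply esc C hlow hA h1A hyK hw.2 hw.1 _ a ha
    rw [mul_inv_cancel_left]; exact hwK
  have h2 := hsub y hyK hya
  have h3 := hsub z hzK hza
  have h4 : (({y} * (A.erase 1)) ∩ ({z} * (A.erase 1))).card ≤ 1 := by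
    by_contra hcon
    push Not at hcon
    obtain ⟨u, hu, v, hv, huv⟩ := Finset.one_lt_card.1 hcon
    rw [Finset.mem_inter, mem_left, mem_left, Finset.mem_erase, Finset.mem_erase] at hu hv
    -- `A = y⁻¹ z A`
    have hyzN : y⁻¹ * z ∈ N := S.sub y hyK z hzK
    have h5 : {y⁻¹ * z} * A = A := by
      apply eq_of_two S hlow (hA.left hyzN) hA (u := y⁻¹ * u) (v := y⁻¹ * v)
      · intro h; exact huv (mul_left_cancel h)
      · rw [mem_left]
        have : (y⁻¹ * z)⁻¹ * (y⁻¹ * u) = z⁻¹ * u := by group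
        rw [this]; exact hu.2.2
      · exact hu.1.2
      · rw [mem_left]
        have : (y⁻¹ * z)⁻¹ * (y⁻¹ * v) = z⁻¹ * v := by group
        rw [this]; exact hv.2.2
      · exact hv.1.2
    have h6 : y⁻¹ * z ∈ A := by rw [← h5, mem_left]; simpa using h1A
    have h7 : y⁻¹ * z ≠ 1 := by
      intro h; exact hyz (inv_mul_eq_one.1 h)
    apply hya
    apply esc C hlow hA h1A hyK h6 h7 _ a ha
    rw [mul_inv_cancel_left]; exact hzK
  have h5 := Finset.card_union_add_card_inter ({y} * (A.erase 1)) ({z} * (A.erase 1))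
  rw [Finset.card_singleton_mul, Finset.card_singleton_mul, Finset.card_erase_of_mem h1A] at h5
  have h6 := Finset.card_le_card (Finset.union_subset h2 h3)
  rw [card_W C hA h1A] at h6
  omega

/-- Atoms of size three: the escaping elements. -/
theorem tri {K D : Finset G} {N : Subgroup G} (C : Crit K D N)
    (hlow : Low K N 2 K.card) {A : Finset G} (hA : Atom K N 2 K.card A)
    (h1A : (1 : G) ∈ A) (hs : A.card = 3) {a : G} (ha : a ∈ A) (ha1 : a ≠ 1) :
    (K.filter (fun y => y * a ∉ K)).card = 3 ∧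
      (K.filter (fun y => y * a ∉ K)) * {a} = (K * A) \ K := by
  classical
  have S := C.setup
  have hAN : ∀ a ∈ A, a ∈ N := hA.1.1.1
  have hbound := frag_bound S hlow hA hA.1
  have hW := card_W C hA h1A
  have h1 := two_le_ff C hlow (hAN a ha) ha1
  have hsub : (K.filter (fun y => y * a ∉ K)) * {a} ⊆ (K * A) \ K := by
    intro w hw
    rw [mem_right, Finset.mem_filter, inv_mul_cancel_right] at hw
    rw [Finset.mem_sdiff]
    exact ⟨Finset.mem_mul.2 ⟨w * a⁻¹, hw.1, a, ha, by group⟩, hw.2⟩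
  have h2 : 3 ≤ ff K a := by
    by_contra hcon
    have hff : ff K a = 2 := by omega
    have hfrag : Frag K N 2 K.card {1, a} := by
      refine ⟨⟨?_, ?_, ?_⟩, ?_⟩
      · intro f hf
        rw [Finset.mem_insert, Finset.mem_singleton] at hf
        rcases hf with rfl | rfl
        · exact N.one_mem
        · exact hAN f ha
      · rw [Finset.card_pair (Ne.symm ha1)]
      · rw [pc_pair]
        have := hA.1.2
        omega
      · rw [pc_pair, Finset.card_pair (Ne.symm ha1)]; omega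
    have := hA.2 _ hfrag
    rw [Finset.card_pair (Ne.symm ha1)] at this
    omega
  rw [← card_right S.inv] at h2
  have h3 := Finset.card_le_card hsub
  rw [Finset.card_mul_singleton] at h3
  refine ⟨by omega, ?_⟩
  apply Finset.eq_of_subset_of_card_le hsub
  rw [Finset.card_mul_singleton]; omega

theorem Z_eq {K D : Finset G} {N : Subgroup G} (C : Crit K D N)
    (hlow : Low K N 2 K.card) {A : Finset G} (hA : Atom K N 2 K.card A)
    (h1A : (1 : G) ∈ A) {a b : G} (ha : a ∈ A) (ha1 : a ≠ 1)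
    (hb : b ∈ A) (hb1 : b ≠ 1) :
    K.filter (fun y => y * a ∉ K) = K.filter (fun y => y * b ∉ K) := by
  apply Finset.filter_congr
  intro y hy
  rw [not_iff_not]
  exact ⟨fun h => esc C hlow hA h1A hy ha ha1 h b hb, fun h => esc C hlow hA h1A hy hb hb1 h a ha⟩

omit [DecidableEq G] in
theorem fs_card_zpowers (e : G) : (fs (Subgroup.zpowers e)).card = orderOf e := by
  classical
  rw [← Nat.card_zpowers, Nat.card_eq_fintype_card, Fintype.card_subtype]
  unfold fs
  rfl

/-- If `Z e ⊆ Z`, `Z` nonempty then `orderOf e` divides `|Z|`. -/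
theorem order_dvd {Z : Finset G} {e : G} (h : ∀ y ∈ Z, y * e ∈ Z) : orderOf e ∣ Z.card := by
  classical
  have h1 : ∀ n : ℕ, ∀ y ∈ Z, y * e ^ n ∈ Z := by
    intro n
    induction n with
    | zero => intro y hy; simpa using hy
    | succ n ih =>
      intro y hy
      rw [pow_succ, ← mul_assoc]
      exact h _ (ih y hy)
  have h2 := card_dvd_pc Z⁻¹ (Subgroup.zpowers e)
  rw [fs_card_zpowers] at h2
  have h3 : fs (Subgroup.zpowers e) * Z⁻¹ = Z⁻¹ := by
    ext w
    rw [Finset.mem_mul]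
    constructor
    · rintro ⟨u, hu, v, hv, rfl⟩
      rw [Finset.mem_inv'] at hv ⊢
      rw [mem_fs] at hu
      have hu2 : u⁻¹ ∈ Subgroup.zpowers e := Subgroup.inv_mem _ hu
      rw [mem_zpowers_iff_mem_range_orderOf] at hu2
      obtain ⟨n, _, hn⟩ := Finset.mem_image.1 hu2
      rw [mul_inv_rev, ← hn]
      exact h1 n _ hv
    · intro hw
      exact ⟨1, mem_fs.2 (Subgroup.one_mem _), w, hw, one_mul w⟩
  unfold pc at h2
  rwa [h3, Finset.card_inv] at h2

/-- In an atom `{1, a, b}` the element `b a⁻¹` has order `3`. -/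
theorem cube {K D : Finset G} {N : Subgroup G} (C : Crit K D N)
    (hlow : Low K N 2 K.card) {A : Finset G} (hA : Atom K N 2 K.card A)
    (h1A : (1 : G) ∈ A) (hs : A.card = 3) {a b : G} (ha : a ∈ A) (ha1 : a ≠ 1)
    (hb : b ∈ A) (hb1 : b ≠ 1) :
    (b * a⁻¹) ^ 3 = 1 ∧ ∀ y ∈ K, y * a ∉ K → (y * (b * a⁻¹) ∈ K ∧ y * (b * a⁻¹) * a ∉ K) := by
  obtain ⟨h1, h2⟩ := tri C hlow hA h1A hs ha ha1
  obtain ⟨h3, h4⟩ := tri C hlow hA h1A hs hb hb1
  rw [← Z_eq C hlow hA h1A ha ha1 hb hb1] at h3 h4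
  have h5 : ∀ y ∈ K.filter (fun y => y * a ∉ K), y * (b * a⁻¹) ∈ K.filter (fun y => y * a ∉ K) := by
    intro y hy
    have h6 : y * b ∈ (K.filter (fun y => y * a ∉ K)) * {b} := by rw [mem_right]; simpa using hy
    rw [h4, ← h2, mem_right, mul_assoc] at h6
    exact h6
  constructor
  · have h6 := order_dvd h5
    rw [h1] at h6
    exact orderOf_dvd_iff_pow_eq_one.1 h6
  · intro y hy hya
    exact Finset.mem_filter.1 (h5 y (Finset.mem_filter.2 ⟨hy, hya⟩))

end KDD
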