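import Pool.Agent.KDD.TwoB

/-!
# `K ^ n = D ∪ D⁻¹` (MP_846fd0_al): `κ₂ = |K|`, atoms of size `3`
-/

namespace KDD

open Finset Pointwise

variable {G : Type*} [Group G] [Fintype G] [DecidableEq G]

/-- Elements of a `2`-atom `{1, a, b}` (`κ₂ = |K|`) have order three. -/
theorem cube_a {K D : Finset G} {N : Subgroup G} (C : Crit K D N)
    (hlow : Low K N 2 K.card) {A : Finset G} (hA : Atom K N 2 K.card A)
    (h1A : (1 : G) ∈ A) (hs : A.card = 3) {a b : G} (ha : a ∈ A)
    (hb : b ∈ A) (hb1 : b ≠ 1) (hab : a ≠ b) : a ^ 3 = 1 := by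
  have hAN : ∀ a ∈ A, a ∈ N := hA.1.1.1
  have hA' := hA.left (N.inv_mem (hAN b hb))
  have h1 : (1 : G) ∈ {b⁻¹} * A := by rw [mem_left]; simpa using hb
  have h2 : b⁻¹ ∈ {b⁻¹} * A := by rw [mem_left]; simpa using h1A
  have h3 : b⁻¹ * a ∈ {b⁻¹} * A := by rw [mem_left]; simpa using ha
  have h4 := (cube C hlow hA' h1 (by rw [Finset.card_singleton_mul]; exact hs) h2
    (by intro h; apply hb1; simpa using h) h3
    (by intro h; exact hab (inv_mul_eq_one.1 h).symm)).1
  have h5 : b⁻¹ * a * b⁻¹⁻¹ = b⁻¹ * a * (b⁻¹)⁻¹ := rfl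
  rw [conj_pow] at h4
  have h6 : a ^ 3 = b * (b⁻¹ * a ^ 3 * b⁻¹⁻¹) * b⁻¹ := by group
  rw [h6, h4]; group

/-- The case of atoms of size three is impossible. -/
theorem caseB3 {K D : Finset G} {N : Subgroup G} (C : Crit K D N)
    (hlow : Low K N 2 K.card) {A : Finset G} (hA : Atom K N 2 K.card A)
    (h1A : (1 : G) ∈ A) (hs : A.card = 3) : False := by
  classical
  have S := C.setup
  have h5 := C.five
  have hbig := C.big
  have hAN : ∀ a ∈ A, a ∈ N := hA.1.1.1
  obtain ⟨a, ha, ha1⟩ : ∃ a ∈ A, a ≠ 1 := by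
    have : 0 < (A.erase 1).card := by rw [Finset.card_erase_of_mem h1A]; omega
    obtain ⟨a, ha⟩ := Finset.card_pos.1 this
    exact ⟨a, (Finset.mem_erase.1 ha).2, (Finset.mem_erase.1 ha).1⟩
  obtain ⟨b, hb, hb1, hba⟩ : ∃ b ∈ A, b ≠ 1 ∧ b ≠ a := by
    have h1 : 0 < ((A.erase 1).erase a).card := by
      rw [Finset.card_erase_of_mem (Finset.mem_erase.2 ⟨ha1, ha⟩), Finset.card_erase_of_mem h1A]
      omega
    obtain ⟨c, hc⟩ := Finset.card_pos.1 h1
    rw [Finset.mem_erase, Finset.mem_erase] at hc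
    exact ⟨c, hc.2.2, hc.2.1, hc.1⟩
  have hAeq : ∀ w ∈ A, w = 1 ∨ w = a ∨ w = b := by
    have h1 : ({1, a, b} : Finset G) = A := by
      apply Finset.eq_of_subset_of_card_le
      · intro w hw
        simp only [Finset.mem_insert, Finset.mem_singleton] at hw
        rcases hw with rfl | rfl | rfl
        · exact h1A
        · exact ha
        · exact hb
      · rw [hs, Finset.card_eq_three.2 ⟨1, a, b, Ne.symm ha1, Ne.symm hb1, Ne.symm hba, rfl⟩]
    intro w hw
    rw [← h1] at hw
    simpa using hw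
  have ha3 := cube_a C hlow hA h1A hs ha hb hb1 (Ne.symm hba)
  have hb3 := cube_a C hlow hA h1A hs hb ha ha1 hba
  obtain ⟨hZ3, hZW⟩ := tri C hlow hA h1A hs ha ha1
  have hZab := Z_eq C hlow hA h1A ha ha1 hb hb1
  have hZWb := (tri C hlow hA h1A hs hb hb1).2
  rw [← hZab] at hZWb
  have hW := card_W C hA h1A
  set Z := K.filter (fun y => y * a ∉ K) with hZ
  set W := (K * A) \ K with hWdef
  -- `b ≠ a⁻¹`
  have hainv : a⁻¹ = a * a := by
    have : a * a * a = 1 := by rw [← pow_three']; exact ha3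
    exact inv_eq_of_mul_eq_one_left this
  have hbinv : b⁻¹ = b * b := by
    have : b * b * b = 1 := by rw [← pow_three']; exact hb3
    exact inv_eq_of_mul_eq_one_left this
  have hZe := (cube C hlow hA h1A hs ha ha1 hb hb1).2
  have hZe' := (cube C hlow hA h1A hs hb hb1 ha ha1).2
  obtain ⟨y0, hy0⟩ : Z.Nonempty := by rw [← Finset.card_pos]; omega
  have hbne : b ≠ a⁻¹ := by
    intro h
    obtain ⟨hy1, hy2⟩ := Finset.mem_filter.1 hy0
    have h1 := (hZe y0 hy1 hy2).1
    apply hy2
    have h2 : b * a⁻¹ = a := by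
      rw [h]
      have : a⁻¹ * a⁻¹ = (a * a)⁻¹ := by group
      rw [this, ← hainv, inv_inv]
    rwa [h2] at h1
  -- `Z a⁻¹ ⊆ K`, `Z b⁻¹ ⊆ K`
  have hZain : ∀ y ∈ K, y * a ∉ K → y * a⁻¹ ∈ K := by
    intro y hy hya
    have hA' := hA.left (N.inv_mem (hAN a ha))
    have h1 : (1 : G) ∈ {a⁻¹} * A := by rw [mem_left]; simpa using ha
    have h2 : a⁻¹ ∈ {a⁻¹} * A := by rw [mem_left]; simpa using h1A
    have hcomm : a⁻¹ * b = b * a⁻¹ := by
      have h3 : {a⁻¹} * A = A * {a⁻¹} := by
        have h4 := atom_comm S hlow hA h1A ha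
        ext z
        rw [mem_left, mem_right]
        have h5 : ∀ w, w ∈ {a} * A ↔ w ∈ A * {a} := by rw [h4]; simp
        have h6 := h5 (a * z * a)
        rw [mem_left, mem_right] at h6
        have h7 : a⁻¹ * (a * z * a) = z * a := by group
        have h8 : a * z * a * a⁻¹ = a * z := by group
        rw [h7, h8] at h6
        rw [inv_inv]
        exact h6.symm
      have h4 : a⁻¹ * b ∈ {a⁻¹} * A := by rw [mem_left]; simpa using hb
      rw [h3, mem_right, inv_inv] at h4
      rcases hAeq _ h4 with h | h | h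
      · exfalso; apply hb1
        have : b = a * (a⁻¹ * b * a) * a⁻¹ := by group
        rw [this, h]; group
      · exfalso; apply hba
        have : b = a * (a⁻¹ * b * a) * a⁻¹ := by group
        rw [this, h]; group
      · have : a⁻¹ * b = a⁻¹ * b * a * a⁻¹ := by group
        rw [this, h]
    have h3 : b * a⁻¹ ∈ {a⁻¹} * A := by rw [← hcomm, mem_left]; simpa using hb
    have h4 : b * a⁻¹ ≠ 1 := by
      intro h; exact hba (mul_inv_eq_one.1 h)
    exact esc C hlow hA' h1 hy h3 h4 (hZe y hy hya).1 a⁻¹ h2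
  have hZbin : ∀ y ∈ K, y * b ∉ K → y * b⁻¹ ∈ K := by
    intro y hy hya
    have hA' := hA.left (N.inv_mem (hAN b hb))
    have h1 : (1 : G) ∈ {b⁻¹} * A := by rw [mem_left]; simpa using hb
    have h2 : b⁻¹ ∈ {b⁻¹} * A := by rw [mem_left]; simpa using h1A
    have hcomm : b⁻¹ * a = a * b⁻¹ := by
      have h3 : {b⁻¹} * A = A * {b⁻¹} := by
        have h4 := atom_comm S hlow hA h1A hb
        ext z
        rw [mem_left, mem_right]
        have h5 : ∀ w, w ∈ {b} * A ↔ w ∈ A * {b} := by rw [h4]; simp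
        have h6 := h5 (b * z * b)
        rw [mem_left, mem_right] at h6
        have h7 : b⁻¹ * (b * z * b) = z * b := by group
        have h8 : b * z * b * b⁻¹ = b * z := by group
        rw [h7, h8] at h6
        rw [inv_inv]
        exact h6.symm
      have h4 : b⁻¹ * a ∈ {b⁻¹} * A := by rw [mem_left]; simpa using ha
      rw [h3, mem_right, inv_inv] at h4
      rcases hAeq _ h4 with h | h | h
      · exfalso; apply ha1
        have : a = b * (b⁻¹ * a * b) * b⁻¹ := by group
        rw [this, h]; group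
      · have : b⁻¹ * a = b⁻¹ * a * b * b⁻¹ := by group
        rw [this, h]
      · exfalso; apply hba
        have : a = b * (b⁻¹ * a * b) * b⁻¹ := by group
        rw [this, h]; group
    have h3 : a * b⁻¹ ∈ {b⁻¹} * A := by rw [← hcomm, mem_left]; simpa using ha
    have h4 : a * b⁻¹ ≠ 1 := by
      intro h; exact hba (mul_inv_eq_one.1 h).symm
    exact esc C hlow hA' h1 hy h3 h4 (hZe' y hy hya).1 b⁻¹ h2
  -- all products are in `K ∪ W`
  have hWa : ∀ y ∈ K, y * a ∉ K → y * a ∈ W := by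
    intro y hy hya
    rw [← hZW, mem_right, mul_inv_cancel_right]
    exact Finset.mem_filter.2 ⟨hy, hya⟩
  have hWb : ∀ y ∈ K, y * b ∉ K → y * b ∈ W := by
    intro y hy hya
    rw [← hZWb, mem_right, mul_inv_cancel_right, hZab]
    exact Finset.mem_filter.2 ⟨hy, hya⟩
  have hKa : ∀ y ∈ K, y * a ∈ K ∪ W := by
    intro y hy
    rw [Finset.mem_union]
    by_cases h : y * a ∈ K
    · exact Or.inl h
    · exact Or.inr (hWa y hy h)
  have hKb : ∀ y ∈ K, y * b ∈ K ∪ W := by
    intro y hy
    rw [Finset.mem_union]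
    by_cases h : y * b ∈ K
    · exact Or.inl h
    · exact Or.inr (hWb y hy h)
  have hKainv : ∀ y ∈ K, y * a⁻¹ ∈ K ∪ W := by
    intro y hy
    rw [Finset.mem_union]
    by_cases h : y * a⁻¹ ∈ K
    · exact Or.inl h
    · right
      have h1 : y * a ∈ K := by
        by_contra h2; exact h (hZain y hy h2)
      have h2 : y * a * a = y * a⁻¹ := by rw [hainv, mul_assoc]
      have h3 := hWa (y * a) h1 (by rw [h2]; exact h)
      rwa [h2] at h3
  have hKbinv : ∀ y ∈ K, y * b⁻¹ ∈ K ∪ W := by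
    intro y hy
    rw [Finset.mem_union]
    by_cases h : y * b⁻¹ ∈ K
    · exact Or.inl h
    · right
      have h1 : y * b ∈ K := by
        by_contra h2; exact h (hZbin y hy h2)
      have h2 : y * b * b = y * b⁻¹ := by rw [hbinv, mul_assoc]
      have h3 := hWb (y * b) h1 (by rw [h2]; exact h)
      rwa [h2] at h3
  -- the five-element set
  have haa : a ≠ a⁻¹ := by
    intro h
    apply ha1
    have h1 : a = a * a := by rw [← hainv]; exact h
    have h2 : a * a = a * 1 := by rw [mul_one]; exact h1.symm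
    exact mul_left_cancel h2
  have hbb : b ≠ b⁻¹ := by
    intro h
    apply hb1
    have h1 : b = b * b := by rw [← hbinv]; exact h
    have h2 : b * b = b * 1 := by rw [mul_one]; exact h1.symm
    exact mul_left_cancel h2
  have hab' : a ≠ b⁻¹ := by
    intro h; apply hbne; rw [h, inv_inv]
  have haib : a⁻¹ ≠ b⁻¹ := by
    intro h; apply hba; exact (inv_injective h).symm
  have hai1 : (1 : G) ≠ a⁻¹ := by
    intro h; apply ha1; rw [← inv_inv a, ← h, inv_one]
  have hbi1 : (1 : G) ≠ b⁻¹ := by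
    intro h; apply hb1; rw [← inv_inv b, ← h, inv_one]
  have hcard5 : ({1, a, b, a⁻¹, b⁻¹} : Finset G).card = 5 := by
    rw [Finset.card_insert_of_notMem, Finset.card_insert_of_notMem, Finset.card_insert_of_notMem,
      Finset.card_insert_of_notMem, Finset.card_singleton]
    · simpa using haib
    · simp only [Finset.mem_insert, Finset.mem_singleton, not_or]
      exact ⟨hbne, hbb⟩
    · simp only [Finset.mem_insert, Finset.mem_singleton, not_or]
      exact ⟨Ne.symm hba, haa, hab'⟩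
    · simp only [Finset.mem_insert, Finset.mem_singleton, not_or]
      exact ⟨Ne.symm ha1, Ne.symm hb1, hai1, hbi1⟩
  have hsubKW : K * ({1, a, b, a⁻¹, b⁻¹} : Finset G) ⊆ K ∪ W := by
    intro w hw
    obtain ⟨y, hy, c, hc, rfl⟩ := Finset.mem_mul.1 hw
    simp only [Finset.mem_insert, Finset.mem_singleton] at hc
    rcases hc with rfl | rfl | rfl | rfl | rfl
    · rw [mul_one]; exact Finset.mem_union_left _ hy
    · exact hKa y hy
    · exact hKb y hy
    · exact hKainv y hy
    · exact hKbinv y hy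
  have hpc5 : pc K ({1, a, b, a⁻¹, b⁻¹} : Finset G) ≤ K.card + 3 := by
    unfold pc
    rw [mul_comm_inv S.inv]
    refine (Finset.card_le_card hsubKW).trans ((Finset.card_union_le _ _).trans ?_)
    omega
  have hfin := C.low1 ({1, a, b, a⁻¹, b⁻¹} : Finset G) ⟨?_, ?_, ?_⟩
  · omega
  · intro f hf
    simp only [Finset.mem_insert, Finset.mem_singleton] at hf
    rcases hf with rfl | rfl | rfl | rfl | rfl
    · exact N.one_mem
    · exact hAN _ ha
    · exact hAN _ hb
    · exact N.inv_mem (hAN _ ha)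
    · exact N.inv_mem (hAN _ hb)
  · omega
  · omega

end KDD
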