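import Pool.Agent.KDD.TwoC

/-!
# `K ^ n = D ∪ D⁻¹` (MP_846fd0_al): `κ₂ = |K|`, atoms of size `2`
-/

namespace KDD

open Finset Pointwise

variable {G : Type*} [Group G] [Fintype G] [DecidableEq G]

omit [Fintype G] in
theorem inv_mul_set {K L : Finset G} (hK : Inv K) (hL : Inv L) : Inv (K * L) := by
  intro g w hw
  obtain ⟨k, hk, l, hl, rfl⟩ := Finset.mem_mul.1 hw
  refine Finset.mem_mul.2 ⟨g * k * g⁻¹, hK g k hk, g * l * g⁻¹, hL g l hl, by group⟩

/-- `1 ≤ |g K² \ K²| ≤ 2` if `|gK \ K| = 2`. -/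
theorem ffKK {K D : Finset G} {N : Subgroup G} (C : Crit K D N)
    (hlow : Low K N 2 K.card) {g : G} (hg : g ∈ N) (hff : ff K g = 2) :
    1 ≤ ff (K * K) g ∧ ff (K * K) g ≤ 2 := by
  classical
  have S := C.setup
  have h5 := C.five
  have hbig := C.big
  have hkk := C.kk
  obtain ⟨x, hx⟩ := S.ne
  have hXN : ∀ f ∈ K * {x⁻¹}, f ∈ N := by
    intro f hf
    rw [mem_right, inv_inv] at hf
    have h1 := S.sub x hx _ hf
    have h2 := S.normal.conj_mem _ h1 x
    have h3 : x * (x⁻¹ * (f * x)) * x⁻¹ = f := by group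
    rwa [h3] at h2
  set X := K * {x⁻¹} with hX
  have hXcard : X.card = K.card := by rw [hX, Finset.card_mul_singleton]
  have hpcX : pc K X = 2 * K.card := by rw [hX, pc_right S.inv]; exact hkk
  have hU : X ∪ {g} * X = ({1, g} * K) * {x⁻¹} := by
    rw [pair_mul, Finset.union_mul, hX, mul_assoc]
  have hUcard : (X ∪ {g} * X).card = K.card + 2 := by
    rw [hU, Finset.card_mul_singleton]
    have := pc_pair K g
    unfold pc at this
    rw [this, hff]
  have hpcU : pc K (X ∪ {g} * X) = 2 * K.card + ff (K * K) g := by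
    rw [hU, pc_right S.inv]
    have h1 : pc K ({1, g} * K) = pc (K * K) {1, g} := by
      unfold pc; rw [mul_assoc]
    rw [h1, pc_pair, hkk]
  have hgXN : ∀ f ∈ {g} * X, f ∈ N := by
    intro f hf
    rw [mem_left] at hf
    have h1 := hXN _ hf
    have h2 := N.mul_mem hg h1
    rwa [mul_inv_cancel_left] at h2
  have hUN : ∀ f ∈ X ∪ {g} * X, f ∈ N := by
    intro f hf
    rcases Finset.mem_union.1 hf with h | h
    · exact hXN f h
    · exact hgXN f h
  have hcc := Finset.card_union_add_card_inter X ({g} * X)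
  rw [hUcard, Finset.card_singleton_mul, hXcard] at hcc
  have hsub := pc_submod K X ({g} * X)
  rw [hpcU, pc_left, hpcX] at hsub
  have hle := pc_mono K (Finset.inter_subset_left : X ∩ ({g} * X) ⊆ X)
  rw [hpcX] at hle
  have hadm1 : Adm K N 2 (X ∩ ({g} * X)) := by
    refine ⟨?_, ?_, ?_⟩
    · intro f hf
      exact hXN f (Finset.mem_inter.1 hf).1
    · omega
    · omega
  have h6 := hlow _ hadm1
  have h7 : ff (K * K) g ≤ 2 := by omega
  refine ⟨?_, h7⟩
  by_contra h
  have hadm2 : Adm K N 2 (X ∪ {g} * X) := ⟨hUN, by omega, by omega⟩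
  have h8 := hlow _ hadm2
  omega

/-- The counting part: `|M| = m`, each `y ∈ K` has `m - 2` partners. -/
theorem countM {K D : Finset G} {N : Subgroup G} (C : Crit K D N)
    (hlow : Low K N 2 K.card) {a : G} (haN : a ∈ N) (hff : ff K a = 2)
    {M : Finset G} (hM : ∀ g, g ∈ M ↔ g ∈ N ∧ ff K g = 2) :
    M.card = K.card ∧ ∀ y ∈ K, (M.filter (fun g => g * y ∈ K)).card = K.card - 2 := by
  classical
  have S := C.setup
  have h5 := C.five
  have hbig := C.big
  have hkk := C.kk
  have haM : a ∈ M := (hM a).2 ⟨haN, hff⟩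
  have h1M : (1 : G) ∉ M := by
    intro h
    have h1 := ((hM 1).1 h).2
    have h2 : ff K 1 = 0 := by
      unfold ff
      rw [Finset.card_eq_zero, Finset.filter_eq_empty_iff]
      intro y hy
      simpa using hy
    omega
  have hMinv : Inv M := by
    intro g k hk
    obtain ⟨h1, h2⟩ := (hM k).1 hk
    exact (hM _).2 ⟨S.normal.conj_mem k h1 g, by rw [ff_conj S.inv]; exact h2⟩
  have hMinv' : ∀ g ∈ M, g⁻¹ ∈ M := by
    intro g hg
    obtain ⟨h1, h2⟩ := (hM g).1 hg
    exact (hM _).2 ⟨N.inv_mem h1, by rw [ff_inv]; exact h2⟩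
  have hKKinv := inv_mul_set S.inv S.inv
  obtain ⟨x, hx⟩ := S.ne
  -- `Σ ff (K K)`
  have hdisj : Disjoint D D⁻¹ := by
    rw [← Finset.card_union_eq_card_add_card, ← C.sq, hkk, Finset.card_inv, C.dcard]
    ring
  obtain ⟨z0, hz0⟩ : D.Nonempty := by rw [← Finset.card_pos, C.dcard]; omega
  have hz0' : z0⁻¹ ∈ D⁻¹ := Finset.inv_mem_inv hz0
  have hKKi : ∀ w, w ∈ K * K → w⁻¹ ∈ K * K := by
    intro w hw
    rw [C.sq, Finset.mem_union, Finset.mem_inv'] at hw
    rw [C.sq, Finset.mem_union, Finset.mem_inv', inv_inv]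
    exact hw.symm
  have hts : (M.filter (fun g => g * z0⁻¹ ∉ K * K)).card =
      (M.filter (fun g => g * z0 ∉ K * K)).card := by
    apply Finset.card_bij' (fun g _ => z0 * g⁻¹ * z0⁻¹) (fun g _ => z0⁻¹ * g⁻¹ * z0)
    · intro g hg
      obtain ⟨h1, h2⟩ := Finset.mem_filter.1 hg
      refine Finset.mem_filter.2 ⟨hMinv z0 _ (hMinv' g h1), ?_⟩
      intro h3
      apply h2
      have h4 : g * z0⁻¹ = (z0 * g⁻¹ * z0⁻¹ * z0)⁻¹ := by group
      rw [h4]; exact hKKi _ h3
    · intro g hg
      obtain ⟨h1, h2⟩ := Finset.mem_filter.1 hg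
      have h3 := hMinv z0⁻¹ _ (hMinv' g h1)
      rw [inv_inv] at h3
      refine Finset.mem_filter.2 ⟨h3, ?_⟩
      intro h3
      apply h2
      have h4 : g * z0 = (z0⁻¹ * g⁻¹ * z0 * z0⁻¹)⁻¹ := by group
      rw [h4]; exact hKKi _ h3
    · intro g _; group
    · intro g _; group
  have hsumKK : ∑ g ∈ M, ff (K * K) g =
      2 * K.card * (M.filter (fun g => g * z0 ∉ K * K)).card := by
    have h1 : ∑ g ∈ M, ff (K * K) g =
        ∑ z ∈ K * K, (M.filter (fun g => g * z ∉ K * K)).card := double M (K * K) (K * K)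
    rw [h1]
    conv_lhs => rw [C.sq]
    rw [Finset.sum_union hdisj, ← C.sq,
      Finset.sum_congr rfl (fun z hz => cnt_const hMinv hKKinv C.dcls hz hz0),
      Finset.sum_congr rfl (fun z hz => cnt_const hMinv hKKinv (cls_inv_set C.dcls) hz hz0'),
      Finset.sum_const, Finset.sum_const, Finset.card_inv, smul_eq_mul, smul_eq_mul, hts,
      C.dcard]
    ring
  have hlower : M.card ≤ ∑ g ∈ M, ff (K * K) g := by
    rw [Finset.card_eq_sum_ones]
    apply Finset.sum_le_sum
    intro g hg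
    obtain ⟨h1, h2⟩ := (hM g).1 hg
    exact (ffKK C hlow h1 h2).1
  have hupper : ∑ g ∈ M, ff (K * K) g ≤ M.card * 2 := by
    have h0 : ∑ _g ∈ M, 2 = M.card * 2 := by rw [Finset.sum_const, smul_eq_mul]
    rw [← h0]
    apply Finset.sum_le_sum
    intro g hg
    obtain ⟨h1, h2⟩ := (hM g).1 hg
    exact (ffKK C hlow h1 h2).2
  have hMpos : 0 < M.card := Finset.card_pos.2 ⟨a, haM⟩
  set t' := (M.filter (fun g => g * z0 ∉ K * K)).card with ht'
  have ht'pos : 0 < t' := by
    rcases Nat.eq_zero_or_pos t' with h | h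
    · rw [hsumKK, h, mul_zero] at hlower; omega
    · exact h
  have hMge : K.card ≤ M.card := by
    rw [hsumKK] at hupper
    have h1 : 2 * K.card * 1 ≤ 2 * K.card * t' := Nat.mul_le_mul_left _ ht'pos
    omega
  -- `Σ ff K`
  have hsum : ∑ g ∈ M, ff K g = M.card * 2 := by
    rw [Finset.sum_const_nat (m := 2)]
    intro g hg
    exact ((hM g).1 hg).2
  have hdouble : ∑ g ∈ M, ff K g = ∑ z ∈ K, (M.filter (fun g => g * z ∉ K)).card :=
    double M K K
  have hconst : ∑ z ∈ K, (M.filter (fun g => g * z ∉ K)).card =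
      K.card * (M.filter (fun g => g * x ∉ K)).card := by
    rw [Finset.sum_congr rfl (fun z hz => cnt_const hMinv S.inv C.cls hz hx), Finset.sum_const,
      smul_eq_mul]
  have hrr : ∑ g ∈ M, rr K g = M.card * (K.card - 2) := by
    rw [Finset.sum_const_nat (m := K.card - 2)]
    intro g hg
    have h1 := rr_add_ff K g
    rw [((hM g).1 hg).2] at h1
    omega
  have hMle := sum_rr_le (K := K) h1M
  rw [hrr] at hMle
  rw [hsum, hconst] at hdouble
  set t := (M.filter (fun g => g * x ∉ K)).card with ht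
  obtain ⟨j, hj⟩ := Nat.exists_eq_add_of_le h5
  have ht2 : t = 2 := by
    rcases Nat.lt_trichotomy t 2 with h | h | h
    · exfalso
      have h1 : K.card * t ≤ K.card * 1 := Nat.mul_le_mul_left _ (by omega)
      omega
    · exact h
    · exfalso
      have h1 : K.card * 3 ≤ K.card * t := Nat.mul_le_mul_left _ (by omega)
      have h2 : K.card * 3 ≤ M.card * 2 := by omega
      have h3 : K.card * 3 * (K.card - 2) ≤ M.card * 2 * (K.card - 2) :=
        Nat.mul_le_mul_right _ h2
      have h4 : M.card * 2 * (K.card - 2) ≤ K.card * (2 * (K.card - 1)) := by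
        calc M.card * 2 * (K.card - 2) = 2 * (M.card * (K.card - 2)) := by ring
          _ ≤ 2 * (K.card * (K.card - 1)) := Nat.mul_le_mul_left _ hMle
          _ = K.card * (2 * (K.card - 1)) := by ring
      have h5 : K.card * (3 * (K.card - 2)) ≤ K.card * (2 * (K.card - 1)) := by
        calc K.card * (3 * (K.card - 2)) = K.card * 3 * (K.card - 2) := by ring
          _ ≤ _ := h3.trans h4
      have h6 := Nat.le_of_mul_le_mul_left h5 (by omega)
      omega
  have hMeq : M.card = K.card := by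
    rw [ht2] at hdouble; omega
  refine ⟨hMeq, ?_⟩
  intro y hy
  have h1 := cnt_const (M := M) (T := K) (D := K) hMinv S.inv C.cls hy hx
  rw [← ht, ht2] at h1
  have h2 := Finset.card_filter_add_card_filter_not (s := M) (fun g => g * y ∈ K)
  omega

end KDD
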