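import Pool.Agent.KDD.TwoD

/-!
# `K ^ n = D ∪ D⁻¹` (MP_846fd0_al): `κ₂ = |K|`, conclusion; the critical situation is impossible
-/

namespace KDD

open Finset Pointwise

variable {G : Type*} [Group G] [Fintype G] [DecidableEq G]

omit [Group G] [Fintype G] [DecidableEq G] in
/-- A set with a fixed-point-free involution has even cardinality. -/
theorem even_of_unique {K : Finset G} (R : G → G → Prop) (hsymm : ∀ y z, R y z → R z y)
    (hirr : ∀ y ∈ K, ¬ R y y) (huniq : ∀ y ∈ K, ∃ z ∈ K, R y z ∧ ∀ w ∈ K, R y w → w = z) :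
    Even K.card := by
  classical
  choose σ hσ using huniq
  have hmem : ∀ y (hy : y ∈ K), σ y hy ∈ K := fun y hy => (hσ y hy).1
  have hinv : ∀ y (hy : y ∈ K), σ (σ y hy) (hmem y hy) = y := by
    intro y hy
    have h2 := hσ y hy
    have h3 := hσ (σ y hy) h2.1
    exact (h3.2.2 y hy (hsymm _ _ h2.2.1)).symm
  have h1 : ∑ _y ∈ K, (1 : ZMod 2) = 0 := by
    refine Finset.sum_involution (fun y hy => σ y hy) ?_ ?_ hmem hinv
    · intro y hy; decide
    · intro y hy _ h
      have h2 := (hσ y hy).2.1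
      rw [h] at h2
      exact hirr y hy h2
  rw [Finset.sum_const, nsmul_eq_mul, mul_one] at h1
  exact (ZMod.natCast_eq_zero_iff_even).1 h1

/-- `κ₂ = |K|` with an atom of size two is impossible. -/
theorem caseB2 {K D : Finset G} {N : Subgroup G} (C : Crit K D N)
    (hlow : Low K N 2 K.card) {a : G} (haN : a ∈ N) (hff : ff K a = 2) : False := by
  classical
  have S := C.setup
  have h5 := C.five
  have hbig := C.big
  have hkk := C.kk
  set M := (fs N).filter (fun g => ff K g = 2) with hMdef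
  have hM : ∀ g, g ∈ M ↔ g ∈ N ∧ ff K g = 2 := by
    intro g; rw [hMdef, Finset.mem_filter, mem_fs]
  obtain ⟨hMcard, hMcnt⟩ := countM C hlow haN hff hM
  have h1M : (1 : G) ∉ M := by
    intro h
    have h1 := ((hM 1).1 h).2
    have h2 : ff K 1 = 0 := by
      unfold ff
      rw [Finset.card_eq_zero, Finset.filter_eq_empty_iff]
      intro y hy
      simpa using hy
    omega
  have hMinv : Inv M := by
    intro g k hk
    obtain ⟨h1, h2⟩ := (hM k).1 hk
    exact (hM _).2 ⟨S.normal.conj_mem k h1 g, by rw [ff_conj S.inv]; exact h2⟩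
  have hMinv' : ∀ g ∈ M, g⁻¹ ∈ M := by
    intro g hg
    obtain ⟨h1, h2⟩ := (hM g).1 hg
    exact (hM _).2 ⟨N.inv_mem h1, by rw [ff_inv]; exact h2⟩
  -- `{z ∈ K : z y⁻¹ ∈ M}`
  have hcnt2 : ∀ y ∈ K, (K.filter (fun z => z * y⁻¹ ∈ M)).card = K.card - 2 := by
    intro y hy
    rw [← hMcnt y hy]
    apply Finset.card_bij' (fun z _ => z * y⁻¹) (fun g _ => g * y)
    · intro z hz
      obtain ⟨h1, h2⟩ := Finset.mem_filter.1 hz
      exact Finset.mem_filter.2 ⟨h2, by simpa using h1⟩
    · intro g hg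
      obtain ⟨h1, h2⟩ := Finset.mem_filter.1 hg
      exact Finset.mem_filter.2 ⟨h2, by simpa using h1⟩
    · intro z _; group
    · intro g _; group
  have hcnt3 : ∀ y ∈ K, (K.filter (fun z => z * y⁻¹ ∈ insert 1 M)).card = K.card - 1 := by
    intro y hy
    have h1 : K.filter (fun z => z * y⁻¹ ∈ insert 1 M) =
        insert y (K.filter (fun z => z * y⁻¹ ∈ M)) := by
      ext z
      simp only [Finset.mem_filter, Finset.mem_insert]
      constructor
      · rintro ⟨h1, h2 | h2⟩
        · left; exact mul_inv_eq_one.1 h2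
        · right; exact ⟨h1, h2⟩
      · rintro (rfl | ⟨h1, h2⟩)
        · exact ⟨hy, Or.inl (mul_inv_cancel z)⟩
        · exact ⟨h1, Or.inr h2⟩
    rw [h1, Finset.card_insert_of_notMem, hcnt2 y hy]
    · omega
    · intro h
      have h2 := (Finset.mem_filter.1 h).2
      rw [mul_inv_cancel] at h2
      exact h1M h2
  have huniq : ∀ y ∈ K, ∃ z ∈ K, (z * y⁻¹ ∉ insert 1 M) ∧
      ∀ w ∈ K, w * y⁻¹ ∉ insert 1 M → w = z := by
    intro y hy
    have h1 := Finset.card_filter_add_card_filter_not (s := K) (fun z => z * y⁻¹ ∈ insert 1 M)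
    rw [hcnt3 y hy] at h1
    have h2 : (K.filter (fun z => ¬ z * y⁻¹ ∈ insert 1 M)).card = 1 := by omega
    obtain ⟨z, hz⟩ := Finset.card_eq_one.1 h2
    have hzm : z ∈ K.filter (fun z => ¬ z * y⁻¹ ∈ insert 1 M) := by rw [hz]; simp
    obtain ⟨h3, h4⟩ := Finset.mem_filter.1 hzm
    refine ⟨z, h3, h4, ?_⟩
    intro w hw hw2
    have hwm : w ∈ K.filter (fun z => ¬ z * y⁻¹ ∈ insert 1 M) := Finset.mem_filter.2 ⟨hw, hw2⟩
    rw [hz] at hwm
    exact Finset.mem_singleton.1 hwm
  have hinsinv : ∀ g, g ∈ insert 1 M → g⁻¹ ∈ insert 1 M := by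
    intro g hg
    rcases Finset.mem_insert.1 hg with rfl | h
    · rw [inv_one]; exact hg
    · exact Finset.mem_insert_of_mem (hMinv' g h)
  -- parity
  have heven : Even K.card := by
    apply even_of_unique (fun y z => z * y⁻¹ ∉ insert 1 M)
    · intro y z h h2
      apply h
      have h3 := hinsinv _ h2
      have h4 : (y * z⁻¹)⁻¹ = z * y⁻¹ := by group
      rwa [h4] at h3
    · intro y _ h
      apply h
      rw [mul_inv_cancel]; exact Finset.mem_insert_self _ _
    · exact huniq
  have h6 : 6 ≤ K.card := by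
    obtain ⟨j, hj⟩ := heven
    omega
  -- `|K K⁻¹| ≥ 2 m`
  obtain ⟨x, hx⟩ := S.ne
  have hKKi : 2 * K.card ≤ (K * K⁻¹).card := by
    have hpc : pc K (K⁻¹ * {x}) = (K * K⁻¹).card := by
      rw [pc_right S.inv]; unfold pc; rw [mul_comm_inv S.inv]
    by_contra hcon
    have hadm : Adm K N 2 (K⁻¹ * {x}) := by
      refine ⟨?_, ?_, ?_⟩
      · intro f hf
        rw [mem_right, Finset.mem_inv'] at hf
        have h1 := S.sub _ hf x hx
        simpa using h1
      · rw [Finset.card_mul_singleton, Finset.card_inv]; omega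
      · rw [hpc]; omega
    have h1 := hlow _ hadm
    rw [hpc, Finset.card_mul_singleton, Finset.card_inv] at h1
    omega
  set V := (K * K⁻¹) \ (insert 1 M) with hV
  have hVcard : K.card ≤ V.card + 1 := by
    have h1 := Finset.le_card_sdiff (insert 1 M) (K * K⁻¹)
    rw [Finset.card_insert_of_notMem h1M, hMcard, ← hV] at h1
    omega
  have hVrr : ∀ v ∈ V, 1 ≤ rr K v := by
    intro v hv
    obtain ⟨h1, _⟩ := Finset.mem_sdiff.1 hv
    obtain ⟨z, hz, y, hy, rfl⟩ := Finset.mem_mul.1 h1
    rw [Finset.mem_inv'] at hy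
    unfold rr
    rw [Nat.one_le_iff_ne_zero, ← Nat.pos_iff_ne_zero, Finset.card_pos]
    exact ⟨y⁻¹, Finset.mem_filter.2 ⟨hy, by simpa using hz⟩⟩
  have hVsum : ∑ v ∈ V, rr K v ≤ K.card := by
    have h2 := Finset.sum_card_bipartiteAbove_eq_sum_card_bipartiteBelow (s := V) (t := K)
      (fun g z => g * z ∈ K)
    have h3 : ∑ g ∈ V, rr K g = ∑ z ∈ K, (V.filter (fun g => g * z ∈ K)).card := by
      simpa [Finset.bipartiteAbove, Finset.bipartiteBelow, rr] using h2
    rw [h3, Finset.card_eq_sum_ones]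
    apply Finset.sum_le_sum
    intro y hy
    obtain ⟨z, hz, hz1, hz2⟩ := huniq y hy
    rw [Finset.card_le_one]
    intro u hu v hv
    obtain ⟨hu1, hu2⟩ := Finset.mem_filter.1 hu
    obtain ⟨hv1, hv2⟩ := Finset.mem_filter.1 hv
    have h4 := hz2 (u * y) hu2 (by
      have : u * y * y⁻¹ = u := by group
      rw [this]; exact (Finset.mem_sdiff.1 hu1).2)
    have h5 := hz2 (v * y) hv2 (by
      have : v * y * y⁻¹ = v := by group
      rw [this]; exact (Finset.mem_sdiff.1 hv1).2)
    rw [← h5] at h4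
    exact mul_right_cancel h4
  have hVN : ∀ v ∈ V, v ∈ N ∧ v ≠ 1 := by
    intro v hv
    obtain ⟨h1, h2⟩ := Finset.mem_sdiff.1 hv
    obtain ⟨z, hz, y, hy, rfl⟩ := Finset.mem_mul.1 h1
    rw [Finset.mem_inv'] at hy
    refine ⟨?_, ?_⟩
    · have h3 := S.sub _ hy z hz
      have h4 := S.normal.conj_mem _ h3 y⁻¹
      have h5 : y⁻¹ * (y⁻¹⁻¹ * z) * y⁻¹⁻¹ = z * y := by group
      rwa [h5] at h4
    · intro h
      apply h2
      rw [h]; exact Finset.mem_insert_self _ _
  have hVinv : ∀ g : G, ∀ v ∈ V, g * v * g⁻¹ ∈ V := by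
    intro g v hv
    obtain ⟨h1, h2⟩ := Finset.mem_sdiff.1 hv
    refine Finset.mem_sdiff.2 ⟨inv_mul_set S.inv (inv_inv_set S.inv) g v h1, ?_⟩
    intro h3
    apply h2
    rcases Finset.mem_insert.1 h3 with h | h
    · have : v = 1 := by
        have h4 : v = g⁻¹ * (g * v * g⁻¹) * g := by group
        rw [h4, h]; group
      rw [this]; exact Finset.mem_insert_self _ _
    · apply Finset.mem_insert_of_mem
      have h4 := hMinv g⁻¹ _ h
      have h5 : g⁻¹ * (g * v * g⁻¹) * g⁻¹⁻¹ = v := by group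
      rwa [h5] at h4
  have hVone : ∀ v ∈ V, rr K v ≤ 1 := by
    intro v0 hv0
    by_contra hcon
    push Not at hcon
    -- uniqueness
    have huq : ∀ v1 ∈ V, 2 ≤ rr K v1 → v1 = v0 := by
      intro v1 hv1 hr1
      by_contra hne
      have h1 : ∑ v ∈ V, rr K v = rr K v0 + ∑ v ∈ V.erase v0, rr K v :=
        (Finset.add_sum_erase V (rr K) hv0).symm
      have hv1' : v1 ∈ V.erase v0 := Finset.mem_erase.2 ⟨hne, hv1⟩
      have h2 : ∑ v ∈ V.erase v0, rr K v = rr K v1 + ∑ v ∈ (V.erase v0).erase v1, rr K v :=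
        (Finset.add_sum_erase _ (rr K) hv1').symm
      have h3 : ((V.erase v0).erase v1).card ≤ ∑ v ∈ (V.erase v0).erase v1, rr K v := by
        rw [Finset.card_eq_sum_ones]
        apply Finset.sum_le_sum
        intro v hv
        exact hVrr v (Finset.mem_of_mem_erase (Finset.mem_of_mem_erase hv))
      rw [Finset.card_erase_of_mem hv1', Finset.card_erase_of_mem hv0] at h3
      omega
    have hcentral : ∀ g : G, g * v0 * g⁻¹ = v0 := by
      intro g
      apply huq _ (hVinv g v0 hv0)
      rw [rr_conj S.inv]; exact hcon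
    have h1 : ff K v0 = 0 := by
      obtain ⟨y, hy⟩ := Finset.card_pos.1 (show 0 < (K.filter (fun y => v0 * y ∈ K)).card by
        have := hVrr v0 hv0
        unfold rr at this
        omega)
      obtain ⟨hy1, hy2⟩ := Finset.mem_filter.1 hy
      unfold ff
      rw [Finset.card_eq_zero, Finset.filter_eq_empty_iff]
      intro y' hy'
      push Not
      obtain ⟨g, rfl⟩ := C.cls y hy1 y' hy'
      have h2 := S.inv g _ hy2
      have h3 : g * (v0 * y) * g⁻¹ = (g * v0 * g⁻¹) * (g * y * g⁻¹) := by group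
      rw [h3, hcentral g] at h2
      exact h2
    have h2 := two_le_ff C hlow (hVN v0 hv0).1 (hVN v0 hv0).2
    omega
  -- `M ∪ {1}` is closed under multiplication
  have hmul : ∀ g ∈ insert 1 M, ∀ h ∈ insert 1 M, g * h ∈ insert 1 M := by
    intro g hg h hh
    rcases Finset.mem_insert.1 hg with rfl | hg'
    · rw [one_mul]; exact hh
    rcases Finset.mem_insert.1 hh with rfl | hh'
    · rw [mul_one]; exact hg
    by_contra hcon
    have h1 := ff_mul K g h
    rw [((hM g).1 hg').2, ((hM h).1 hh').2] at h1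
    have h2 := rr_add_ff K (g * h)
    have h3 : 2 ≤ rr K (g * h) := by omega
    have h4 : g * h ∈ V := by
      refine Finset.mem_sdiff.2 ⟨?_, hcon⟩
      obtain ⟨y, hy⟩ := Finset.card_pos.1 (show 0 < (K.filter (fun y => g * h * y ∈ K)).card by
        unfold rr at h3; omega)
      obtain ⟨hy1, hy2⟩ := Finset.mem_filter.1 hy
      refine Finset.mem_mul.2 ⟨g * h * y, hy2, y⁻¹, Finset.inv_mem_inv hy1, by group⟩
    have h5 := hVone _ h4
    omega
  let P : Subgroup G :=
    { carrier := (insert 1 M : Finset G)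
      mul_mem' := by
        intro a b ha hb
        exact hmul a ha b hb
      one_mem' := Finset.mem_insert_self 1 M
      inv_mem' := by
        intro a ha
        exact hinsinv a ha }
  have hPmem : ∀ g, g ∈ P ↔ g ∈ insert 1 M := fun g => Iff.rfl
  have hPn : P.Normal := by
    constructor
    intro p hp g
    rw [hPmem] at hp ⊢
    rcases Finset.mem_insert.1 hp with rfl | h
    · rw [mul_one, mul_inv_cancel]; exact hp
    · exact Finset.mem_insert_of_mem (hMinv g p h)
  obtain ⟨t, r, h1, h2, h3, h4⟩ := cosets S.inv C.cls P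
  have h7 := h3 x hx
  have h8 : K.filter (fun z => x⁻¹ * z ∈ P) = K.filter (fun z => z * x⁻¹ ∈ insert 1 M) := by
    apply Finset.filter_congr
    intro z _
    rw [← hPmem]
    constructor
    · intro h
      have h9 := hPn.conj_mem _ h x
      have h10 : x * (x⁻¹ * z) * x⁻¹ = z * x⁻¹ := by group
      rwa [h10] at h9
    · intro h
      have h9 := hPn.conj_mem _ h x⁻¹
      have h10 : x⁻¹ * (z * x⁻¹) * x⁻¹⁻¹ = x⁻¹ * z := by group
      rwa [h10] at h9
  rw [h8, hcnt3 x hx] at h7
  rw [← h7] at h2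
  rcases Nat.lt_or_ge t 2 with ht | ht
  · have : t * (K.card - 1) ≤ 1 * (K.card - 1) := Nat.mul_le_mul_right _ (by omega)
    omega
  · have : 2 * (K.card - 1) ≤ t * (K.card - 1) := Nat.mul_le_mul_right _ ht
    omega

/-- The critical situation is impossible. -/
theorem crit_false {K D : Finset G} {N : Subgroup G} (C : Crit K D N) : False := by
  classical
  have S := C.setup
  have h5 := C.five
  have hbig := C.big
  obtain ⟨x, hx⟩ := S.ne
  obtain ⟨κ, hlow, A, hA, h1A⟩ := exists_atom S (k := 2) (by norm_num) ⟨_, C.admK hx⟩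
  have hadm1 : ∀ F, Adm K N 2 F → Adm K N 1 F := by
    intro F hF
    exact ⟨hF.1, by have := hF.2.1; omega, by have := hF.2.2; omega⟩
  have h1 := C.low1 A (hadm1 A hA.1.1)
  have h2 := hA.1.2
  have h3 := hlow _ (C.admK hx)
  rw [pc_left, Finset.card_singleton_mul] at h3
  unfold pc at h3
  rw [C.kk] at h3
  have hκ : κ = K.card - 1 ∨ κ = K.card := by omega
  rcases hκ with rfl | rfl
  · exact caseA C hlow hA h1A
  · have h4 := card_le_three C hlow hA h1A
    have h2A : 2 ≤ A.card := hA.1.1.2.1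
    rcases Nat.lt_or_ge A.card 3 with h | h
    · have hc : A.card = 2 := by omega
      obtain ⟨a, ha, ha1⟩ : ∃ a ∈ A, a ≠ 1 := by
        have : 0 < (A.erase 1).card := by rw [Finset.card_erase_of_mem h1A]; omega
        obtain ⟨a, ha⟩ := Finset.card_pos.1 this
        exact ⟨a, (Finset.mem_erase.1 ha).2, (Finset.mem_erase.1 ha).1⟩
      have hAeq : A = {1, a} := by
        symm
        apply Finset.eq_of_subset_of_card_le
        · intro w hw
          rw [Finset.mem_insert, Finset.mem_singleton] at hw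
          rcases hw with rfl | rfl
          · exact h1A
          · exact ha
        · rw [Finset.card_pair (Ne.symm ha1), hc]
      rw [hAeq, pc_pair, Finset.card_pair (Ne.symm ha1)] at h2
      exact caseB2 C hlow (hA.1.1.1 a ha) (by omega)
    · exact caseB3 C hlow hA h1A (by omega)

end KDD
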