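import Pool.Agent.KDD.TwoA

/-!
# `K ^ n = D ∪ D⁻¹` (MP_846fd0_al): the case `κ₂ = |K| - 1`, the atom is a subgroup
-/

namespace KDD

open Finset Pointwise

variable {G : Type*} [Group G] [Fintype G] [DecidableEq G]

/-- `|L|` divides `|L K|`. -/
theorem card_dvd_pc (K : Finset G) (L : Subgroup G) : (fs L).card ∣ pc K (fs L) := by
  classical
  refine ⟨((fs L * K).image (fun g => fs L * {g})).card, ?_⟩
  unfold pc
  rw [mul_comm]
  apply card_fiber_const
  intro u hu
  have hmem : ∀ b c : G, c ∈ fs L * {b} ↔ c * b⁻¹ ∈ L := by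
    intro b c; rw [mem_right, mem_fs]
  have : (fs L * K).filter (fun b => fs L * {b} = fs L * {u}) = fs L * {u} := by
    ext b
    rw [Finset.mem_filter, hmem]
    constructor
    · rintro ⟨_, h2⟩
      rw [← hmem, ← h2, hmem]
      simp
    · intro h
      obtain ⟨l, hl, k, hk, rfl⟩ := Finset.mem_mul.1 hu
      refine ⟨?_, ?_⟩
      · refine Finset.mem_mul.2 ⟨b * k⁻¹, ?_, k, hk, by group⟩
        rw [mem_fs]
        have h1 : b * k⁻¹ = (b * (l * k)⁻¹) * l := by group
        rw [h1]; exact L.mul_mem h (mem_fs.1 hl)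
      · ext c
        rw [hmem, hmem]
        constructor
        · intro hc
          have h1 : c * (l * k)⁻¹ = (c * b⁻¹) * (b * (l * k)⁻¹) := by group
          rw [h1]; exact L.mul_mem hc h
        · intro hc
          have h1 : c * b⁻¹ = (c * (l * k)⁻¹) * (b * (l * k)⁻¹)⁻¹ := by group
          rw [h1]; exact L.mul_mem hc (L.inv_mem h)
  rw [this, Finset.card_mul_singleton]

/-- A `2`-atom with `κ₂ = |K| - 1` of size at least `3` is not a subgroup. -/
theorem subgroupA {K D : Finset G} {N : Subgroup G} (C : Crit K D N)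
    (hlow : Low K N 2 (K.card - 1)) {L : Subgroup G} (hA : Atom K N 2 (K.card - 1) (fs L))
    (hs : 3 ≤ (fs L).card) : False := by
  classical
  have S := C.setup
  have h5 := C.five
  have hbig := C.big
  have hAN : ∀ a ∈ L, a ∈ N := fun a ha => hA.1.1.1 a (mem_fs.2 ha)
  have hpc := hA.1.2
  have hbound := frag_bound S hlow hA hA.1
  obtain ⟨q, hq⟩ := card_dvd_pc K L
  set s := (fs L).card with hsdef
  set m := K.card with hmdef
  -- m - 1 ≥ s
  have hq2 : 2 ≤ q := by
    by_contra h
    have : q = 0 ∨ q = 1 := by omega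
    rcases this with h | h
    · rw [h] at hq; omega
    · rw [h] at hq; omega
  obtain ⟨q', rfl⟩ := Nat.exists_eq_add_of_le hq2
  have hms : m - 1 = s + s * q' := by
    have h1 : s * (2 + q') = s + (s + s * q') := by ring
    omega
  by_cases hn : L.Normal
  · obtain ⟨t, r, h1, h2, h3, h4⟩ := cosets S.inv C.cls L
    have hL : L ≠ ⊥ := by
      intro h
      have : fs L = {1} := by
        ext g; rw [mem_fs, h, Subgroup.mem_bot, Finset.mem_singleton]
      rw [hsdef, this, Finset.card_singleton] at hs
      omega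
    have h5 := per C.toHyp2 L hL h4 h2 h3
    -- 2 m ≤ t s = s + m - 1
    have h6 : 2 * m ≤ t * s := by
      calc 2 * m = 2 * (t * r) := by rw [hmdef, h2]
        _ = t * (2 * r) := by ring
        _ ≤ t * s := Nat.mul_le_mul_left _ h5
    rw [hsdef, ← h1] at h6
    omega
  · -- a conjugate `B ≠ A`
    obtain ⟨g, hg⟩ : ∃ g : G, {g} * fs L * {g⁻¹} ≠ fs L := by
      by_contra hcon
      push Not at hcon
      apply hn
      constructor
      intro a ha g
      rw [← mem_fs, ← hcon g, mem_conj]
      have : g⁻¹ * (g * a * g⁻¹) * g = a := by group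
      rw [this]; exact mem_fs.2 ha
    set B := {g} * fs L * {g⁻¹} with hB
    have hBatom := hA.conj S g
    rw [← hB] at hBatom
    have memB : ∀ y, y ∈ B ↔ g⁻¹ * y * g ∈ L := by
      intro y; rw [hB, mem_conj, mem_fs]
    have memA : ∀ y, y ∈ fs L ↔ y ∈ L := fun y => mem_fs
    have h1A : (1 : G) ∈ fs L := (memA 1).2 L.one_mem
    have h1B : (1 : G) ∈ B := by rw [memB]; simp
    have hBmul : ∀ y ∈ B, ∀ z ∈ B, y * z ∈ B := by
      intro y hy z hz
      rw [memB] at hy hz ⊢
      have : g⁻¹ * (y * z) * g = (g⁻¹ * y * g) * (g⁻¹ * z * g) := by group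
      rw [this]; exact L.mul_mem hy hz
    have hBinv : ∀ y ∈ B, y⁻¹ ∈ B := by
      intro y hy
      rw [memB] at hy ⊢
      have : g⁻¹ * y⁻¹ * g = (g⁻¹ * y * g)⁻¹ := by group
      rw [this]; exact L.inv_mem hy
    have hBcard : B.card = s := by
      rw [hB, Finset.card_mul_singleton, Finset.card_singleton_mul]
    have hBN : ∀ b ∈ B, b ∈ N := hBatom.1.1.1
    have hint1 : ∀ y, y ∈ fs L → y ∈ B → y = 1 := by
      intro y hy1 hy2
      by_contra hne
      exact hg (eq_of_two S hlow hBatom hA (u := 1) (v := y) (Ne.symm hne) h1B h1A hy2 hy1)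
    obtain ⟨a, ha, ha1⟩ : ∃ a ∈ fs L, a ≠ 1 := by
      have : 0 < ((fs L).erase 1).card := by
        rw [Finset.card_erase_of_mem h1A]; omega
      obtain ⟨a, ha⟩ := Finset.card_pos.1 this
      exact ⟨a, (Finset.mem_erase.1 ha).2, (Finset.mem_erase.1 ha).1⟩
    obtain ⟨b, hb, hb1⟩ : ∃ b ∈ B, b ≠ 1 := by
      have : 0 < (B.erase 1).card := by
        rw [Finset.card_erase_of_mem h1B]; omega
      obtain ⟨a, ha⟩ := Finset.card_pos.1 this
      exact ⟨a, (Finset.mem_erase.1 ha).2, (Finset.mem_erase.1 ha).1⟩
    have haL : a ∈ L := mem_fs.1 ha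
    have hbL : b ∉ fs L := fun h => hb1 (hint1 b h hb)
    have haB : a ∉ B := fun h => ha1 (hint1 a ha h)
    -- size
    have hsq : s * s ≤ (fs N).card := by
      have h1 : (fs L ×ˢ B).card = s * s := by rw [Finset.card_product, hBcard]
      rw [← h1]
      apply Finset.card_le_card_of_injOn (fun p => p.1 * p.2)
      · rintro ⟨u, v⟩ huv
        simp only [Finset.mem_coe, Finset.mem_product] at huv
        exact mem_fs.2 (N.mul_mem (hAN u (mem_fs.1 huv.1)) (hBN v huv.2))
      · rintro ⟨u, v⟩ huv ⟨u', v'⟩ huv' h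
        simp only [Finset.mem_coe, Finset.mem_product] at huv huv'
        simp only at h
        have h2 : u'⁻¹ * u = v' * v⁻¹ := by
          have : u'⁻¹ * (u * v) * v⁻¹ = u'⁻¹ * (u' * v') * v⁻¹ := by rw [h]
          simpa [mul_assoc] using this
        have h3 : u'⁻¹ * u ∈ fs L := by
          rw [mem_fs]; exact L.mul_mem (L.inv_mem (mem_fs.1 huv'.1)) (mem_fs.1 huv.1)
        have h4 : u'⁻¹ * u ∈ B := by
          rw [h2]; exact hBmul _ huv'.2 _ (hBinv _ huv.2)
        have h5 := hint1 _ h3 h4
        have h6 : u = u' := by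
          have := inv_mul_eq_one.1 h5; exact this.symm
        rw [h5] at h2
        have h7 : v' = v := mul_inv_eq_one.1 h2.symm
        rw [h6, h7]
    have hsize : 3 * s + m ≤ (fs N).card + 1 := by
      by_contra hcon
      push Not at hcon
      have h6 : m ≤ 3 * s - 4 := by omega
      have h7 : s * s ≤ 3 * s + m - 2 := by omega
      have h8 : s ≤ 5 := by
        by_contra h
        have h9 : 6 * s ≤ s * s := Nat.mul_le_mul_right _ (by omega)
        omega
      have h9 : q' ≤ 2 := by
        by_contra h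
        have : s * 3 ≤ s * q' := Nat.mul_le_mul_left _ (by omega)
        omega
      interval_cases s <;> interval_cases q' <;> omega
    -- the fragment
    have hbA := hA.left (hBN b hb)
    have hAB : (fs L ∩ B).card = 1 := by
      rw [Finset.card_eq_one]
      refine ⟨1, ?_⟩
      ext y
      rw [Finset.mem_inter, Finset.mem_singleton]
      constructor
      · rintro ⟨h1, h2⟩; exact hint1 y h1 h2
      · rintro rfl; exact ⟨h1A, h1B⟩
    have hUcard := Finset.card_union_add_card_inter (fs L) B
    have hUsub := pc_submod K (fs L) B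
    have hpc1 : pc K (fs L ∩ B) = m := by
      obtain ⟨u, hu⟩ := Finset.card_eq_one.1 hAB
      rw [hu, pc_singleton]
    have hpcB := hBatom.1.2
    have hinter2 : (fs L ∪ B) ∩ ({b} * fs L) = {b} := by
      ext y
      rw [Finset.mem_inter, Finset.mem_union, Finset.mem_singleton]
      have hy : y ∈ {b} * fs L ↔ b⁻¹ * y ∈ fs L := mem_left
      rw [hy]
      constructor
      · rintro ⟨h1 | h1, h2⟩
        · exfalso
          apply hbL
          rw [mem_fs] at h1 h2 ⊢
          have : b = y * (b⁻¹ * y)⁻¹ := by group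
          rw [this]; exact L.mul_mem h1 (L.inv_mem h2)
        · have h3 : b⁻¹ * y ∈ B := hBmul _ (hBinv b hb) _ h1
          have h4 := hint1 _ h2 h3
          exact (inv_mul_eq_one.1 h4).symm
      · rintro rfl
        exact ⟨Or.inr hb, by rw [inv_mul_cancel]; exact h1A⟩
    have hVcard := Finset.card_union_add_card_inter (fs L ∪ B) ({b} * fs L)
    have hVsub := pc_submod K (fs L ∪ B) ({b} * fs L)
    rw [hinter2, Finset.card_singleton, Finset.card_singleton_mul] at hVcard
    rw [hinter2, pc_singleton, pc_left] at hVsub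
    set F := (fs L ∪ B) ∪ ({b} * fs L) with hF
    have hadmF : Adm K N 2 F := by
      refine ⟨?_, ?_, ?_⟩
      · intro f hf
        rcases Finset.mem_union.1 hf with h | h
        · rcases Finset.mem_union.1 h with h | h
          · exact hAN f (mem_fs.1 h)
          · exact hBN f h
        · exact hbA.1.1.1 f h
      · omega
      · omega
    have hfragF : Frag K N 2 (K.card - 1) F := by
      refine ⟨hadmF, ?_⟩
      have h1 := hlow _ hadmF
      omega
    have hBa := hBatom.right S (hAN a haL)
    have hne : b * a ≠ a := by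
      intro h; apply hb1; simpa using h
    have haBa : a ∈ B * {a} := by rw [mem_right]; simpa using h1B
    have hbaBa : b * a ∈ B * {a} := by rw [mem_right]; simpa using hb
    have hbabA : b * a ∈ {b} * fs L := by rw [mem_left]; simpa using ha
    have hsubF : B * {a} ⊆ F := by
      apply atom_subset S hlow hBa hfragF
      have h1 : ({b * a, a} : Finset G) ⊆ (B * {a}) ∩ F := by
        intro w hw
        rw [Finset.mem_insert, Finset.mem_singleton] at hw
        rw [Finset.mem_inter, hF, Finset.mem_union, Finset.mem_union]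
        rcases hw with rfl | rfl
        · exact ⟨hbaBa, Or.inr hbabA⟩
        · exact ⟨haBa, Or.inl (Or.inl ha)⟩
      have h2 := Finset.card_le_card h1
      rwa [Finset.card_pair hne] at h2
    have hc1 : ((B * {a}) ∩ fs L).card ≤ 1 := by
      apply inter_le_one S hlow hBa hA
      intro h
      rw [← h, mem_right] at h1A
      apply haB
      have := hBinv _ h1A
      simpa using this
    have hc2 : (B * {a}) ∩ B = ∅ := by
      rw [Finset.eq_empty_iff_forall_notMem]
      intro y hy
      rw [Finset.mem_inter, mem_right] at hy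
      apply haB
      have h1 := hBmul _ (hBinv _ hy.1) _ hy.2
      have h2 : (y * a⁻¹)⁻¹ * y = a := by group
      rwa [h2] at h1
    have hc3 : ((B * {a}) ∩ ({b} * fs L)).card ≤ 1 := by
      apply inter_le_one S hlow hBa hbA
      intro h
      have h1 : b ∈ B * {a} := by rw [h, mem_left]; simpa using h1A
      rw [mem_right] at h1
      apply haB
      have h2 := hBmul _ (hBinv _ h1) _ hb
      have h3 : (b * a⁻¹)⁻¹ * b = a := by group
      rwa [h3] at h2
    have hc4 : (B * {a}).card ≤ ((B * {a}) ∩ fs L).card + ((B * {a}) ∩ ({b} * fs L)).card := by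
      have h1 : B * {a} = ((B * {a}) ∩ fs L) ∪ ((B * {a}) ∩ ({b} * fs L)) := by
        have h2 : (B * {a}) ∩ F = B * {a} := Finset.inter_eq_left.2 hsubF
        rw [hF, Finset.inter_union_distrib_left, Finset.inter_union_distrib_left, hc2,
          Finset.union_empty] at h2
        exact h2.symm
      calc (B * {a}).card
          = (((B * {a}) ∩ fs L) ∪ ((B * {a}) ∩ ({b} * fs L))).card := by rw [← h1]
        _ ≤ _ := Finset.card_union_le _ _
    rw [Finset.card_mul_singleton, hBcard] at hc4
    omega

end KDD
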